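import Pool.Agent.Lib.helper94.ANT.Defs

/-!
Mertens' theorems with bounded error.
-/

namespace Pool.Agent.Lib.helper94.ANT

open Finset

/-- `A n = ∑_{p ≤ n} log p / p` -/
noncomputable def mA (n : ℕ) : ℝ := ∑ p ∈ Nat.primesLE n, Real.log p / p

/-- `S n = ∑_{p ≤ n} 1 / p` -/
noncomputable def mS (n : ℕ) : ℝ := ∑ p ∈ Nat.primesLE n, (1 : ℝ) / p

theorem log_factorial_eq (n : ℕ) :
    Real.log (n.factorial : ℝ) =
      ∑ p ∈ Nat.primesLE n, (n.factorial.factorization p : ℝ) * Real.log p := by
  have h1 : (n.factorial : ℕ) = ∏ p ∈ Nat.primesLE n, p ^ (n.factorial.factorization p) := by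
    conv_lhs => rw [← Nat.prod_factorization_pow_eq_self n.factorial_ne_zero]
    rw [Finsupp.prod]
    apply Finset.prod_subset
    · intro p hp
      have hp' : p ∈ n.factorial.primeFactors := by simpa using hp
      rw [Nat.mem_primesLE]
      have h2 := Nat.prime_of_mem_primeFactors hp'
      exact ⟨(h2.dvd_factorial).1 (Nat.dvd_of_mem_primeFactors hp'), h2⟩
    · intro p _ hp
      rw [Finsupp.notMem_support_iff] at hp
      rw [hp, pow_zero]
  conv_lhs => rw [h1]
  push_cast
  rw [Real.log_prod]
  · apply Finset.sum_congr rfl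
    intro p _
    rw [Real.log_pow]
  · intro p hp
    have := (Nat.prime_of_mem_primesLE hp).pos
    positivity

theorem log_factorial_le (n : ℕ) : Real.log (n.factorial : ℝ) ≤ n * Real.log n := by
  rcases Nat.eq_zero_or_pos n with rfl | hn
  · simp
  rw [← Real.log_pow]
  apply Real.log_le_log
  · exact_mod_cast n.factorial_pos
  · exact_mod_cast Nat.factorial_le_pow n

theorem le_log_factorial {n : ℕ} (hn : n ≠ 0) :
    n * Real.log n - n ≤ Real.log (n.factorial : ℝ) := by
  have h := Stirling.le_log_factorial_stirling hn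
  have h1 : 0 ≤ Real.log n := Real.log_natCast_nonneg n
  have h2 : 0 ≤ Real.log (2 * Real.pi) := by
    apply Real.log_nonneg
    linarith [Real.pi_gt_three]
  linarith

theorem aux_sum (n : ℕ) (hn : 1 ≤ n) :
    ∑ k ∈ Icc 2 n, Real.log k / ((k : ℝ) * (k - 1)) ≤ 2 - (Real.log n + 2) / n := by
  induction n, hn using Nat.le_induction with
  | base => simp
  | succ n hn ih =>
    rw [Finset.sum_Icc_succ_top (by omega)]
    have hn0 : (0 : ℝ) < n := by exact_mod_cast hn
    have h1 : Real.log (n + 1) - Real.log n ≤ 1 / n := by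
      rw [← Real.log_div (by positivity) (by positivity)]
      have := Real.log_le_sub_one_of_pos (x := ((n : ℝ) + 1) / n) (by positivity)
      have h2 : ((n : ℝ) + 1) / n - 1 = 1 / n := by field_simp; ring
      linarith
    have h3 : (1 : ℝ) / n ≤ 1 := by
      rw [div_le_one hn0]
      exact_mod_cast hn
    push_cast
    have key : Real.log ((n : ℝ) + 1) / (((n : ℝ) + 1) * ((n : ℝ) + 1 - 1)) ≤
        (Real.log n + 2) / n - (Real.log (n + 1) + 2) / (n + 1) := by
      rw [div_sub_div _ _ hn0.ne' (by positivity), add_sub_cancel_right, mul_comm ((n : ℝ) + 1) n]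
      apply div_le_div_of_nonneg_right _ (by positivity)
      have h4 : (n : ℝ) * (Real.log (n + 1) - Real.log n) ≤ 1 := by
        have := mul_le_mul_of_nonneg_left h1 hn0.le
        rwa [mul_one_div_cancel hn0.ne'] at this
      nlinarith
    linarith

theorem aux_sum_primes (n : ℕ) :
    ∑ p ∈ Nat.primesLE n, Real.log p / ((p : ℝ) * (p - 1)) ≤ 2 := by
  rcases Nat.eq_zero_or_pos n with rfl | hn
  · simp
  have h1 : ∑ p ∈ Nat.primesLE n, Real.log p / ((p : ℝ) * (p - 1)) ≤
      ∑ k ∈ Icc 2 n, Real.log k / ((k : ℝ) * (k - 1)) := by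
    rw [Nat.primesLE_eq_filter_Icc_two]
    apply Finset.sum_le_sum_of_subset_of_nonneg (Finset.filter_subset _ _)
    intro k hk _
    have hk2 : (2 : ℝ) ≤ k := by exact_mod_cast (Finset.mem_Icc.1 hk).1
    have := Real.log_natCast_nonneg k
    apply div_nonneg this
    nlinarith
  have h2 := aux_sum n hn
  have h3 : 0 ≤ (Real.log n + 2) / n := by
    have := Real.log_natCast_nonneg n
    positivity
  linarith

/-- Mertens' first theorem -/
theorem mA_bounds {n : ℕ} (hn : 1 ≤ n) :
    Real.log n - 3 ≤ mA n ∧ mA n ≤ Real.log n + 2 := by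
  have hn0 : (0 : ℝ) < n := by exact_mod_cast hn
  have hlog := log_factorial_eq n
  constructor
  · -- lower bound
    have h1 : Real.log (n.factorial : ℝ) ≤ n * mA n + n * 2 := by
      rw [hlog]
      calc ∑ p ∈ Nat.primesLE n, (n.factorial.factorization p : ℝ) * Real.log p
          ≤ ∑ p ∈ Nat.primesLE n, (n * (Real.log p / p) +
              n * (Real.log p / ((p : ℝ) * (p - 1)))) := by
            apply Finset.sum_le_sum
            intro p hp
            have hpp := Nat.prime_of_mem_primesLE hp
            have hp2 : (2 : ℝ) ≤ p := by exact_mod_cast hpp.two_le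
            have hlp : 0 ≤ Real.log p := Real.log_natCast_nonneg p
            have h2 : (n.factorial.factorization p : ℝ) ≤ n / (p - 1) := by
              have h3 : (n.factorial.factorization p : ℝ) ≤ ((n / (p - 1) : ℕ) : ℝ) := by
                exact_mod_cast Nat.factorization_factorial_le_div_pred hpp n
              have h4 : ((n / (p - 1) : ℕ) : ℝ) ≤ (n : ℝ) / ((p - 1 : ℕ) : ℝ) := Nat.cast_div_le
              rw [Nat.cast_sub hpp.one_le, Nat.cast_one] at h4
              linarith
            have h5 := mul_le_mul_of_nonneg_right h2 hlp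
            refine h5.trans (le_of_eq ?_)
            have h6 : (p : ℝ) - 1 ≠ 0 := by linarith
            have h7 : (p : ℝ) ≠ 0 := by linarith
            field_simp
            ring
        _ = n * mA n + n * ∑ p ∈ Nat.primesLE n, Real.log p / ((p : ℝ) * (p - 1)) := by
            rw [Finset.sum_add_distrib, mA, Finset.mul_sum, Finset.mul_sum]
        _ ≤ n * mA n + n * 2 := by
            have := aux_sum_primes n
            nlinarith
    have h2 := le_log_factorial (n := n) (by omega)
    have h3 : (n : ℝ) * (Real.log n - 3) ≤ n * mA n := by nlinarith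
    exact le_of_mul_le_mul_left h3 hn0
  · have h1 : n * mA n - Real.log 4 * n ≤ Real.log (n.factorial : ℝ) := by
      rw [hlog]
      have hθ : ∑ p ∈ Nat.primesLE n, Real.log p ≤ Real.log 4 * n := by
        rw [← Chebyshev.theta_eq_sum_primesLE_log]
        exact Chebyshev.theta_le_log4_mul_x hn0.le
      calc n * mA n - Real.log 4 * n ≤ n * mA n - ∑ p ∈ Nat.primesLE n, Real.log p := by linarith
        _ = ∑ p ∈ Nat.primesLE n, (n * (Real.log p / p) - Real.log p) := by
            rw [Finset.sum_sub_distrib, mA, Finset.mul_sum]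
        _ ≤ _ := by
            apply Finset.sum_le_sum
            intro p hp
            have hpp := Nat.prime_of_mem_primesLE hp
            have hpn := Nat.le_of_mem_primesLE hp
            have hp2 : (2 : ℝ) ≤ p := by exact_mod_cast hpp.two_le
            have hlp : 0 ≤ Real.log p := Real.log_natCast_nonneg p
            have h2 : n / p ≤ n.factorial.factorization p := by
              rw [Nat.factorization_factorial hpp (Nat.lt_succ_self (Nat.log p n))]
              have h1mem : 1 ∈ Finset.Ico 1 (Nat.log p n).succ := by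
                rw [Finset.mem_Ico]
                have := Nat.log_pos hpp.one_lt hpn
                omega
              have := Finset.single_le_sum (f := fun i => n / p ^ i)
                (fun i _ => Nat.zero_le _) h1mem
              simpa using this
            have h3 : (n : ℝ) / p - 1 ≤ n.factorial.factorization p := by
              have h4 : (n : ℝ) / p < ((n / p : ℕ) : ℝ) + 1 := by
                rw [← Nat.floor_div_eq_div (K := ℝ)]
                exact Nat.lt_floor_add_one _
              have h5 : ((n / p : ℕ) : ℝ) ≤ (n.factorial.factorization p : ℝ) := by exact_mod_cast h2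
              linarith
            have h4 := mul_le_mul_of_nonneg_right h3 hlp
            refine le_trans (le_of_eq ?_) h4
            ring
    have h2 := log_factorial_le n
    have h3 : Real.log 4 ≤ 2 := by
      have : Real.log 4 = 2 * Real.log 2 := by
        rw [show (4 : ℝ) = 2 ^ 2 by norm_num, Real.log_pow]; norm_num
      have := Real.log_two_lt_d9
      linarith
    have h4 : (n : ℝ) * mA n ≤ n * (Real.log n + 2) := by nlinarith
    exact le_of_mul_le_mul_left h4 hn0

theorem mA_succ (n : ℕ) : mA (n + 1) = mA n + (mS (n + 1) - mS n) * Real.log ((n + 1 : ℕ) : ℝ) := by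
  unfold mA mS
  rw [Nat.primesLE_succ]
  split_ifs with h
  · rw [Finset.sum_insert (Nat.notMem_primesLE n), Finset.sum_insert (Nat.notMem_primesLE n)]
    have : ((n + 1 : ℕ) : ℝ) ≠ 0 := by positivity
    field_simp
    ring
  · ring

theorem loglog_step {n : ℕ} (hn : 2 ≤ n) :
    1 - Real.log n / Real.log ((n + 1 : ℕ) : ℝ) ≤
      Real.log (Real.log ((n + 1 : ℕ) : ℝ)) - Real.log (Real.log n) ∧
    Real.log (Real.log ((n + 1 : ℕ) : ℝ)) - Real.log (Real.log n) -
      (1 / Real.log n - 1 / Real.log ((n + 1 : ℕ) : ℝ)) ≤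
      1 - Real.log n / Real.log ((n + 1 : ℕ) : ℝ) := by
  have h1 : 0 < Real.log n := Real.log_pos (by exact_mod_cast hn)
  have hlt : Real.log n < Real.log ((n + 1 : ℕ) : ℝ) :=
    Real.log_lt_log (by positivity) (by exact_mod_cast Nat.lt_succ_self n)
  set a := Real.log n with ha
  set b := Real.log ((n + 1 : ℕ) : ℝ) with hb
  have hb0 : 0 < b := h1.trans hlt
  have hab : b - a ≤ 1 := by
    rw [ha, hb, ← Real.log_div (by positivity) (by positivity)]
    have h2 := Real.log_le_sub_one_of_pos (x := ((n + 1 : ℕ) : ℝ) / n) (by positivity)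
    have hn0 : (2 : ℝ) ≤ n := by exact_mod_cast hn
    have h3 : ((n + 1 : ℕ) : ℝ) / n ≤ 2 := by
      rw [div_le_iff₀ (by linarith)]
      push_cast
      linarith
    linarith
  rw [← Real.log_div hb0.ne' h1.ne']
  constructor
  · have := Real.one_sub_inv_le_log_of_pos (x := b / a) (by positivity)
    rwa [inv_div] at this
  · have h2 := Real.log_le_sub_one_of_pos (x := b / a) (by positivity)
    have h3 : b / a - 1 - (1 / a - 1 / b) ≤ 1 - a / b := by
      have h4 : 1 - a / b - (b / a - 1 - (1 / a - 1 / b)) = (b - a) * (1 - (b - a)) / (a * b) := by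
        field_simp
        ring
      have h5 : 0 ≤ (b - a) * (1 - (b - a)) / (a * b) := by
        apply div_nonneg
        · exact mul_nonneg (by linarith) (by linarith)
        · positivity
      linarith
    linarith

/-- [M1] Mertens' second theorem with bounded error. -/
theorem mertens : ∃ C : ℝ, 0 < C ∧ ∀ x : ℕ, 2 ≤ x →
    |∑ p ∈ Nat.primesLE x, (1 : ℝ) / p - Real.log (Real.log x)| ≤ C := by
  -- `T n = S n - A n / log n`
  set K₁ : ℝ := mS 2 - mA 2 / Real.log 2 - Real.log (Real.log 2) + 2 / Real.log 2 with hK₁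
  set K₂ : ℝ := mS 2 - mA 2 / Real.log 2 - Real.log (Real.log 2) - 4 / Real.log 2 with hK₂
  have hstep : ∀ n : ℕ, 2 ≤ n → mS (n + 1) - mA (n + 1) / Real.log ((n + 1 : ℕ) : ℝ) -
      (mS n - mA n / Real.log n) = mA n * (1 / Real.log n - 1 / Real.log ((n + 1 : ℕ) : ℝ)) := by
    intro n hn
    have h1 : 0 < Real.log n := Real.log_pos (by exact_mod_cast hn)
    have h2 : 0 < Real.log ((n + 1 : ℕ) : ℝ) := Real.log_pos (by exact_mod_cast (by omega : 1 < n + 1))
    rw [mA_succ n]
    field_simp
    ring
  have hmono : ∀ n : ℕ, 2 ≤ n → 0 ≤ 1 / Real.log n - 1 / Real.log ((n + 1 : ℕ) : ℝ) := by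
    intro n hn
    have h1 : 0 < Real.log n := Real.log_pos (by exact_mod_cast hn)
    have hlt : Real.log n ≤ Real.log ((n + 1 : ℕ) : ℝ) :=
      Real.log_le_log (by positivity) (by exact_mod_cast (Nat.lt_succ_self n).le)
    rw [sub_nonneg]
    exact one_div_le_one_div_of_le h1 hlt
  have hup : ∀ n : ℕ, 2 ≤ n →
      mS n - mA n / Real.log n - Real.log (Real.log n) + 2 / Real.log n ≤ K₁ := by
    intro n hn
    induction n, hn using Nat.le_induction with
    | base => simp [hK₁]
    | succ n hn ih =>
      have h1 := hstep n hn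
      have h2 := hmono n hn
      have h3 := (loglog_step hn).1
      have h4 := (mA_bounds (n := n) (by omega)).2
      have h5 : 0 < Real.log n := Real.log_pos (by exact_mod_cast hn)
      have h6 : mA n * (1 / Real.log n - 1 / Real.log ((n + 1 : ℕ) : ℝ)) ≤
          (Real.log n + 2) * (1 / Real.log n - 1 / Real.log ((n + 1 : ℕ) : ℝ)) :=
        mul_le_mul_of_nonneg_right h4 h2
      have h7 : (Real.log n + 2) * (1 / Real.log n - 1 / Real.log ((n + 1 : ℕ) : ℝ)) =
          1 - Real.log n / Real.log ((n + 1 : ℕ) : ℝ) +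
            (2 / Real.log n - 2 / Real.log ((n + 1 : ℕ) : ℝ)) := by
        field_simp
      linarith
  have hlo : ∀ n : ℕ, 2 ≤ n →
      K₂ ≤ mS n - mA n / Real.log n - Real.log (Real.log n) - 4 / Real.log n := by
    intro n hn
    induction n, hn using Nat.le_induction with
    | base => simp [hK₂]
    | succ n hn ih =>
      have h1 := hstep n hn
      have h2 := hmono n hn
      have h3 := (loglog_step hn).2
      have h4 := (mA_bounds (n := n) (by omega)).1
      have h5 : 0 < Real.log n := Real.log_pos (by exact_mod_cast hn)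
      have h6 : (Real.log n - 3) * (1 / Real.log n - 1 / Real.log ((n + 1 : ℕ) : ℝ)) ≤
          mA n * (1 / Real.log n - 1 / Real.log ((n + 1 : ℕ) : ℝ)) :=
        mul_le_mul_of_nonneg_right h4 h2
      have h7 : (Real.log n - 3) * (1 / Real.log n - 1 / Real.log ((n + 1 : ℕ) : ℝ)) =
          1 - Real.log n / Real.log ((n + 1 : ℕ) : ℝ) -
            3 * (1 / Real.log n - 1 / Real.log ((n + 1 : ℕ) : ℝ)) := by
        field_simp
      have h8 : 4 / Real.log n = 4 * (1 / Real.log n) := by ring
      have h9 : 4 / Real.log ((n + 1 : ℕ) : ℝ) = 4 * (1 / Real.log ((n + 1 : ℕ) : ℝ)) := by ring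
      linarith
  have hl2 : 0 < Real.log 2 := Real.log_pos (by norm_num)
  refine ⟨|K₁| + |K₂| + 1 + 4 / Real.log 2, by positivity, ?_⟩
  intro x hx
  change |mS x - Real.log (Real.log x)| ≤ _
  have h1 : 0 < Real.log x := Real.log_pos (by exact_mod_cast hx)
  have h1' : Real.log 2 ≤ Real.log x := Real.log_le_log (by norm_num) (by exact_mod_cast hx)
  have h2 := hup x hx
  have h3 := hlo x hx
  have h4 := mA_bounds (n := x) (by omega)
  have h5 : mA x / Real.log x ≤ 1 + 2 / Real.log x := by
    rw [div_le_iff₀ h1]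
    have : (1 + 2 / Real.log x) * Real.log x = Real.log x + 2 := by field_simp
    linarith [h4.2]
  have h6 : 1 - 3 / Real.log x ≤ mA x / Real.log x := by
    rw [le_div_iff₀ h1]
    have : (1 - 3 / Real.log x) * Real.log x = Real.log x - 3 := by field_simp
    linarith [h4.1]
  have h7 : (4 : ℝ) / Real.log x ≤ 4 / Real.log 2 := by
    apply div_le_div_of_nonneg_left (by norm_num) hl2 h1'
  have h8 : (0 : ℝ) ≤ 1 / Real.log x := by positivity
  have h9 : (4 : ℝ) / Real.log x = 4 * (1 / Real.log x) := by ring
  have h10 : (3 : ℝ) / Real.log x = 3 * (1 / Real.log x) := by ring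
  have h11 : (2 : ℝ) / Real.log x = 2 * (1 / Real.log x) := by ring
  have h12 := le_abs_self K₁
  have h13 := neg_abs_le K₂
  have h14 := abs_nonneg K₁
  have h15 := abs_nonneg K₂
  rw [abs_le]
  constructor
  · linarith
  · linarith

theorem two_le_L (t : ℕ) : 2 ≤ L t := by
  unfold L
  apply Nat.le_floor
  have h1 : (1 : ℝ) ≤ Real.exp t := Real.one_le_exp (by positivity)
  have h2 := Real.exp_one_gt_d9
  have h3 : Real.exp 1 ≤ Real.exp (Real.exp t) := Real.exp_le_exp.2 h1
  push_cast
  linarith

theorem loglog_L (t : ℕ) : |Real.log (Real.log (L t)) - t| ≤ 2 := by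
  have h2 := two_le_L t
  have hL2 : (2 : ℝ) ≤ L t := by exact_mod_cast h2
  have hle : (L t : ℝ) ≤ Real.exp (Real.exp t) := Nat.floor_le (Real.exp_pos _).le
  have hge : Real.exp (Real.exp t) < L t + 1 := Nat.lt_floor_add_one _
  have h1 : (1 : ℝ) ≤ Real.exp t := Real.one_le_exp (by positivity)
  have hlog_pos : 0 < Real.log (L t) := Real.log_pos (by linarith)
  have hup : Real.log (L t) ≤ Real.exp t := by
    have := Real.log_le_log (by linarith) hle
    rwa [Real.log_exp] at this
  have hup2 : Real.log (Real.log (L t)) ≤ t := by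
    have := Real.log_le_log hlog_pos hup
    rwa [Real.log_exp] at this
  have hlo : Real.exp t ≤ Real.log (L t) + Real.log 2 := by
    rw [← Real.log_mul (by linarith) (by norm_num)]
    have h3 : Real.exp (Real.exp t) ≤ L t * 2 := by linarith
    have := Real.log_le_log (Real.exp_pos _) h3
    rwa [Real.log_exp] at this
  have hl2 := Real.log_two_lt_d9
  have hlo2 : Real.exp t * (3 / 10) ≤ Real.log (L t) := by
    have : Real.exp t * (3 / 10) ≤ Real.exp t - 7 / 10 := by linarith
    linarith
  have hlo3 : (t : ℝ) + Real.log (3 / 10) ≤ Real.log (Real.log (L t)) := by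
    have := Real.log_le_log (by positivity) hlo2
    rwa [Real.log_mul (Real.exp_pos _).ne' (by norm_num), Real.log_exp] at this
  have h310 : -2 ≤ Real.log (3 / 10) := by
    rw [Real.le_log_iff_exp_le (by norm_num), Real.exp_neg, inv_le_comm₀ (Real.exp_pos _) (by norm_num)]
    have := Real.exp_one_gt_d9
    have h5 : Real.exp 2 = Real.exp 1 * Real.exp 1 := by rw [← Real.exp_add]; norm_num
    rw [h5]
    nlinarith
  rw [abs_le]
  constructor <;> linarith

/-- [M2] the same at the points `L t`. -/
theorem mertens_L : ∃ C : ℝ, 0 < C ∧ ∀ t : ℕ,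
    |∑ p ∈ Nat.primesLE (L t), (1 : ℝ) / p - t| ≤ C := by
  obtain ⟨C, hC, h⟩ := mertens
  refine ⟨C + 2, by linarith, ?_⟩
  intro t
  have h1 := h (L t) (two_le_L t)
  have h2 := loglog_L t
  rw [abs_le] at h1 h2 ⊢
  constructor <;> linarith [h1.1, h1.2, h2.1, h2.2]

end Pool.Agent.Lib.helper94.ANT
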