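import Pool.Agent.Lib.helper94.ANT.Defs

set_option autoImplicit false

namespace Pool.Agent.Lib.helper94.ANT

open Finset

theorem final_tele (a b : ℕ) (ha : 1 ≤ a) (hab : a ≤ b) :
    ∑ N ∈ Ico a b, (1 : ℝ) / (N * (N + 1)) = 1 / a - 1 / b := by
  induction b, hab using Nat.le_induction with
  | base => simp
  | succ n hn ih =>
    rw [Finset.sum_Ico_succ_top hn, ih]
    have h1 : (n : ℝ) ≠ 0 := by
      have : 0 < n := by omega
      positivity
    have h2 : (n : ℝ) + 1 ≠ 0 := by positivity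
    push_cast
    field_simp
    ring

theorem final_harm (X : ℕ) (hX : 1 ≤ X) :
    ∑ N ∈ Icc 1 X, (1 : ℝ) / (N + 1) ≤ Real.log X + Real.log 2 := by
  have key : ∀ X : ℕ, ∑ N ∈ Icc 1 X, (1 : ℝ) / (N + 1) ≤ Real.log (X + 1) := by
    intro X
    induction X with
    | zero => simp
    | succ n ih =>
      rw [Finset.sum_Icc_succ_top (by omega)]
      have h1 : (0 : ℝ) < (n : ℝ) + 1 := by positivity
      have h2 : (0 : ℝ) < (n : ℝ) + 1 + 1 := by positivity
      have h3 : Real.log ((n + 1 : ℝ) + 1) - Real.log (n + 1 : ℝ) ≥ 1 / ((n : ℝ) + 1 + 1) := by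
        rw [ge_iff_le, ← Real.log_div h2.ne' h1.ne']
        have := Real.one_sub_inv_le_log_of_pos (x := ((n : ℝ) + 1 + 1) / (n + 1)) (by positivity)
        refine le_trans (le_of_eq ?_) this
        field_simp
        ring
      push_cast
      linarith
  refine (key X).trans ?_
  have hX' : (1 : ℝ) ≤ X := by exact_mod_cast hX
  rw [← Real.log_mul (by positivity) (by norm_num)]
  apply Real.log_le_log (by positivity)
  linarith

open Classical in
/-- exchange of summation -/
theorem final_swap (S : Set ℕ) (K X : ℕ) :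
    ∑ N ∈ Icc 1 X, ((((Ioc (N / K) N).filter (fun x => x ∈ S)).card : ℝ)) / (N * (N + 1)) =
      ∑ x ∈ (Icc 1 X).filter (fun x => x ∈ S),
        ∑ N ∈ (Icc 1 X).filter (fun N => N / K < x ∧ x ≤ N), (1 : ℝ) / (N * (N + 1)) := by
  have h1 : ∀ N ∈ Icc 1 X,
      ((((Ioc (N / K) N).filter (fun x => x ∈ S)).card : ℝ)) / (N * (N + 1)) =
      ∑ x ∈ (Icc 1 X).filter (fun x => x ∈ S),
        if N / K < x ∧ x ≤ N then (1 : ℝ) / (N * (N + 1)) else 0 := by
    intro N hN
    rw [Finset.mem_Icc] at hN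
    rw [← Finset.sum_filter, Finset.sum_const, nsmul_eq_mul, mul_one_div]
    congr 2
    congr 1
    ext x
    simp only [Finset.mem_filter, Finset.mem_Ioc, Finset.mem_Icc]
    constructor
    · rintro ⟨⟨a, b⟩, c⟩
      exact ⟨⟨⟨Nat.lt_of_le_of_lt (Nat.zero_le _) a, by omega⟩, c⟩, a, b⟩
    · rintro ⟨⟨_, c⟩, a, b⟩
      exact ⟨⟨a, b⟩, c⟩
  rw [Finset.sum_congr rfl h1, Finset.sum_comm]
  refine Finset.sum_congr rfl (fun x _ => ?_)
  rw [Finset.sum_filter]

theorem final_inner_le (K X x : ℕ) (hK : 1 ≤ K) (hx : 1 ≤ x) :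
    ∑ N ∈ (Icc 1 X).filter (fun N => N / K < x ∧ x ≤ N), (1 : ℝ) / (N * (N + 1)) ≤ 1 / x := by
  have hsub : (Icc 1 X).filter (fun N => N / K < x ∧ x ≤ N) ⊆ Ico x (x * K) := by
    intro N hN
    simp only [Finset.mem_filter, Finset.mem_Icc, Finset.mem_Ico] at hN ⊢
    exact ⟨hN.2.2, (Nat.div_lt_iff_lt_mul (by omega)).1 hN.2.1⟩
  refine (Finset.sum_le_sum_of_subset_of_nonneg hsub (fun N _ _ => by positivity)).trans ?_
  rw [final_tele x (x * K) hx (Nat.le_mul_of_pos_right _ (by omega))]
  have : (0 : ℝ) ≤ 1 / ((x * K : ℕ) : ℝ) := by positivity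
  linarith

theorem final_inner_eq (K X x : ℕ) (hK : 1 ≤ K) (hx : 1 ≤ x) (hX : x * K ≤ X + 1) :
    ∑ N ∈ (Icc 1 X).filter (fun N => N / K < x ∧ x ≤ N), (1 : ℝ) / (N * (N + 1)) =
      (1 - 1 / K) * (1 / x) := by
  have hset : (Icc 1 X).filter (fun N => N / K < x ∧ x ≤ N) = Ico x (x * K) := by
    ext N
    simp only [Finset.mem_filter, Finset.mem_Icc, Finset.mem_Ico]
    rw [Nat.div_lt_iff_lt_mul (by omega)]
    constructor
    · rintro ⟨_, a, b⟩; exact ⟨b, a⟩
    · rintro ⟨a, b⟩; exact ⟨⟨by omega, by omega⟩, b, a⟩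
  rw [hset, final_tele x (x * K) hx (Nat.le_mul_of_pos_right _ (by omega))]
  have h1 : (x : ℝ) ≠ 0 := by
    have : 0 < x := by omega
    positivity
  have h2 : (K : ℝ) ≠ 0 := by
    have : 0 < K := by omega
    positivity
  push_cast
  field_simp

open Classical in
/-- [F] from logarithmic densities to a good `N`. -/
theorem final_step (A B : Set ℕ) (K : ℕ) (hK : 2 ≤ K) (α β D ε : ℝ) (hε : 0 < ε)
    (hA : ∀ X : ℕ, 2 ≤ X → α * Real.log X - D ≤
      ∑ x ∈ (Icc 1 X).filter (fun x => x ∈ A), (1 : ℝ) / x)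
    (hB : ∀ X : ℕ, 2 ≤ X →
      ∑ x ∈ (Icc 1 X).filter (fun x => x ∈ B), (1 : ℝ) / x ≤ β * Real.log X + D)
    (h : β + 1 / (2 * K) + ε < (1 - 1 / K) * α) :
    ∀ M : ℕ, ∃ N ≥ M, (ε + 1 / (2 * K)) * N + 2 ≤
      (((Ioc (N / K) N).filter (fun x => x ∈ A)).card : ℝ) -
        ((Ioc (N / K) N).filter (fun x => x ∈ B)).card := by
  intro M
  by_contra hcon
  push Not at hcon
  have hK0 : (0 : ℝ) < K := by
    have : 0 < K := by omega
    positivity
  have hK1 : (1 : ℝ) ≤ K := by exact_mod_cast (by omega : 1 ≤ K)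
  have h1K : (0 : ℝ) ≤ 1 - 1 / K := by
    rw [sub_nonneg, div_le_one hK0]
    exact hK1
  have h1K' : (1 : ℝ) - 1 / K ≤ 1 := by
    have : (0 : ℝ) ≤ 1 / K := by positivity
    linarith
  set cA : ℕ → ℝ := fun N => (((Ioc (N / K) N).filter (fun x => x ∈ A)).card : ℝ) with hcA
  set cB : ℕ → ℝ := fun N => (((Ioc (N / K) N).filter (fun x => x ∈ B)).card : ℝ) with hcB
  set κ : ℝ := ε + 1 / (2 * K) with hκ
  have hκ0 : 0 < κ := by positivity
  -- the constant from small `N`
  set c0 : ℝ := ∑ N ∈ Icc 1 M, |cA N - cB N| / (N * (N + 1)) with hc0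
  have hc00 : 0 ≤ c0 := Finset.sum_nonneg (fun N _ => by positivity)
  set η : ℝ := (1 - 1 / K) * α - β - κ with hη
  have hη0 : 0 < η := by rw [hη, hκ]; linarith
  -- the main inequality
  have main : ∀ Y : ℕ, 2 ≤ Y → η * Real.log Y ≤
      c0 + κ * (Real.log K + Real.log 2) + 2 + (1 - 1 / K) * D + β * Real.log K + D := by
    intro Y hY
    set X : ℕ := K * Y with hX
    have hX1 : 2 ≤ X := by rw [hX]; nlinarith
    have hlogX : Real.log (X : ℝ) = Real.log K + Real.log Y := by
      rw [hX]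
      push_cast
      rw [Real.log_mul hK0.ne']
      have : 0 < Y := by omega
      positivity
    -- lower bound for the A part
    have lowA : (1 - 1 / K) * (α * Real.log Y - D) ≤ ∑ N ∈ Icc 1 X, cA N / (N * (N + 1)) := by
      rw [hcA]
      simp only
      rw [final_swap A K X]
      have hsub : (Icc 1 Y).filter (fun x => x ∈ A) ⊆ (Icc 1 X).filter (fun x => x ∈ A) := by
        intro x hx
        simp only [Finset.mem_filter, Finset.mem_Icc] at hx ⊢
        refine ⟨⟨hx.1.1, hx.1.2.trans ?_⟩, hx.2⟩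
        rw [hX]; nlinarith
      refine le_trans ?_ (Finset.sum_le_sum_of_subset_of_nonneg hsub
        (fun x _ _ => Finset.sum_nonneg (fun N _ => by positivity)))
      have : ∀ x ∈ (Icc 1 Y).filter (fun x => x ∈ A),
          ∑ N ∈ (Icc 1 X).filter (fun N => N / K < x ∧ x ≤ N), (1 : ℝ) / (N * (N + 1)) =
            (1 - 1 / K) * (1 / x) := by
        intro x hx
        simp only [Finset.mem_filter, Finset.mem_Icc] at hx
        refine final_inner_eq K X x (by omega) hx.1.1 ?_
        rw [hX]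
        have := Nat.mul_le_mul_right K hx.1.2
        rw [mul_comm K Y]
        omega
      rw [Finset.sum_congr rfl this, ← Finset.mul_sum]
      exact mul_le_mul_of_nonneg_left (hA Y hY) h1K
    -- upper bound for the B part
    have upB : ∑ N ∈ Icc 1 X, cB N / (N * (N + 1)) ≤ β * Real.log X + D := by
      rw [hcB]
      simp only
      rw [final_swap B K X]
      refine le_trans (Finset.sum_le_sum ?_) (hB X hX1)
      intro x hx
      simp only [Finset.mem_filter, Finset.mem_Icc] at hx
      exact final_inner_le K X x (by omega) hx.1.1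
    -- upper bound for the difference
    have updiff : ∑ N ∈ Icc 1 X, (cA N - cB N) / (N * (N + 1)) ≤
        c0 + (κ * (Real.log X + Real.log 2) + 2) := by
      have hterm : ∀ N ∈ Icc 1 X, (cA N - cB N) / (N * (N + 1)) ≤
          (if N ≤ M then |cA N - cB N| / (N * (N + 1)) else 0) +
            (κ * (1 / (N + 1)) + 2 * (1 / (N * (N + 1)))) := by
        intro N hN
        rw [Finset.mem_Icc] at hN
        have hN0 : (0 : ℝ) < N := by
          have : 0 < N := by omega
          positivity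
        have hpos : (0 : ℝ) ≤ κ * (1 / (N + 1)) + 2 * (1 / (N * (N + 1))) := by positivity
        by_cases hNM : N ≤ M
        · rw [if_pos hNM]
          have : (cA N - cB N) / (N * (N + 1)) ≤ |cA N - cB N| / (N * (N + 1)) :=
            div_le_div_of_nonneg_right (le_abs_self _) (by positivity)
          linarith
        · rw [if_neg hNM, zero_add]
          have h2 := hcon N (by omega)
          have e : κ * (1 / ((N : ℝ) + 1)) + 2 * (1 / (N * (N + 1))) =
              (κ * N + 2) / (N * (N + 1)) := by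
            field_simp
          rw [e]
          exact div_le_div_of_nonneg_right h2.le (by positivity)
      refine (Finset.sum_le_sum hterm).trans ?_
      rw [Finset.sum_add_distrib, Finset.sum_add_distrib, ← Finset.mul_sum, ← Finset.mul_sum]
      have t1 : ∑ N ∈ Icc 1 X, (if N ≤ M then |cA N - cB N| / (N * ((N : ℝ) + 1)) else 0) ≤ c0 := by
        rw [← Finset.sum_filter]
        refine Finset.sum_le_sum_of_subset_of_nonneg ?_ (fun N _ _ => by positivity)
        intro N hN
        simp only [Finset.mem_filter, Finset.mem_Icc] at hN ⊢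
        omega
      have t2 := final_harm X (by omega)
      have t3 : ∑ N ∈ Icc 1 X, (1 : ℝ) / (N * (N + 1)) ≤ 1 := by
        have e : Icc 1 X = Ico 1 (X + 1) := by
          ext N; simp only [Finset.mem_Icc, Finset.mem_Ico]; omega
        rw [e, final_tele 1 (X + 1) le_rfl (by omega)]
        have : (0 : ℝ) ≤ 1 / ((X + 1 : ℕ) : ℝ) := by positivity
        simp only [Nat.cast_one, div_one]
        linarith
      have t2' := mul_le_mul_of_nonneg_left t2 hκ0.le
      linarith
    have hsplit : ∑ N ∈ Icc 1 X, (cA N - cB N) / (N * (N + 1)) =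
        ∑ N ∈ Icc 1 X, cA N / (N * (N + 1)) - ∑ N ∈ Icc 1 X, cB N / (N * (N + 1)) := by
      rw [← Finset.sum_sub_distrib]
      exact Finset.sum_congr rfl (fun N _ => sub_div _ _ _)
    rw [hsplit] at updiff
    rw [hlogX] at updiff upB
    rw [hη]
    nlinarith [lowA, updiff, upB]
  -- contradiction
  have hlim := Real.tendsto_log_atTop.comp tendsto_natCast_atTop_atTop
  set c1 : ℝ := c0 + κ * (Real.log K + Real.log 2) + 2 + (1 - 1 / K) * D + β * Real.log K + D
    with hc1
  obtain ⟨Y, hY2, hY⟩ := ((Filter.eventually_ge_atTop 2).and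
    (hlim.eventually_gt_atTop (c1 / η))).exists
  have h1 := main Y hY2
  have h2 : c1 < η * Real.log Y := by
    have := (div_lt_iff₀ hη0).1 hY
    simp only [Function.comp] at this
    linarith
  linarith

end Pool.Agent.Lib.helper94.ANT
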