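import Pool.Agent.Lib.helper94.ANT.Mertens

/-!
Bounds for logarithmic sums of completely multiplicative functions (MP_923662_nt).
-/

namespace Pool.Agent.Lib.helper94.ANT

open Finset

/-- `(1 - u)⁻¹ ≤ exp (u + 3 u²)` for `0 ≤ u ≤ 5/8`. -/
theorem inv_one_sub_le_exp {u : ℝ} (h0 : 0 ≤ u) (h1 : u ≤ 5 / 8) :
    (1 - u)⁻¹ ≤ Real.exp (u + 3 * u ^ 2) := by
  have hpos : 0 < 1 - u := by linarith
  have h2 : 1 ≤ (1 - u) * (1 + u + 3 * u ^ 2) := by
    nlinarith [sq_nonneg u, mul_nonneg (sq_nonneg u) (by linarith : (0 : ℝ) ≤ 5 / 8 - u)]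
  have h3 : 1 + u + 3 * u ^ 2 ≤ Real.exp (u + 3 * u ^ 2) := by
    have := Real.add_one_le_exp (u + 3 * u ^ 2)
    linarith
  calc (1 - u)⁻¹ = (1 - u)⁻¹ * 1 := by ring
    _ ≤ (1 - u)⁻¹ * ((1 - u) * (1 + u + 3 * u ^ 2)) := by gcongr
    _ = 1 + u + 3 * u ^ 2 := by field_simp
    _ ≤ _ := h3

/-- `∑ 1/p² ≤ 2` -/
theorem sum_inv_sq_le (z : ℕ) : ∑ p ∈ Nat.primesLE z, ((p : ℝ) ^ 2)⁻¹ ≤ 2 := by
  have h := sum_Ioo_inv_sq_le (α := ℝ) 0 (z + 1)
  have h2 : (2 : ℝ) / ((0 : ℕ) + 1) = 2 := by norm_num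
  rw [h2] at h
  refine le_trans (Finset.sum_le_sum_of_subset_of_nonneg ?_ ?_) h
  · intro p hp
    rw [Nat.primesLE, Nat.mem_primesBelow] at hp
    rw [Finset.mem_Ioo]
    exact ⟨hp.2.pos, hp.1⟩
  · intro i _ _
    positivity

/-- Euler product bound for weights in `[0, 5/4]`. -/
theorem prod_le_exp (w : ℕ → ℝ) (hw : ∀ p, 0 ≤ w p ∧ w p ≤ 5 / 4) (z : ℕ) :
    ∏ p ∈ Nat.primesLE z, (1 - w p / p)⁻¹ ≤ Real.exp (∑ p ∈ Nat.primesLE z, w p / p + 10) := by
  have hp2 : ∀ p ∈ Nat.primesLE z, (2 : ℝ) ≤ p := by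
    intro p hp
    rw [Nat.primesLE, Nat.mem_primesBelow] at hp
    exact_mod_cast hp.2.two_le
  have hu : ∀ p ∈ Nat.primesLE z, 0 ≤ w p / p ∧ w p / p ≤ 5 / 8 := by
    intro p hp
    have := hp2 p hp
    refine ⟨div_nonneg (hw p).1 (by linarith), ?_⟩
    rw [div_le_iff₀ (by linarith)]
    nlinarith [(hw p).2]
  calc ∏ p ∈ Nat.primesLE z, (1 - w p / p)⁻¹
      ≤ ∏ p ∈ Nat.primesLE z, Real.exp (w p / p + 5 * ((p : ℝ) ^ 2)⁻¹) := by
        refine Finset.prod_le_prod ?_ ?_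
        · intro p hp
          have := (hu p hp).2
          exact inv_nonneg.2 (by linarith)
        · intro p hp
          refine (inv_one_sub_le_exp (hu p hp).1 (hu p hp).2).trans ?_
          rw [Real.exp_le_exp]
          have h2 := hp2 p hp
          have h3 : 3 * (w p / p) ^ 2 = 3 * (w p) ^ 2 * ((p : ℝ) ^ 2)⁻¹ := by
            rw [div_pow]; ring
          have h4 : 3 * (w p) ^ 2 ≤ 5 := by nlinarith [(hw p).1, (hw p).2]
          have h5 : (0 : ℝ) ≤ ((p : ℝ) ^ 2)⁻¹ := by positivity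
          rw [h3]
          nlinarith
    _ = Real.exp (∑ p ∈ Nat.primesLE z, w p / p + 5 * ∑ p ∈ Nat.primesLE z, ((p : ℝ) ^ 2)⁻¹) := by
        rw [← Real.exp_sum, Finset.sum_add_distrib, Finset.mul_sum]
    _ ≤ _ := by
        rw [Real.exp_le_exp]
        have := sum_inv_sq_le z
        linarith

/-- A logarithmic sum over a finite set of smooth numbers is at most the Euler product. -/
theorem sum_smooth_le (w : ℕ → ℝ) (hw : ∀ p, 0 ≤ w p ∧ w p ≤ 5 / 4) (z : ℕ) (s : Finset ℕ)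
    (hs : ∀ n ∈ s, n ∈ Nat.smoothNumbers (z + 1)) :
    ∑ k ∈ s, cm w k / k ≤ Real.exp (∑ p ∈ Nat.primesLE z, w p / p + 10) := by
  classical
  let f : ℕ →* ℝ :=
    { toFun := fun n => cm w n / n
      map_one' := by simp [cm_one]
      map_mul' := by
        intro a b
        rcases eq_or_ne a 0 with rfl | ha
        · simp
        rcases eq_or_ne b 0 with rfl | hb
        · simp
        rw [cm_mul w ha hb]
        push_cast
        rw [mul_div_mul_comm] }
  have hf : ∀ n, f n = cm w n / n := fun _ => rfl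
  have hnn : ∀ n, 0 ≤ f n := fun n => by
    rw [hf]; exact div_nonneg (cm_nonneg (fun p => (hw p).1) n) (Nat.cast_nonneg n)
  have hlt : ∀ {p : ℕ}, p.Prime → ‖f p‖ < 1 := by
    intro p hp
    have h2 : (2 : ℝ) ≤ p := by exact_mod_cast hp.two_le
    rw [Real.norm_of_nonneg (hnn p), hf, cm_prime w hp, div_lt_one (by linarith)]
    linarith [(hw p).2]
  obtain ⟨hsum, hhas⟩ :=
    EulerProduct.summable_and_hasSum_smoothNumbers_prod_primesBelow_geometric hlt (z + 1)
  have hprod : ∏ p ∈ (z + 1).primesBelow, (1 - f p)⁻¹ = ∏ p ∈ Nat.primesLE z, (1 - w p / p)⁻¹ := by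
    refine Finset.prod_congr rfl ?_
    intro p hp
    rw [Nat.primesLE, Nat.mem_primesBelow] at hp
    rw [hf, cm_prime w hp.2]
  have hle : ∑ k ∈ s, cm w k / k ≤ ∏ p ∈ (z + 1).primesBelow, (1 - f p)⁻¹ := by
    have h1 : ∑ k ∈ s, cm w k / k = ∑ m ∈ s.subtype (· ∈ Nat.smoothNumbers (z + 1)), f m := by
      rw [Finset.sum_subtype_of_mem (fun n => f n) hs]
      rfl
    rw [h1]
    exact sum_le_hasSum _ (fun m _ => hnn m) hhas
  rw [hprod] at hle
  exact hle.trans (prod_le_exp w hw z)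

theorem logsum_le : ∃ C : ℝ, 0 < C ∧ ∀ w : ℕ → ℝ, (∀ p, 0 ≤ w p ∧ w p ≤ 5 / 4) →
    ∀ X : ℕ, 2 ≤ X → ∑ k ∈ Icc 1 X, cm w k / k ≤
      C * Real.log X * Real.exp (-∑ p ∈ Nat.primesLE X, (1 - w p) / p) := by
  obtain ⟨C, hC, hM⟩ := mertens
  refine ⟨Real.exp (C + 10), Real.exp_pos _, ?_⟩
  intro w hw X hX
  have h1 := sum_smooth_le w hw X (Icc 1 X) (by
    intro n hn
    rw [Finset.mem_Icc] at hn
    exact Nat.mem_smoothNumbers_of_lt hn.1 (by omega))
  refine h1.trans ?_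
  have hlog : 0 < Real.log X := Real.log_pos (by exact_mod_cast hX)
  have h2 := (abs_le.1 (hM X hX)).2
  have h3 : ∑ p ∈ Nat.primesLE X, (1 - w p) / p =
      ∑ p ∈ Nat.primesLE X, (1 : ℝ) / p - ∑ p ∈ Nat.primesLE X, w p / p := by
    rw [← Finset.sum_sub_distrib]
    exact Finset.sum_congr rfl fun p _ => by ring
  have h4 : Real.log X = Real.exp (Real.log (Real.log X)) := (Real.exp_log hlog).symm
  rw [h4, ← Real.exp_add, ← Real.exp_add, Real.exp_le_exp, h3]
  linarith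

open Classical in
theorem rough_ge : ∃ c : ℝ, 0 < c ∧ ∀ z Y : ℕ,
    c * Real.log (Y + 1) * Real.exp (-∑ p ∈ Nat.primesLE z, (1 : ℝ) / p) ≤
      ∑ u ∈ Icc 1 Y with Rough z u, (1 : ℝ) / u := by
  refine ⟨Real.exp (-10), Real.exp_pos _, ?_⟩
  intro z Y
  -- smooth and rough parts
  let a : ℕ → ℕ := fun n => (n.primeFactorsList.filter (fun p => decide (p ≤ z))).prod
  let r : ℕ → ℕ := fun n => (n.primeFactorsList.filter (fun p => !decide (p ≤ z))).prod
  have har : ∀ n, n ≠ 0 → a n * r n = n := by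
    intro n hn
    have h1 : a n * r n = (n.primeFactorsList.filter (fun p => decide (p ≤ z)) ++
        n.primeFactorsList.filter (fun p => !decide (p ≤ z))).prod := by
      rw [List.prod_append]
    rw [h1, (List.filter_append_perm (fun p => decide (p ≤ z)) n.primeFactorsList).prod_eq,
      Nat.prod_primeFactorsList hn]
  have hr : ∀ n, Rough z (r n) := by
    intro n p hp hpd
    have hmem := mem_list_primes_of_dvd_prod hp.prime (L := n.primeFactorsList.filter (fun p => !decide (p ≤ z)))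
      (fun q hq => (Nat.prime_of_mem_primeFactorsList (List.mem_of_mem_filter hq)).prime) hpd
    have := (List.mem_filter.1 hmem).2
    simpa using this
  have ha : ∀ n, a n ∈ Nat.smoothNumbers (z + 1) := by
    intro n
    rw [Nat.mem_smoothNumbers']
    intro p hp hpd
    have hmem := mem_list_primes_of_dvd_prod hp.prime (L := n.primeFactorsList.filter (fun p => decide (p ≤ z)))
      (fun q hq => (Nat.prime_of_mem_primeFactorsList (List.mem_of_mem_filter hq)).prime) hpd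
    have := (List.mem_filter.1 hmem).2
    have h2 : p ≤ z := by simpa using this
    omega
  -- harmonic sum
  have hharm : Real.log (Y + 1) ≤ ∑ n ∈ Icc 1 Y, (1 : ℝ) / n := by
    have h1 := log_add_one_le_harmonic Y
    rw [harmonic_eq_sum_Icc] at h1
    push_cast at h1
    simpa [one_div] using h1
  have hsm := sum_smooth_le (fun _ => 1) (fun _ => ⟨by norm_num, by norm_num⟩) z
    ((Icc 1 Y).image a) (by
      intro n hn
      obtain ⟨m, -, rfl⟩ := Finset.mem_image.1 hn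
      exact ha m)
  have hcm1 : ∀ n, cm (fun _ => 1) n = 1 := by
    intro n; simp [cm]
  simp only [hcm1] at hsm
  -- compare
  have hinj : ∑ n ∈ Icc 1 Y, (1 : ℝ) / n ≤
      ∑ q ∈ ((Icc 1 Y).image a) ×ˢ ((Icc 1 Y).filter (fun u => Rough z u)),
        ((1 : ℝ) / q.1) * (1 / q.2) := by
    have h1 : ∑ n ∈ Icc 1 Y, (1 : ℝ) / n =
        ∑ q ∈ (Icc 1 Y).image (fun n => (a n, r n)), ((1 : ℝ) / q.1) * (1 / q.2) := by
      rw [Finset.sum_image]
      · refine Finset.sum_congr rfl fun n hn => ?_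
        rw [Finset.mem_Icc] at hn
        have := har n (by omega)
        conv_lhs => rw [← this]
        push_cast
        rw [one_div_mul_one_div]
      · intro x hx y hy hxy
        simp only [Finset.coe_Icc, Set.mem_Icc] at hx hy
        have e1 := har x (by omega)
        have e2 := har y (by omega)
        simp only [Prod.mk.injEq] at hxy
        rw [← e1, ← e2, hxy.1, hxy.2]
    rw [h1]
    refine Finset.sum_le_sum_of_subset_of_nonneg ?_ ?_
    · intro q hq
      obtain ⟨n, hn, rfl⟩ := Finset.mem_image.1 hq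
      rw [Finset.mem_product, Finset.mem_filter]
      refine ⟨Finset.mem_image_of_mem _ hn, ?_, hr n⟩
      rw [Finset.mem_Icc] at hn ⊢
      have e := har n (by omega)
      have hne : r n ≠ 0 := by
        intro h0
        rw [h0, mul_zero] at e
        omega
      have hdvd : r n ∣ n := ⟨a n, by rw [mul_comm]; exact e.symm⟩
      exact ⟨Nat.one_le_iff_ne_zero.2 hne, (Nat.le_of_dvd (by omega) hdvd).trans hn.2⟩
    · intro q _ _
      positivity
  rw [Finset.sum_product] at hinj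
  simp only at hinj
  rw [← Finset.sum_mul_sum] at hinj
  have hS : 0 ≤ ∑ u ∈ Icc 1 Y with Rough z u, (1 : ℝ) / u := Finset.sum_nonneg fun _ _ => by positivity
  have hall : Real.log (Y + 1) ≤ Real.exp (∑ p ∈ Nat.primesLE z, (1 : ℝ) / p + 10) *
      ∑ u ∈ Icc 1 Y with Rough z u, (1 : ℝ) / u :=
    (hharm.trans hinj).trans (mul_le_mul_of_nonneg_right hsm hS)
  calc Real.exp (-10) * Real.log (Y + 1) * Real.exp (-∑ p ∈ Nat.primesLE z, (1 : ℝ) / p)
      = Real.exp (-(∑ p ∈ Nat.primesLE z, (1 : ℝ) / p + 10)) * Real.log (Y + 1) := by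
        rw [neg_add, Real.exp_add]; ring
    _ ≤ Real.exp (-(∑ p ∈ Nat.primesLE z, (1 : ℝ) / p + 10)) *
        (Real.exp (∑ p ∈ Nat.primesLE z, (1 : ℝ) / p + 10) *
          ∑ u ∈ Icc 1 Y with Rough z u, (1 : ℝ) / u) := by gcongr
    _ = _ := by
        rw [← mul_assoc, ← Real.exp_add]
        simp

end Pool.Agent.Lib.helper94.ANT
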