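import Pool.Agent.Lib.helper94.ANT.LowerA
import Pool.Agent.Lib.helper94.ANT.LogSum

/-!
Lower bound for the logarithmic density of `E`.
-/

namespace Pool.Agent.Lib.helper94.ANT

open Finset

theorem factorial_le (n : ℕ) (hn : 1 ≤ n) :
    (n.factorial : ℝ) ≤ (n : ℝ) ^ (n + 1) * Real.exp (1 - n) := by
  induction n, hn using Nat.le_induction with
  | base => simp
  | succ n hn ih =>
    have hn0 : (0 : ℝ) < n := by exact_mod_cast hn
    rw [Nat.factorial_succ]
    push_cast
    -- `e ≤ (1 + 1/n)^(n+1)`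
    have h1 : Real.exp 1 ≤ ((n + 1 : ℝ) / n) ^ (n + 1) := by
      have h2 : Real.exp (1 / (n + 1 : ℝ)) ≤ (n + 1 : ℝ) / n := by
        have h3 := Real.one_sub_le_exp_neg (1 / (n + 1 : ℝ))
        rw [Real.exp_neg] at h3
        have h4 : (n : ℝ) / (n + 1) ≤ (Real.exp (1 / (n + 1 : ℝ)))⁻¹ := by
          refine le_trans (le_of_eq ?_) h3
          field_simp
          ring
        have h5 := inv_anti₀ (by positivity) h4
        rw [inv_inv, inv_div] at h5
        exact h5
      have h6 := pow_le_pow_left₀ (Real.exp_pos _).le h2 (n + 1)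
      rw [← Real.exp_nat_mul] at h6
      have h7 : ((n + 1 : ℕ) : ℝ) * (1 / (n + 1 : ℝ)) = 1 := by
        push_cast
        field_simp
      rw [h7] at h6
      exact h6
    have h8 : (n : ℝ) ^ (n + 1) * Real.exp 1 ≤ (n + 1 : ℝ) ^ (n + 1) := by
      rw [div_pow] at h1
      rw [le_div_iff₀ (by positivity)] at h1
      linarith
    calc ((n : ℝ) + 1) * (n.factorial : ℝ)
        ≤ (n + 1) * ((n : ℝ) ^ (n + 1) * Real.exp (1 - n)) :=
          mul_le_mul_of_nonneg_left ih (by positivity)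
      _ = (n + 1) * (((n : ℝ) ^ (n + 1) * Real.exp 1) * Real.exp (1 - (n + 1))) := by
          have : Real.exp (1 - (n : ℝ)) = Real.exp 1 * Real.exp (1 - (n + 1)) := by
            rw [← Real.exp_add]
            ring_nf
          rw [this]
          ring
      _ ≤ (n + 1) * ((n + 1 : ℝ) ^ (n + 1) * Real.exp (1 - (n + 1))) := by
          gcongr
      _ = _ := by ring

/-- lower bound for `hA` -/
theorem hA_lower : ∃ c : ℝ, 0 < c ∧ ∃ v₀ : ℕ, ∀ v : ℕ, v₀ ≤ v →
    c * Real.exp (-(6.15 * v)) / (v + 1) ≤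
      hA (L (4 * v)) (L (64 * v)) (45 * v) * Real.exp (-S (L (64 * v))) := by
  obtain ⟨C₁, hC₁, hM⟩ := mertens_L
  obtain ⟨N, hN⟩ := exists_nat_gt C₁
  refine ⟨Real.exp (-(4 * C₁ + 1)) / 45, by positivity, N + 1, ?_⟩
  intro v hv
  have hv1 : 1 ≤ v := by omega
  have hvR : (1 : ℝ) ≤ v := by exact_mod_cast hv1
  have hvC : C₁ ≤ v := by
    have : (N : ℝ) + 1 ≤ v := by exact_mod_cast hv
    linarith
  have h4 := abs_le.1 (hM (4 * v))
  have h64 := abs_le.1 (hM (64 * v))
  have hSP : S (L (4 * v)) ≤ 4 * v + C₁ := by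
    unfold S
    push_cast at h4
    linarith
  have hSM1 : 64 * v - C₁ ≤ S (L (64 * v)) := by
    unfold S
    push_cast at h64
    linarith
  have hSM2 : S (L (64 * v)) ≤ 64 * v + C₁ := by
    unfold S
    push_cast at h64
    linarith
  have hPM : L (4 * v) ≤ L (64 * v) := L_mono (by omega)
  have h1 := hA_ge hPM (45 * v)
  -- the power
  have h2 : (60 * (v : ℝ) - 2 * C₁) ^ (45 * v) ≤ (S (L (64 * v)) - S (L (4 * v))) ^ (45 * v) := by
    apply pow_le_pow_left₀
    · linarith
    · linarith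
  have h3 : Real.exp (-(3 * C₁)) * (60 * (v : ℝ)) ^ (45 * v) ≤
      (60 * (v : ℝ) - 2 * C₁) ^ (45 * v) := by
    have h5 : Real.exp (-(C₁ / (15 * v))) ≤ 1 - C₁ / (30 * v) := by
      rw [Real.exp_neg]
      have h6 : 1 + C₁ / (15 * v) ≤ Real.exp (C₁ / (15 * v)) := by
        have := Real.add_one_le_exp (C₁ / (15 * (v : ℝ)))
        linarith
      have h7 : 0 < C₁ / (15 * (v : ℝ)) := by positivity
      have h8 : C₁ / (30 * (v : ℝ)) = C₁ / (15 * v) / 2 := by
        field_simp
        ring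
      have h9 : C₁ / (15 * (v : ℝ)) ≤ 1 := by
        rw [div_le_one (by positivity)]
        linarith
      rw [h8, inv_le_comm₀ (Real.exp_pos _) (by linarith)]
      refine le_trans ?_ h6
      rw [inv_le_comm₀ (by linarith) (by linarith), inv_eq_one_div, div_le_iff₀ (by linarith)]
      nlinarith
    have h10 : Real.exp (-(3 * C₁)) = Real.exp (-(C₁ / (15 * v))) ^ (45 * v) := by
      rw [← Real.exp_nat_mul]
      congr 1
      push_cast
      field_simp
      ring
    rw [h10, ← mul_pow]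
    apply pow_le_pow_left₀ (by positivity)
    calc Real.exp (-(C₁ / (15 * v))) * (60 * (v : ℝ)) ≤ (1 - C₁ / (30 * v)) * (60 * v) :=
          mul_le_mul_of_nonneg_right h5 (by positivity)
      _ = 60 * v - 2 * C₁ := by
          field_simp
          ring
  have h5 := factorial_le (45 * v) (by omega)
  push_cast at h5
  -- combine: `(60 v)^(45 v) / (45 v)! ≥ (4/3)^(45 v) e^(45 v - 1) / (45 v)`
  have h6 : (4 / 3 : ℝ) ^ (45 * v) * Real.exp (45 * v - 1) / (45 * v) * ((45 * v).factorial : ℝ) ≤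
      (60 * (v : ℝ)) ^ (45 * v) := by
    calc (4 / 3 : ℝ) ^ (45 * v) * Real.exp (45 * v - 1) / (45 * v) * ((45 * v).factorial : ℝ)
        ≤ (4 / 3 : ℝ) ^ (45 * v) * Real.exp (45 * v - 1) / (45 * v) *
          ((45 * (v : ℝ)) ^ (45 * v + 1) * Real.exp (1 - 45 * v)) :=
          mul_le_mul_of_nonneg_left h5 (by positivity)
      _ = ((4 / 3 : ℝ) ^ (45 * v) * (45 * (v : ℝ)) ^ (45 * v)) *
          (Real.exp (45 * v - 1) * Real.exp (1 - 45 * v)) := by
          rw [pow_succ]
          field_simp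
      _ = (60 * (v : ℝ)) ^ (45 * v) := by
          rw [← Real.exp_add, ← mul_pow]
          have : (45 * (v : ℝ) - 1 + (1 - 45 * v)) = 0 := by ring
          rw [this, Real.exp_zero, mul_one]
          congr 1
          ring
  have h7 : Real.exp (45 * v * (2 / 7)) ≤ (4 / 3 : ℝ) ^ (45 * v) := by
    have h8 : Real.exp (2 / 7) ≤ 4 / 3 := by
      have h9 := Real.le_log_one_add_of_nonneg (x := 1 / 3) (by norm_num)
      rw [← Real.exp_log (show (0 : ℝ) < 4 / 3 by norm_num)]
      apply Real.exp_le_exp.2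
      refine le_trans ?_ (le_trans h9 ?_)
      · norm_num
      · norm_num
    have h10 : Real.exp (45 * v * (2 / 7)) = Real.exp (2 / 7) ^ (45 * v) := by
      rw [← Real.exp_nat_mul]
      push_cast
      rfl
    rw [h10]
    exact pow_le_pow_left₀ (Real.exp_pos _).le h8 _
  have hf : (0 : ℝ) < ((45 * v).factorial : ℝ) := by positivity
  have h8 : Real.exp (-(3 * C₁)) * (Real.exp (45 * v * (2 / 7)) * Real.exp (45 * v - 1) /
      (45 * v)) ≤ hA (L (4 * v)) (L (64 * v)) (45 * v) := by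
    refine le_trans ?_ h1
    rw [le_div_iff₀ hf]
    refine le_trans ?_ (h3.trans h2)
    rw [mul_assoc]
    apply mul_le_mul_of_nonneg_left _ (Real.exp_pos _).le
    refine le_trans ?_ h6
    gcongr
  have h9 : Real.exp (-(64 * v + C₁)) ≤ Real.exp (-S (L (64 * v))) :=
    Real.exp_le_exp.2 (by linarith)
  calc Real.exp (-(4 * C₁ + 1)) / 45 * Real.exp (-(6.15 * v)) / (v + 1)
      ≤ (Real.exp (-(3 * C₁)) * (Real.exp (45 * v * (2 / 7)) * Real.exp (45 * v - 1) /
      (45 * v))) * Real.exp (-(64 * v + C₁)) := by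
        have h10 : Real.exp (-(4 * C₁ + 1)) / 45 * Real.exp (-(6.15 * v)) / (v + 1) ≤
            Real.exp (-(4 * C₁ + 1)) / 45 * Real.exp (-(6.15 * v)) / v := by
          gcongr
          linarith
        refine h10.trans ?_
        have h11 : (Real.exp (-(3 * C₁)) * (Real.exp (45 * v * (2 / 7)) *
            Real.exp (45 * v - 1) / (45 * v))) * Real.exp (-(64 * v + C₁)) =
            (Real.exp (-(3 * C₁)) * Real.exp (45 * v * (2 / 7)) * Real.exp (45 * v - 1) *
              Real.exp (-(64 * v + C₁))) / 45 / v := by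
          field_simp
        have h12 : Real.exp (-(4 * C₁ + 1)) / 45 * Real.exp (-(6.15 * v)) / v =
            (Real.exp (-(4 * C₁ + 1)) * Real.exp (-(6.15 * v))) / 45 / v := by
          field_simp
        rw [h11, h12, ← Real.exp_add, ← Real.exp_add, ← Real.exp_add, ← Real.exp_add]
        apply div_le_div_of_nonneg_right _ (Nat.cast_nonneg v)
        apply div_le_div_of_nonneg_right _ (by norm_num)
        apply Real.exp_le_exp.2
        linarith
    _ ≤ _ := mul_le_mul h8 h9 (Real.exp_pos _).le (hA_nonneg _ _ _)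

/-- weight for the typicality of the large primes -/
noncomputable def wb (M Q : ℕ) (p : ℕ) : ℝ := if p ≤ M then 0 else if p ≤ Q then 51 / 50 else 1

theorem wb_bounds (M Q p : ℕ) : 0 ≤ wb M Q p ∧ wb M Q p ≤ 5 / 4 := by
  unfold wb
  split_ifs <;> norm_num

theorem cm_wb {M Q c : ℕ} (h : Rough M c) : cm (wb M Q) c = (51 / 50 : ℝ) ^ Om M Q c := by
  rw [← cm_range]
  apply cm_congr
  intro p hp hpc
  unfold wb
  have h1 := h p hp hpc
  rw [if_neg (not_le.2 h1)]
  by_cases hQ : p ≤ Q
  · rw [if_pos hQ, if_pos ⟨h1, hQ⟩]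
  · rw [if_neg hQ, if_neg (fun h' => hQ h'.2)]

/-- upper bound for rough numbers with many prime factors in a range -/
theorem wb_sum : ∃ C : ℝ, 0 < C ∧ ∀ v j X : ℕ, L (64 * v) ≤ X →
    ∑ c ∈ Icc 1 X, cm (wb (L (64 * v)) (L (64 * v + j))) c / c ≤
      C * Real.log X * Real.exp (-S (L (64 * v))) * Real.exp (j / 50) := by
  obtain ⟨C₁, hC₁, hM⟩ := mertens_L
  obtain ⟨C₂, hC₂, hlog⟩ := logsum_le
  refine ⟨C₂ * Real.exp (2 * C₁ / 50), by positivity, ?_⟩
  intro v j X hX
  set M := L (64 * v) with hMd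
  set Q := L (64 * v + j) with hQ
  have hMQ : M ≤ Q := L_mono (by omega)
  have hX2 : 2 ≤ X := (two_le_L _).trans hX
  have h1 := hlog (wb M Q) (fun p => wb_bounds M Q p) X hX2
  have h2 : ∑ p ∈ Nat.primesLE X, (1 - wb M Q p) / (p : ℝ) =
      1 * S M + (-(1 / 50)) * (S (min Q X) - S M) := by
    rw [← sum_piecewise (le_min hMQ hX) (min_le_right Q X)]
    apply Finset.sum_congr rfl
    intro p hp
    rw [Nat.mem_primesLE] at hp
    congr 1
    have h3 : p ≤ min Q X ↔ p ≤ Q := by
      rw [le_min_iff]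
      exact ⟨fun h => h.1, fun h => ⟨h, hp.1⟩⟩
    simp only [wb, h3]
    split_ifs <;> norm_num
  rw [h2] at h1
  refine h1.trans ?_
  have h3 : S (min Q X) ≤ S Q := S_mono (min_le_left _ _)
  have hSM := abs_le.1 (hM (64 * v))
  have hSQ := abs_le.1 (hM (64 * v + j))
  have h4 : S Q ≤ 64 * v + j + C₁ := by
    unfold S
    rw [hQ]
    push_cast at hSQ
    linarith
  have h5 : 64 * v - C₁ ≤ S M := by
    unfold S
    rw [hMd]
    push_cast at hSM
    linarith
  have hlogX : 0 ≤ Real.log X := Real.log_natCast_nonneg X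
  calc C₂ * Real.log X * Real.exp (-(1 * S M + (-(1 / 50)) * (S (min Q X) - S M)))
      ≤ C₂ * Real.log X * (Real.exp (2 * C₁ / 50) * Real.exp (-S M) * Real.exp (j / 50)) := by
        apply mul_le_mul_of_nonneg_left _ (by positivity)
        rw [← Real.exp_add, ← Real.exp_add]
        apply Real.exp_le_exp.2
        linarith
    _ = _ := by ring

open Classical in
/-- the elements of `E0 v` up to `X` -/
theorem E0_lower : ∃ c : ℝ, 0 < c ∧ ∀ v X : ℕ, 1 ≤ X →
    hA (L (4 * v)) (L (64 * v)) (45 * v) * Real.exp (-S (L (64 * v))) *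
      (c * (Real.log X - Real.log (2 * (L (64 * v) : ℝ) ^ (45 * v)))) ≤
      ∑ x ∈ (Icc 1 X).filter (fun x => x ∈ E0 v), (1 : ℝ) / x := by
  obtain ⟨c, hc, hr⟩ := rough_ge
  refine ⟨c / 2, by positivity, ?_⟩
  intro v X hX
  set P := L (4 * v) with hP
  set M := L (64 * v) with hM
  set D := 2 * M ^ (45 * v) with hD
  have hM2 : 2 ≤ M := two_le_L _
  have hD0 : 0 < D := by positivity
  set Y := X / D with hY
  -- the double sum
  have h1 : ∑ q ∈ setA P M (45 * v) ×ˢ ((Icc 1 Y).filter (Rough M)),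
      (1 : ℝ) / ((2 * (q.1 * q.2) : ℕ) : ℝ) ≤
      ∑ x ∈ (Icc 1 X).filter (fun x => x ∈ E0 v), (1 : ℝ) / x := by
    rw [← Finset.sum_image (s := setA P M (45 * v) ×ˢ ((Icc 1 Y).filter (Rough M)))
      (g := fun q => 2 * (q.1 * q.2)) (f := fun x : ℕ => (1 : ℝ) / (x : ℝ))]
    · apply Finset.sum_le_sum_of_subset_of_nonneg
      · intro x hx
        rw [Finset.mem_image] at hx
        obtain ⟨⟨a, c'⟩, hq, rfl⟩ := hx
        rw [Finset.mem_product, mem_setA, Finset.mem_filter, Finset.mem_Icc] at hq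
        obtain ⟨ha, ⟨hc1, hcY⟩, hcr⟩ := hq
        simp only at ha hc1 hcY hcr
        rw [Finset.mem_filter, Finset.mem_Icc]
        refine ⟨⟨?_, ?_⟩, ?_⟩
        · have := Nat.mul_pos ha.1 hc1
          simp only
          omega
        · simp only
          calc 2 * (a * c') ≤ 2 * (M ^ (45 * v) * Y) :=
                Nat.mul_le_mul_left 2 (Nat.mul_le_mul ha.le hcY)
            _ = D * Y := by rw [hD]; ring
            _ ≤ X := Nat.mul_div_le X D
        · simp only
          rw [mem_E0_iff]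
          exact ⟨a, c', rfl, ha, hc1, hcr⟩
      · intro x _ _
        positivity
    · rintro ⟨a, c'⟩ hq ⟨a', c''⟩ hq' h
      rw [Finset.mem_coe, Finset.mem_product, mem_setA, Finset.mem_filter, Finset.mem_Icc]
        at hq hq'
      simp only at hq hq' h
      have h2 := decomp_unique (z := M) hq.1.1 hq'.1.1 (fun p hp hpa => (hq.1.2.1 p hp hpa).2)
        (fun p hp hpa => (hq'.1.2.1 p hp hpa).2) hq.2.2 hq'.2.2 (by omega)
      rw [h2.1, h2.2]
  refine le_trans ?_ h1
  have h2 : ∑ q ∈ setA P M (45 * v) ×ˢ ((Icc 1 Y).filter (Rough M)),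
      (1 : ℝ) / ((2 * (q.1 * q.2) : ℕ) : ℝ) =
      hA P M (45 * v) * (∑ u ∈ (Icc 1 Y).filter (Rough M), (1 : ℝ) / u) / 2 := by
    unfold hA
    rw [Finset.sum_mul_sum, ← Finset.sum_product', Finset.sum_div]
    apply Finset.sum_congr rfl
    intro q _
    push_cast
    rw [one_div, one_div, one_div, mul_inv, mul_inv]
    ring
  rw [h2]
  have h3 := hr M Y
  have h4 : Real.log X - Real.log (2 * (M : ℝ) ^ (45 * v)) ≤ Real.log (Y + 1) := by
    have hXr : (0 : ℝ) < X := by exact_mod_cast hX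
    have hMr : (0 : ℝ) < M := by
      have : 0 < M := by omega
      exact_mod_cast this
    rw [← Real.log_div hXr.ne' (by positivity)]
    apply Real.log_le_log (by positivity)
    rw [div_le_iff₀ (by positivity)]
    have h5 : X < D * (Y + 1) := by
      rw [mul_comm]
      exact Nat.lt_mul_of_div_lt (Nat.lt_succ_self _) hD0
    have h6 : (X : ℝ) < D * (Y + 1) := by exact_mod_cast h5
    rw [hD] at h6
    push_cast at h6
    linarith
  have h5 : 0 ≤ hA P M (45 * v) := hA_nonneg _ _ _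
  have h6 : c * (Real.log X - Real.log (2 * (M : ℝ) ^ (45 * v))) * Real.exp (-S M) ≤
      ∑ u ∈ (Icc 1 Y).filter (Rough M), (1 : ℝ) / u := by
    refine le_trans ?_ h3
    unfold S
    apply mul_le_mul_of_nonneg_right _ (Real.exp_pos _).le
    exact mul_le_mul_of_nonneg_left h4 hc.le
  calc hA P M (45 * v) * Real.exp (-S M) *
      (c / 2 * (Real.log X - Real.log (2 * (M : ℝ) ^ (45 * v)))) =
      hA P M (45 * v) * (c * (Real.log X - Real.log (2 * (M : ℝ) ^ (45 * v))) *
        Real.exp (-S M)) / 2 := by ring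
    _ ≤ _ := by
      apply div_le_div_of_nonneg_right _ (by norm_num)
      exact mul_le_mul_of_nonneg_left h6 h5

open Classical in
/-- atypical elements of `E0 v` -/
theorem bad_upper : ∃ C : ℝ, 0 < C ∧ ∀ C₀ v X : ℕ, L (64 * v) ≤ X →
    ∑ x ∈ (Icc 1 X).filter (fun x => x ∈ E0 v ∧ x ∉ E C₀ v), (1 : ℝ) / x ≤
      hA (L (4 * v)) (L (64 * v)) (45 * v) * Real.exp (-S (L (64 * v))) *
        (C * Real.exp (-(C₀ * Real.log (51 / 50))) * Real.log X) := by
  obtain ⟨C, hC, hwb⟩ := wb_sum
  -- the geometric series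
  set δ : ℝ := 51 / 50 * Real.log (51 / 50) - 1 / 50 with hδ
  have hδ0 : 0 < δ := by
    have h := Real.le_log_one_add_of_nonneg (x := 1 / 50) (by norm_num)
    rw [hδ]
    norm_num at h ⊢
    linarith
  have hsum : Summable (fun j : ℕ => Real.exp (-δ * j)) := by
    have := Real.summable_pow_mul_exp_neg_nat_mul 0 hδ0
    simpa using this
  set Z := ∑' j : ℕ, Real.exp (-δ * j) with hZ
  have hZ0 : 0 ≤ Z := tsum_nonneg (fun j => (Real.exp_pos _).le)
  refine ⟨C * (Z + 1), by positivity, ?_⟩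
  intro C₀ v X hX
  set P := L (4 * v) with hP
  set M := L (64 * v) with hM
  have hlogX : 0 ≤ Real.log X := Real.log_natCast_nonneg X
  set s := (Icc 1 X).filter (fun x => x ∈ E0 v ∧ x ∉ E C₀ v) with hs
  -- choose `j`
  have hj : ∀ x ∈ s, ∃ j : ℕ, 51 / 50 * (j : ℝ) + C₀ < Om M (L (64 * v + j)) x := by
    intro x hx
    rw [hs, Finset.mem_filter] at hx
    have h1 := hx.2.2
    unfold E at h1
    simp only [Set.mem_ofPred_eq, not_and, not_forall, not_le] at h1
    exact h1 hx.2.1
  choose! f hf using hj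
  set J := s.sup f + 1 with hJ
  -- fixed `j`
  have key : ∀ j : ℕ, ∑ x ∈ s with f x = j, (1 : ℝ) / x ≤
      hA P M (45 * v) * Real.exp (-S M) * (C * Real.exp (-(C₀ * Real.log (51 / 50))) *
        Real.log X) * Real.exp (-δ * j) := by
    intro j
    have h1 : ∑ x ∈ s with f x = j, (1 : ℝ) / x ≤
        ∑ q ∈ setA P M (45 * v) ×ˢ (Icc 1 X), Real.exp (-((51 / 50 * j + C₀) *
          Real.log (51 / 50))) * (1 / (q.1 : ℝ) * (cm (wb M (L (64 * v + j))) q.2 / q.2)) := by
      apply sum_le_sum_cover _ _ (fun q => 2 * (q.1 * q.2))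
      · intro q _
        exact mul_nonneg (Real.exp_pos _).le (mul_nonneg (by positivity)
          (div_nonneg (cm_nonneg (fun p => (wb_bounds _ _ p).1) _) (Nat.cast_nonneg _)))
      · intro x hx
        rw [Finset.mem_filter] at hx
        obtain ⟨hxs, hfx⟩ := hx
        have hfx' := hf x hxs
        rw [hfx] at hfx'
        rw [hs, Finset.mem_filter, Finset.mem_Icc] at hxs
        obtain ⟨⟨hx1, hxX⟩, hxE, -⟩ := hxs
        obtain ⟨a, c, rfl, ha, hc1, hcr⟩ := mem_E0_iff.1 hxE
        have ha1 := ha.1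
        refine ⟨(a, c), ?_, rfl, ?_⟩
        · rw [Finset.mem_product, mem_setA, Finset.mem_Icc]
          refine ⟨ha, hc1, ?_⟩
          simp only
          nlinarith
        · simp only
          have hcr' : Rough M c := hcr
          rw [cm_wb hcr']
          have h2 : Om M (L (64 * v + j)) (2 * (a * c)) = Om M (L (64 * v + j)) c := by
            rw [Om_mul (by norm_num) (by positivity), Om_mul (by omega) (by omega),
              Om_above (a := a) (fun p hp hpa => (ha.2.1 p hp hpa).2),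
              Om_above (a := 2) (fun p hp hpa => ?_)]
            · omega
            · rw [(Nat.prime_dvd_prime_iff_eq hp Nat.prime_two).1 hpa]
              exact two_le_L _
          rw [h2] at hfx'
          have h3 : (51 / 50 : ℝ) ^ Om M (L (64 * v + j)) c =
              Real.exp ((Om M (L (64 * v + j)) c : ℝ) * Real.log (51 / 50)) := by
            rw [Real.exp_nat_mul, Real.exp_log (by norm_num)]
          have h4 : 1 ≤ Real.exp (-((51 / 50 * j + C₀) * Real.log (51 / 50))) *
              (51 / 50 : ℝ) ^ Om M (L (64 * v + j)) c := by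
            rw [h3, ← Real.exp_add]
            apply Real.one_le_exp
            have h5 : 0 ≤ Real.log (51 / 50) := Real.log_nonneg (by norm_num)
            nlinarith
          have ha0 : (0 : ℝ) < a := by exact_mod_cast ha1
          have hc0 : (0 : ℝ) < c := by exact_mod_cast hc1
          calc (1 : ℝ) / ((2 * (a * c) : ℕ) : ℝ) ≤ 1 / (a * c) := by
                push_cast
                apply one_div_le_one_div_of_le (by positivity)
                nlinarith [mul_pos ha0 hc0]
            _ ≤ (Real.exp (-((51 / 50 * j + C₀) * Real.log (51 / 50))) *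
              (51 / 50 : ℝ) ^ Om M (L (64 * v + j)) c) * (1 / (a * c)) :=
                le_mul_of_one_le_left (by positivity) h4
            _ = _ := by
                field_simp
    refine h1.trans ?_
    rw [← Finset.mul_sum, Finset.sum_product]
    simp only
    rw [← Finset.sum_mul_sum]
    have h2 := hwb v j X hX
    have h3 : ∑ i ∈ setA P M (45 * v), 1 / (i : ℝ) = hA P M (45 * v) := rfl
    rw [h3]
    calc Real.exp (-((51 / 50 * j + C₀) * Real.log (51 / 50))) * (hA P M (45 * v) *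
        ∑ c ∈ Icc 1 X, cm (wb M (L (64 * v + j))) c / (c : ℝ))
        ≤ Real.exp (-((51 / 50 * j + C₀) * Real.log (51 / 50))) * (hA P M (45 * v) *
        (C * Real.log X * Real.exp (-S M) * Real.exp (j / 50))) := by
          apply mul_le_mul_of_nonneg_left _ (Real.exp_pos _).le
          exact mul_le_mul_of_nonneg_left h2 (hA_nonneg _ _ _)
      _ = hA P M (45 * v) * Real.exp (-S M) * (C * Real.log X) *
          (Real.exp (-((51 / 50 * j + C₀) * Real.log (51 / 50))) * Real.exp (j / 50)) := by ring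
      _ = hA P M (45 * v) * Real.exp (-S M) * (C * Real.log X) *
          (Real.exp (-(C₀ * Real.log (51 / 50))) * Real.exp (-δ * j)) := by
          rw [← Real.exp_add, ← Real.exp_add]
          congr 2
          rw [hδ]
          ring
      _ = _ := by ring
  -- sum over `j`
  have h1 : ∑ x ∈ s, (1 : ℝ) / x = ∑ j ∈ range J, ∑ x ∈ s with f x = j, (1 : ℝ) / x := by
    symm
    apply Finset.sum_fiberwise_of_maps_to
    intro x hx
    rw [Finset.mem_range, hJ]
    have := Finset.le_sup (f := f) hx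
    omega
  rw [h1]
  have hpos : 0 ≤ hA P M (45 * v) * Real.exp (-S M) * (C * Real.exp (-(C₀ *
      Real.log (51 / 50))) * Real.log X) :=
    mul_nonneg (mul_nonneg (hA_nonneg _ _ _) (Real.exp_pos _).le) (by positivity)
  calc ∑ j ∈ range J, ∑ x ∈ s with f x = j, (1 : ℝ) / x
      ≤ ∑ j ∈ range J, hA P M (45 * v) * Real.exp (-S M) * (C * Real.exp (-(C₀ *
        Real.log (51 / 50))) * Real.log X) * Real.exp (-δ * j) :=
        Finset.sum_le_sum (fun j _ => key j)
    _ = hA P M (45 * v) * Real.exp (-S M) * (C * Real.exp (-(C₀ *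
        Real.log (51 / 50))) * Real.log X) * ∑ j ∈ range J, Real.exp (-δ * j) := by
        rw [Finset.mul_sum]
    _ ≤ hA P M (45 * v) * Real.exp (-S M) * (C * Real.exp (-(C₀ *
        Real.log (51 / 50))) * Real.log X) * (Z + 1) := by
        apply mul_le_mul_of_nonneg_left _ hpos
        have := hsum.sum_le_tsum (range J) (fun j _ => (Real.exp_pos _).le)
        linarith
    _ = _ := by ring

open Classical in
/-- [E] lower bound for the logarithmic density of `E`. -/
theorem E_lower' : ∃ (C₀ : ℕ) (c : ℝ), 0 < c ∧ ∃ v₀ : ℕ, ∀ v ≥ v₀, ∃ D : ℝ, ∀ X : ℕ, 2 ≤ X →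
    c * Real.exp (-(6.15 * v)) / (v + 1) * Real.log X - D ≤
      ∑ x ∈ (Icc 1 X).filter (fun x => x ∈ E C₀ v), (1 : ℝ) / x := by
  obtain ⟨c₁, hc₁, v₀, hlow⟩ := hA_lower
  obtain ⟨c₂, hc₂, hE0⟩ := E0_lower
  obtain ⟨C, hC, hbad⟩ := bad_upper
  -- choose `C₀`
  obtain ⟨C₀, hC₀⟩ : ∃ C₀ : ℕ, C * Real.exp (-(C₀ * Real.log (51 / 50))) ≤ c₂ / 2 := by
    have h1 : 0 < Real.log (51 / 50) := Real.log_pos (by norm_num)
    obtain ⟨n, hn⟩ := exists_nat_gt (Real.log (2 * C / c₂) / Real.log (51 / 50))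
    refine ⟨n, ?_⟩
    rw [div_lt_iff₀ h1] at hn
    have h2 : Real.exp (-(n * Real.log (51 / 50))) ≤ Real.exp (-Real.log (2 * C / c₂)) :=
      Real.exp_le_exp.2 (by linarith)
    rw [Real.exp_neg (Real.log _), Real.exp_log (by positivity)] at h2
    calc C * Real.exp (-(n * Real.log (51 / 50))) ≤ C * (2 * C / c₂)⁻¹ :=
          mul_le_mul_of_nonneg_left h2 hC.le
      _ = c₂ / 2 := by
          rw [inv_div]
          field_simp
  refine ⟨C₀, c₁ * c₂ / 2, by positivity, v₀, ?_⟩
  intro v hv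
  set M := L (64 * v) with hM
  set H := hA (L (4 * v)) M (45 * v) * Real.exp (-S M) with hH
  have hH0 : 0 ≤ H := mul_nonneg (hA_nonneg _ _ _) (Real.exp_pos _).le
  have hM2 : 2 ≤ M := two_le_L _
  have hMr : (2 : ℝ) ≤ M := by exact_mod_cast hM2
  have hlogM : 0 ≤ Real.log M := Real.log_nonneg (by linarith)
  have hlog2 : 0 ≤ Real.log (2 * (M : ℝ) ^ (45 * v)) := by
    apply Real.log_nonneg
    have : (1 : ℝ) ≤ (M : ℝ) ^ (45 * v) := one_le_pow₀ (by linarith)
    linarith
  have hlow' := hlow v hv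
  rw [← hM, ← hH] at hlow'
  refine ⟨H * c₂ * Real.log (2 * (M : ℝ) ^ (45 * v)) + H * c₂ * Real.log M, ?_⟩
  intro X hX
  have hX1 : 1 ≤ X := by omega
  have hlogX : 0 ≤ Real.log X := Real.log_natCast_nonneg X
  by_cases hXM : M ≤ X
  · -- main case
    have h1 := hE0 v X hX1
    rw [← hM, ← hH] at h1
    have h2 := hbad C₀ v X hXM
    rw [← hM, ← hH] at h2
    have h3 : ∑ x ∈ (Icc 1 X).filter (fun x => x ∈ E0 v), (1 : ℝ) / x =
        ∑ x ∈ (Icc 1 X).filter (fun x => x ∈ E C₀ v), (1 : ℝ) / x +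
        ∑ x ∈ (Icc 1 X).filter (fun x => x ∈ E0 v ∧ x ∉ E C₀ v), (1 : ℝ) / x := by
      rw [← Finset.sum_filter_add_sum_filter_not ((Icc 1 X).filter (fun x => x ∈ E0 v))
        (fun x => x ∈ E C₀ v), Finset.filter_filter, Finset.filter_filter]
      congr 1
      apply Finset.sum_congr _ (fun _ _ => rfl)
      ext x
      simp only [Finset.mem_filter]
      constructor
      · rintro ⟨h, _, h'⟩
        exact ⟨h, h'⟩
      · rintro ⟨h, h'⟩
        exact ⟨h, h'.1, h'⟩
    have h4 : H * (C * Real.exp (-(C₀ * Real.log (51 / 50))) * Real.log X) ≤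
        H * (c₂ / 2 * Real.log X) := by
      apply mul_le_mul_of_nonneg_left _ hH0
      exact mul_le_mul_of_nonneg_right hC₀ hlogX
    have h5 : c₁ * c₂ / 2 * Real.exp (-(6.15 * v)) / (v + 1) * Real.log X ≤
        H * (c₂ / 2 * Real.log X) := by
      calc c₁ * c₂ / 2 * Real.exp (-(6.15 * v)) / (v + 1) * Real.log X =
          (c₁ * Real.exp (-(6.15 * v)) / (v + 1)) * (c₂ / 2 * Real.log X) := by ring
        _ ≤ _ := mul_le_mul_of_nonneg_right hlow' (by positivity)
    have h6 : 0 ≤ H * c₂ * Real.log M := by positivity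
    have h7 : H * (c₂ * (Real.log X - Real.log (2 * (M : ℝ) ^ (45 * v)))) =
        H * (c₂ / 2 * Real.log X) + H * (c₂ / 2 * Real.log X) -
          H * c₂ * Real.log (2 * (M : ℝ) ^ (45 * v)) := by ring
    rw [h7] at h1
    linarith
  · -- small `X`
    push Not at hXM
    have h1 : Real.log X ≤ Real.log M := by
      apply Real.log_le_log
      · exact_mod_cast hX1
      · exact_mod_cast hXM.le
    have h2 : 0 ≤ ∑ x ∈ (Icc 1 X).filter (fun x => x ∈ E C₀ v), (1 : ℝ) / x :=
      Finset.sum_nonneg (fun _ _ => by positivity)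
    have h5 : c₁ * c₂ / 2 * Real.exp (-(6.15 * v)) / (v + 1) * Real.log X ≤
        H * (c₂ / 2 * Real.log M) := by
      calc c₁ * c₂ / 2 * Real.exp (-(6.15 * v)) / (v + 1) * Real.log X =
          (c₁ * Real.exp (-(6.15 * v)) / (v + 1)) * (c₂ / 2 * Real.log X) := by ring
        _ ≤ H * (c₂ / 2 * Real.log X) := mul_le_mul_of_nonneg_right hlow' (by positivity)
        _ ≤ _ := by gcongr
    have h6 : 0 ≤ H * c₂ * Real.log (2 * (M : ℝ) ^ (45 * v)) := by positivity
    have h7 : 0 ≤ H * c₂ * Real.log M := by positivity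
    have h8 : H * (c₂ / 2 * Real.log M) = H * c₂ * Real.log M / 2 := by ring
    linarith

end Pool.Agent.Lib.helper94.ANT
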