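import Pool.Agent.Lib.helper94.ANT.Upper
import Pool.Agent.Lib.helper94.ANT.LowerB
import Pool.Agent.Lib.helper94.ANT.Final0

/-!
Assembly: an admissible set of density larger than one half.
-/

namespace Pool.Agent.Lib.helper94.ANT

open Finset

/-- polynomial times exponential decay -/
theorem exp_beats (C : ℝ) (a : ℝ) (ha : 0 < a) (k : ℕ) (ε : ℝ) (hε : 0 < ε) :
    ∃ v₀ : ℕ, ∀ v : ℕ, v₀ ≤ v → C * ((v : ℝ) + 1) ^ k * Real.exp (-(a * v)) ≤ ε := by
  have h1 := Real.summable_pow_mul_exp_neg_nat_mul k ha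
  have h2 := ((summable_nat_add_iff 1).2 h1).tendsto_atTop_zero
  have h3 := h2.const_mul (C * Real.exp a)
  rw [mul_zero] at h3
  have h4 := h3.eventually (eventually_le_nhds hε)
  rw [Filter.eventually_atTop] at h4
  obtain ⟨v₀, hv₀⟩ := h4
  refine ⟨v₀, fun v hv => ?_⟩
  refine le_trans (le_of_eq ?_) (hv₀ v hv)
  push_cast
  have : Real.exp (-(a * v)) = Real.exp a * Real.exp (-a * ((v : ℝ) + 1)) := by
    rw [← Real.exp_add]
    ring_nf
  rw [this]
  ring

/-- number of odd integers in an interval -/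
theorem card_odd (a b : ℕ) (hab : a ≤ b) :
    ((b : ℝ) - a) / 2 - 1 / 2 ≤ (((Ioc a b).filter (fun x => x % 2 = 1)).card : ℝ) := by
  have key : ((Ioc a b).filter (fun x => x % 2 = 1)).card + (a + 1) / 2 = (b + 1) / 2 := by
    induction b, hab using Nat.le_induction with
    | base => simp
    | succ b hab ih =>
      have h1 : Ioc a (b + 1) = insert (b + 1) (Ioc a b) := by
        ext x
        simp only [Finset.mem_Ioc, Finset.mem_insert]
        omega
      rw [h1, Finset.filter_insert]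
      split_ifs with h
      · rw [Finset.card_insert_of_notMem (by simp)]
        omega
      · omega
  have h1 : ((((Ioc a b).filter (fun x => x % 2 = 1)).card : ℕ) : ℝ) + ((a + 1) / 2 : ℕ) =
      ((b + 1) / 2 : ℕ) := by exact_mod_cast key
  have h2 : (((a + 1) / 2 : ℕ) : ℝ) ≤ (a + 1) / 2 := by
    have := Nat.cast_div_le (α := ℝ) (m := a + 1) (n := 2)
    push_cast at this
    exact this
  have h3 : (b : ℝ) / 2 ≤ (((b + 1) / 2 : ℕ) : ℝ) := by
    have : b ≤ 2 * ((b + 1) / 2) := by omega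
    have h4 : (b : ℝ) ≤ 2 * (((b + 1) / 2 : ℕ) : ℝ) := by exact_mod_cast this
    linarith
  linarith

theorem E_even {C₀ v x : ℕ} (h : x ∈ E C₀ v) : x % 2 = 0 := by
  obtain ⟨⟨u, rfl, -⟩, -⟩ := h
  omega

/-- the construction for a good `N` -/
theorem exists_set {C₀ v K N : ℕ} (hK : 2 ≤ K) {ε : ℝ}
    (h : open Classical in (ε + 1 / (2 * K)) * N + 2 ≤
      (((Ioc (N / K) N).filter (fun x => x ∈ E C₀ v)).card : ℝ) -
        ((Ioc (N / K) N).filter (fun x => x ∈ Nb K C₀ v)).card) :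
    ∃ A : Finset ℕ, A ⊆ Finset.Icc 1 N ∧
        (∀ a ∈ A, ∀ b ∈ A, a ≠ b → ¬ (a + b ∣ a * b)) ∧
        ((1 : ℝ) / 2 + ε) * (N : ℝ) ≤ (A.card : ℝ) := by
  classical
  set I := Ioc (N / K) N with hI
  refine ⟨(I.filter (fun x => x % 2 = 1) ∪ I.filter (fun x => x ∈ E C₀ v)) \
    I.filter (fun x => x ∈ Nb K C₀ v), ?_, ?_, ?_⟩
  · intro x hx
    rw [Finset.mem_sdiff, Finset.mem_union, Finset.mem_filter, Finset.mem_filter] at hx
    have h1 : x ∈ I := by
      rcases hx.1 with h1 | h1 <;> exact h1.1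
    rw [hI, Finset.mem_Ioc] at h1
    rw [Finset.mem_Icc]
    exact ⟨lt_of_le_of_lt (Nat.zero_le _) h1.1, h1.2⟩
  · intro a ha b hb hab hdvd
    rw [Finset.mem_sdiff, Finset.mem_union, Finset.mem_filter, Finset.mem_filter,
      Finset.mem_filter] at ha hb
    have haI : a ∈ I := by
      rcases ha.1 with h1 | h1 <;> exact h1.1
    have hbI : b ∈ I := by
      rcases hb.1 with h1 | h1 <;> exact h1.1
    have haI' := haI
    have hbI' := hbI
    rw [hI, Finset.mem_Ioc] at haI' hbI'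
    have hK0 : 0 < K := by omega
    have h1 : N < a * K := (Nat.div_lt_iff_lt_mul hK0).1 haI'.1
    have h2 : N < b * K := (Nat.div_lt_iff_lt_mul hK0).1 hbI'.1
    have ha1 : 1 ≤ a := lt_of_le_of_lt (Nat.zero_le _) haI'.1
    have hb1 : 1 ≤ b := lt_of_le_of_lt (Nat.zero_le _) hbI'.1
    have h3 : a ≤ K * b := by rw [mul_comm]; omega
    have h4 : b ≤ K * a := by rw [mul_comm]; omega
    by_cases haE : a ∈ E C₀ v
    · exact hb.2 ⟨hbI, hb1, a, haE, hab, hdvd, h3, h4⟩
    · by_cases hbE : b ∈ E C₀ v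
      · exact ha.2 ⟨haI, ha1, b, hbE, hab.symm, by rwa [add_comm, mul_comm], h4, h3⟩
      · have hao : a % 2 = 1 := by
          rcases ha.1 with h5 | h5
          · exact h5.2
          · exact absurd h5.2 haE
        have hbo : b % 2 = 1 := by
          rcases hb.1 with h5 | h5
          · exact h5.2
          · exact absurd h5.2 hbE
        have h5 : 2 ∣ a * b := dvd_trans (by omega) hdvd
        rcases (Nat.Prime.dvd_mul Nat.prime_two).1 h5 with h6 | h6 <;> omega
  · have h1 : (I.filter (fun x => x % 2 = 1) ∪ I.filter (fun x => x ∈ E C₀ v)).card =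
        (I.filter (fun x => x % 2 = 1)).card + (I.filter (fun x => x ∈ E C₀ v)).card := by
      apply Finset.card_union_of_disjoint
      rw [Finset.disjoint_left]
      intro x hx hx'
      have h2 := (Finset.mem_filter.1 hx).2
      have h3 := E_even (Finset.mem_filter.1 hx').2
      omega
    have h2 := Finset.le_card_sdiff (I.filter (fun x => x ∈ Nb K C₀ v))
      (I.filter (fun x => x % 2 = 1) ∪ I.filter (fun x => x ∈ E C₀ v))
    rw [h1] at h2
    have h3 : ((I.filter (fun x => x % 2 = 1)).card : ℝ) + (I.filter (fun x => x ∈ E C₀ v)).card -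
        (I.filter (fun x => x ∈ Nb K C₀ v)).card ≤
        (((I.filter (fun x => x % 2 = 1) ∪ I.filter (fun x => x ∈ E C₀ v)) \
    I.filter (fun x => x ∈ Nb K C₀ v)).card : ℝ) := by
      have h4 : (I.filter (fun x => x % 2 = 1)).card + (I.filter (fun x => x ∈ E C₀ v)).card ≤
          ((I.filter (fun x => x % 2 = 1) ∪ I.filter (fun x => x ∈ E C₀ v)) \
          I.filter (fun x => x ∈ Nb K C₀ v)).card + (I.filter (fun x => x ∈ Nb K C₀ v)).card := by
        omega
      have h5 : ((I.filter (fun x => x % 2 = 1)).card : ℝ) +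
          (I.filter (fun x => x ∈ E C₀ v)).card ≤
          (((I.filter (fun x => x % 2 = 1) ∪ I.filter (fun x => x ∈ E C₀ v)) \
          I.filter (fun x => x ∈ Nb K C₀ v)).card : ℝ) +
            (I.filter (fun x => x ∈ Nb K C₀ v)).card := by exact_mod_cast h4
      linarith
    have h6 := card_odd (N / K) N (Nat.div_le_self N K)
    rw [← hI] at h6
    have h7 : ((N / K : ℕ) : ℝ) ≤ N / K := Nat.cast_div_le
    have h8 : (ε + 1 / (2 * K)) * N = ε * N + (N / K : ℝ) / 2 := by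
      field_simp
    rw [h8] at h
    linarith

theorem main : ∃ ε : ℝ, ε > 0 ∧ ∀ M : ℕ, ∃ N : ℕ, M ≤ N ∧
      ∃ A : Finset ℕ, A ⊆ Finset.Icc 1 N ∧
        (∀ a ∈ A, ∀ b ∈ A, a ≠ b → ¬ (a + b ∣ a * b)) ∧
        ((1 : ℝ) / 2 + ε) * (N : ℝ) ≤ (A.card : ℝ) := by
  classical
  obtain ⟨C₀, c, hc, v₀, hlow⟩ := E_lower'
  obtain ⟨C, hC, hup⟩ := Nb_upper' C₀
  obtain ⟨v₁, hv₁⟩ := exp_beats (8 * C) 0.51 (by norm_num) 6 c hc
  obtain ⟨v₂, hv₂⟩ := exp_beats 4 1.85 (by norm_num) 1 c hc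
  obtain ⟨v₃, hv₃⟩ := exp_beats 1 8 (by norm_num) 0 (1 / 8) (by norm_num)
  set v := max (max v₀ v₁) (max (max v₂ v₃) 2) with hv
  have hvv₀ : v₀ ≤ v := le_trans (le_max_left _ _) (le_max_left _ _)
  have hvv₁ : v₁ ≤ v := le_trans (le_max_right _ _) (le_max_left _ _)
  have hvv₂ : v₂ ≤ v := le_trans (le_trans (le_max_left _ _) (le_max_left _ _)) (le_max_right _ _)
  have hvv₃ : v₃ ≤ v := le_trans (le_trans (le_max_right _ _) (le_max_left _ _)) (le_max_right _ _)
  have hv2 : 2 ≤ v := le_trans (le_max_right _ _) (le_max_right _ _)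
  clear_value v
  have h1 := hv₁ v hvv₁
  have h2 := hv₂ v hvv₂
  have h3 := hv₃ v hvv₃
  obtain ⟨D₁, hD₁⟩ := hlow v hvv₀
  set α := c * Real.exp (-(6.15 * v)) / (v + 1) with hα
  set β := C * (v + 1) ^ 5 * Real.exp (-(6.66 * v)) with hβ
  have hv0 : (0 : ℝ) ≤ v := Nat.cast_nonneg v
  have hα0 : 0 < α := by positivity
  have hβ0 : 0 < β := by positivity
  set K := ⌈Real.exp (8 * v)⌉₊ with hK
  have hKge : Real.exp (8 * v) ≤ K := Nat.le_ceil _
  have hKle : (K : ℝ) ≤ Real.exp (8 * v) + 1 := (Nat.ceil_lt_add_one (Real.exp_pos _).le).le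
  have hK8 : (8 : ℝ) ≤ Real.exp (8 * v) := by
    rw [pow_zero, mul_one, one_mul, Real.exp_neg] at h3
    have h4 := inv_anti₀ (inv_pos.2 (Real.exp_pos (8 * (v : ℝ)))) h3
    rw [inv_inv] at h4
    norm_num at h4
    exact h4
  have hK8' : (8 : ℝ) ≤ K := hK8.trans hKge
  have hK2 : 2 ≤ K := by
    have : (2 : ℝ) ≤ K := by linarith
    exact_mod_cast this
  have hKinv : 1 / (K : ℝ) ≤ Real.exp (-(8 * v)) := by
    rw [Real.exp_neg, one_div]
    exact inv_anti₀ (Real.exp_pos _) hKge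
  -- comparison of the parameters
  have h4 : β ≤ α / 8 := by
    rw [hα, hβ, le_div_iff₀ (by norm_num), le_div_iff₀ (by positivity)]
    have h5 : Real.exp (-(6.66 * (v : ℝ))) = Real.exp (-(0.51 * v)) * Real.exp (-(6.15 * v)) := by
      rw [← Real.exp_add]
      ring_nf
    rw [h5]
    calc C * ((v : ℝ) + 1) ^ 5 * (Real.exp (-(0.51 * v)) * Real.exp (-(6.15 * v))) * 8 * (v + 1) =
        (8 * C * ((v : ℝ) + 1) ^ 6 * Real.exp (-(0.51 * v))) * Real.exp (-(6.15 * v)) := by ring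
      _ ≤ c * Real.exp (-(6.15 * v)) := mul_le_mul_of_nonneg_right h1 (Real.exp_pos _).le
  have h5 : 1 / (2 * (K : ℝ)) ≤ α / 8 := by
    have h6 : 1 / (2 * (K : ℝ)) = (1 / K) / 2 := by ring
    rw [h6]
    refine le_trans (div_le_div_of_nonneg_right hKinv (by norm_num)) ?_
    rw [hα, div_div, div_le_div_iff₀ (by norm_num) (by positivity)]
    have h7 : Real.exp (-(8 * (v : ℝ))) = Real.exp (-(1.85 * v)) * Real.exp (-(6.15 * v)) := by
      rw [← Real.exp_add]
      ring_nf
    rw [h7]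
    calc Real.exp (-(1.85 * (v : ℝ))) * Real.exp (-(6.15 * v)) * ((v + 1) * 8) =
        2 * (4 * ((v : ℝ) + 1) ^ 1 * Real.exp (-(1.85 * v))) * Real.exp (-(6.15 * v)) := by ring
      _ ≤ 2 * c * Real.exp (-(6.15 * v)) := by
          apply mul_le_mul_of_nonneg_right _ (Real.exp_pos _).le
          linarith
      _ = c * Real.exp (-(6.15 * v)) * 2 := by ring
  have h6 : 1 / (K : ℝ) ≤ 1 / 8 := one_div_le_one_div_of_le (by norm_num) hK8'
  -- the bound for the neighbours
  set L₀ := L (64 * v) with hL₀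
  have hL2 : 2 ≤ L₀ := two_le_L _
  have hD₂ : ∀ X : ℕ, 2 ≤ X → ∑ x ∈ (Icc 1 X).filter (fun x => x ∈ Nb K C₀ v), (1 : ℝ) / x ≤
      β * Real.log X + β * Real.log L₀ := by
    intro X hX
    have hlogL : 0 ≤ Real.log L₀ := Real.log_natCast_nonneg _
    have hlogX : 0 ≤ Real.log X := Real.log_natCast_nonneg _
    by_cases hXL : L₀ ≤ X
    · have h7 := hup v hv2 K (by omega) hKle X hXL
        ((Icc 1 X).filter (fun x => x ∈ Nb K C₀ v)) (fun y hy => by
          rw [Finset.mem_filter, Finset.mem_Icc] at hy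
          exact ⟨hy.2, hy.1.2⟩)
      rw [← hβ] at h7
      have : 0 ≤ β * Real.log L₀ := by positivity
      linarith
    · have h7 := hup v hv2 K (by omega) hKle L₀ (le_refl _)
        ((Icc 1 X).filter (fun x => x ∈ Nb K C₀ v)) (fun y hy => by
          rw [Finset.mem_filter, Finset.mem_Icc] at hy
          exact ⟨hy.2, by omega⟩)
      rw [← hβ] at h7
      have : 0 ≤ β * Real.log X := by positivity
      linarith
  have h7 := final_step (E C₀ v) (Nb K C₀ v) K hK2 α β (max D₁ (β * Real.log L₀)) (α / 4)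
    (by positivity) (fun X hX => by
      have h8 := hD₁ X hX
      have h9 := le_max_left D₁ (β * Real.log L₀)
      linarith) (fun X hX => by
      have h8 := hD₂ X hX
      have h9 := le_max_right D₁ (β * Real.log L₀)
      linarith) (by nlinarith)
  refine ⟨α / 4, by positivity, fun M => ?_⟩
  obtain ⟨N, hN, h8⟩ := h7 M
  exact ⟨N, hN, exists_set hK2 h8⟩

end Pool.Agent.Lib.helper94.ANT
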