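import Pool.Agent.Lib.helper94.ANT.Defs

/-!
Brun's pure sieve for the three forms `m`, `n`, `m + n` with weights.
-/

namespace Pool.Agent.Lib.helper94.ANT

open Finset

/-! ### weighted Bonferroni inequalities -/

/-- truncated inclusion-exclusion sum -/
noncomputable def bonS {ι : Type*} (w : ι → ℝ) (k : ℕ) (I : Finset ι) : ℝ :=
  ∑ A ∈ I.powerset, if A.card ≤ k then (-1 : ℝ) ^ A.card * ∏ i ∈ A, w i else 0

theorem bonS_empty {ι : Type*} (w : ι → ℝ) (k : ℕ) : bonS w k ∅ = 1 := by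
  simp [bonS]

theorem bonS_zero {ι : Type*} (w : ι → ℝ) (I : Finset ι) : bonS w 0 I = 1 := by
  classical
  unfold bonS
  rw [Finset.sum_eq_single ∅]
  · simp
  · intro A _ hA
    rw [if_neg]
    simpa using hA
  · intro h
    exact absurd (Finset.empty_mem_powerset I) h

theorem bonS_insert {ι : Type*} [DecidableEq ι] (w : ι → ℝ) (k : ℕ) (I : Finset ι) (j : ι)
    (hj : j ∉ I) : bonS w (k + 1) (insert j I) = bonS w (k + 1) I - w j * bonS w k I := by
  unfold bonS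
  rw [Finset.sum_powerset_insert hj, sub_eq_add_neg, Finset.mul_sum, ← Finset.sum_neg_distrib]
  congr 1
  apply Finset.sum_congr rfl
  intro A hA
  have hjA : j ∉ A := fun h => hj (Finset.mem_powerset.1 hA h)
  rw [Finset.card_insert_of_notMem hjA, Finset.prod_insert hjA]
  by_cases h : A.card ≤ k
  · rw [if_pos h, if_pos (by omega)]
    ring
  · rw [if_neg h, if_neg (by omega)]
    ring

theorem bonferroni {ι : Type*} (w : ι → ℝ) (I : Finset ι)
    (hw : ∀ i ∈ I, 0 ≤ w i ∧ w i ≤ 1) (k : ℕ) :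
    0 ≤ (-1 : ℝ) ^ k * (bonS w k I - ∏ i ∈ I, (1 - w i)) := by
  classical
  induction I using Finset.induction_on generalizing k with
  | empty => simp [bonS_empty]
  | insert j I hj ih =>
    have hwI : ∀ i ∈ I, 0 ≤ w i ∧ w i ≤ 1 := fun i hi => hw i (Finset.mem_insert_of_mem hi)
    have hwj := hw j (Finset.mem_insert_self j I)
    rw [Finset.prod_insert hj]
    cases k with
    | zero =>
      have h := ih hwI 0
      rw [bonS_zero] at h ⊢
      have hprod : 0 ≤ ∏ i ∈ I, (1 - w i) :=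
        Finset.prod_nonneg fun i hi => by linarith [(hwI i hi).2]
      simp only [pow_zero, one_mul] at h ⊢
      nlinarith [mul_nonneg hwj.1 hprod]
    | succ k =>
      have h1 := ih hwI (k + 1)
      have h2 := ih hwI k
      rw [bonS_insert w k I j hj]
      have h3 := mul_nonneg hwj.1 h2
      have : (-1 : ℝ) ^ (k + 1) * (bonS w (k + 1) I - w j * bonS w k I -
          (1 - w j) * ∏ i ∈ I, (1 - w i)) =
          (-1 : ℝ) ^ (k + 1) * (bonS w (k + 1) I - ∏ i ∈ I, (1 - w i)) +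
            w j * ((-1 : ℝ) ^ k * (bonS w k I - ∏ i ∈ I, (1 - w i))) := by
        rw [pow_succ]
        ring
      rw [this]
      exact add_nonneg h1 h3

theorem bonferroni_even {ι : Type*} (w : ι → ℝ) (I : Finset ι)
    (hw : ∀ i ∈ I, 0 ≤ w i ∧ w i ≤ 1) (k : ℕ) (hk : Even k) :
    ∏ i ∈ I, (1 - w i) ≤
      ∑ A ∈ I.powerset, if A.card ≤ k then (-1 : ℝ) ^ A.card * ∏ i ∈ A, w i else 0 := by
  have h := bonferroni w I hw k
  rw [hk.neg_one_pow, one_mul] at h
  unfold bonS at h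
  linarith

/-! ### number of small subsets -/

theorem card_small (n k : ℕ) : ∑ j ∈ range (k + 1), n.choose j ≤ (n + 1) ^ k := by
  rw [add_pow]
  apply Finset.sum_le_sum
  intro j hj
  rw [one_pow, mul_one]
  have h1 : n.choose j ≤ n ^ j := Nat.choose_le_pow n j
  have h2 : 1 ≤ k.choose j := Nat.choose_pos (by simpa [Nat.lt_succ_iff] using hj)
  calc n.choose j ≤ n ^ j * 1 := by simpa using h1
    _ ≤ n ^ j * k.choose j := Nat.mul_le_mul_left _ h2

theorem card_powerset_small {ι : Type*} (I : Finset ι) (k : ℕ) :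
    (I.powerset.filter (fun A => A.card ≤ k)).card ≤ (I.card + 1) ^ k := by
  classical
  calc (I.powerset.filter (fun A => A.card ≤ k)).card
      ≤ ((range (k + 1)).biUnion fun j => I.powersetCard j).card := by
        apply Finset.card_le_card
        intro A hA
        rw [Finset.mem_filter, Finset.mem_powerset] at hA
        rw [Finset.mem_biUnion]
        exact ⟨A.card, Finset.mem_range.2 (by omega), Finset.mem_powersetCard.2 ⟨hA.1, rfl⟩⟩
    _ ≤ ∑ j ∈ range (k + 1), (I.powersetCard j).card := Finset.card_biUnion_le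
    _ = ∑ j ∈ range (k + 1), I.card.choose j := by simp
    _ ≤ (I.card + 1) ^ k := card_small _ _

/-! ### counting in a residue class -/

theorem count_class (H q r : ℕ) (hq : 0 < q) :
    |(((Icc 1 H).filter (fun n => n ≡ r [MOD q])).card : ℝ) - H / q| ≤ 1 := by
  have h1 : Icc 1 H = Ioc 0 H := by
    ext x; simp [Nat.succ_le_iff]
  rw [h1]
  have h2 := Nat.Ioc_filter_modEq_card 0 H hq r
  have hq' : (0 : ℚ) < q := by exact_mod_cast hq
  have h3 : ⌊((0 : ℕ) - (r : ℚ)) / q⌋ ≤ ⌊((H : ℚ) - r) / q⌋ := by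
    apply Int.floor_le_floor
    gcongr
    exact_mod_cast Nat.zero_le H
  rw [max_eq_left (by linarith)] at h2
  have h4 : (((Ioc 0 H).filter (fun n => n ≡ r [MOD q])).card : ℚ) =
      (⌊((H : ℚ) - r) / q⌋ : ℚ) - ⌊((0 : ℕ) - (r : ℚ)) / q⌋ := by
    exact_mod_cast h2
  have h5 : |(((Ioc 0 H).filter (fun n => n ≡ r [MOD q])).card : ℚ) - H / q| ≤ 1 := by
    rw [h4]
    have e1 := Int.floor_le (((H : ℚ) - r) / q)
    have e2 := Int.lt_floor_add_one (((H : ℚ) - r) / q)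
    have e3 := Int.floor_le (((0 : ℕ) - (r : ℚ)) / q)
    have e4 := Int.lt_floor_add_one (((0 : ℕ) - (r : ℚ)) / q)
    have e5 : ((H : ℚ) - r) / q = H / q + ((0 : ℕ) - (r : ℚ)) / q := by
      push_cast
      ring
    rw [abs_le]
    constructor <;> linarith
  have h6 : ((|(((Ioc 0 H).filter (fun n => n ≡ r [MOD q])).card : ℚ) - H / q| : ℚ) : ℝ) ≤
      ((1 : ℚ) : ℝ) := by exact_mod_cast h5
  push_cast at h6
  exact h6

theorem count_dvd (H q : ℕ) (hq : 0 < q) :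
    |(((Icc 1 H).filter (fun n => q ∣ n)).card : ℝ) - H / q| ≤ 1 := by
  have h := count_class H q 0 hq
  have e : (Icc 1 H).filter (fun n => n ≡ 0 [MOD q]) = (Icc 1 H).filter (fun n => q ∣ n) := by
    apply Finset.filter_congr
    intro n _
    exact Nat.modEq_zero_iff_dvd
  rw [e] at h
  exact h

/-- the three forms -/
def form3 (i : Fin 3) (m n : ℕ) : ℕ := ![m, n, m + n] i

@[simp] theorem form3_zero (m n : ℕ) : form3 0 m n = m := rfl
@[simp] theorem form3_one (m n : ℕ) : form3 1 m n = n := rfl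
@[simp] theorem form3_two (m n : ℕ) : form3 2 m n = m + n := rfl

/-- local density -/
noncomputable def rho3 (p : ℕ) (B : Finset (Fin 3)) : ℝ :=
  (if (0 : Fin 3) ∈ B ∨ ((1 : Fin 3) ∈ B ∧ (2 : Fin 3) ∈ B) then (p : ℝ)⁻¹ else 1) *
    (if (1 : Fin 3) ∈ B ∨ (2 : Fin 3) ∈ B then (p : ℝ)⁻¹ else 1)

/-- the fibre of `A` over `p` -/
def fib (A : Finset (ℕ × Fin 3)) (p : ℕ) : Finset (Fin 3) := univ.filter fun i => (p, i) ∈ A

theorem mem_fib (A : Finset (ℕ × Fin 3)) (p : ℕ) (i : Fin 3) : i ∈ fib A p ↔ (p, i) ∈ A := by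
  simp [fib]

theorem prime_prod_dvd {Q : Finset ℕ} (hQ : ∀ p ∈ Q, p.Prime) {m : ℤ}
    (h : ∀ p ∈ Q, (p : ℤ) ∣ m) : ((∏ p ∈ Q, p : ℕ) : ℤ) ∣ m := by
  push_cast
  apply Finset.prod_dvd_of_coprime
  · intro a ha b hb hab
    exact Nat.isCoprime_iff_coprime.2 ((Nat.coprime_primes (hQ a ha) (hQ b hb)).2 hab)
  · exact h

theorem row_class (P : Finset ℕ) (hP : ∀ p ∈ P, p.Prime) (A : Finset (ℕ × Fin 3))
    (hA : A ⊆ P ×ˢ univ) (m : ℕ)
    (hm : ∀ p ∈ P, ((p, (0 : Fin 3)) ∈ A ∨ ((p, (1 : Fin 3)) ∈ A ∧ (p, (2 : Fin 3)) ∈ A)) → p ∣ m) :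
    ∃ r : ℕ, ∀ n : ℕ, (∀ i ∈ A, i.1 ∣ form3 i.2 m n) ↔
      n ≡ r [MOD ∏ p ∈ P.filter (fun p => (p, (1 : Fin 3)) ∈ A ∨ (p, (2 : Fin 3)) ∈ A), p] := by
  classical
  set Q := P.filter (fun p => (p, (1 : Fin 3)) ∈ A ∨ (p, (2 : Fin 3)) ∈ A) with hQdef
  have hQ : ∀ p ∈ Q, p.Prime := fun p hp => hP p (Finset.mem_filter.1 hp).1
  let f : ℕ → ℕ := fun p => if (p, (1 : Fin 3)) ∈ A then 0 else m * (p - 1)
  obtain ⟨r, hr⟩ := Nat.chineseRemainderOfFinset f (fun p => p) Q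
    (fun p hp => (hQ p hp).ne_zero)
    (fun a ha b hb hab => (Nat.coprime_primes (hQ a ha) (hQ b hb)).2 hab)
  refine ⟨r, fun n => ?_⟩
  have key : n ≡ r [MOD ∏ p ∈ Q, p] ↔ ∀ p ∈ Q, n ≡ f p [MOD p] := by
    constructor
    · intro h p hp
      exact (h.of_dvd (Finset.dvd_prod_of_mem _ hp)).trans (hr p hp)
    · intro h
      rw [Nat.modEq_iff_dvd]
      apply prime_prod_dvd hQ
      intro p hp
      have := (h p hp).trans (hr p hp).symm
      exact Nat.modEq_iff_dvd.1 this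
  rw [key]
  have hAP : ∀ p i, (p, i) ∈ A → p ∈ P := fun p i h => (Finset.mem_product.1 (hA h)).1
  -- the second condition
  have hsecond : ∀ p ∈ P, (p, (1 : Fin 3)) ∉ A → (n ≡ m * (p - 1) [MOD p] ↔ p ∣ m + n) := by
    intro p hp _
    have hp1 : 1 ≤ p := (hP p hp).one_le
    have e : m + m * (p - 1) = m * p := by
      obtain ⟨q, rfl⟩ := Nat.exists_eq_add_of_le hp1
      simp only [Nat.add_sub_cancel_left]
      ring
    constructor
    · intro h
      have h1 : m + n ≡ m + m * (p - 1) [MOD p] := h.add_left m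
      rw [e] at h1
      exact (Nat.modEq_zero_iff_dvd).1 (h1.trans (Nat.modEq_zero_iff_dvd.2 (Dvd.intro_left m rfl)))
    · intro h
      have h1 : m + n ≡ m + m * (p - 1) [MOD p] := by
        rw [e]
        exact (Nat.modEq_zero_iff_dvd.2 h).trans (Nat.modEq_zero_iff_dvd.2 (Dvd.intro_left m rfl)).symm
      exact Nat.ModEq.add_left_cancel' m h1
  constructor
  · intro h p hp
    obtain ⟨hpP, hp12⟩ := Finset.mem_filter.1 hp
    by_cases h1 : (p, (1 : Fin 3)) ∈ A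
    · simp only [f, if_pos h1]
      exact Nat.modEq_zero_iff_dvd.2 (h _ h1)
    · simp only [f, if_neg h1]
      have h2 : (p, (2 : Fin 3)) ∈ A := hp12.resolve_left h1
      exact (hsecond p hpP h1).2 (h _ h2)
  · intro h
    rintro ⟨p, i⟩ hi
    have hpP := hAP p i hi
    show p ∣ form3 i m n
    fin_cases i
    · exact hm p hpP (Or.inl hi)
    · have hi1 : (p, (1 : Fin 3)) ∈ A := hi
      have hpQ : p ∈ Q := Finset.mem_filter.2 ⟨hpP, Or.inl hi1⟩
      have := h p hpQ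
      simp only [f, if_pos hi1] at this
      exact Nat.modEq_zero_iff_dvd.1 this
    · have hi2 : (p, (2 : Fin 3)) ∈ A := hi
      have hpQ : p ∈ Q := Finset.mem_filter.2 ⟨hpP, Or.inr hi2⟩
      have h3 := h p hpQ
      simp only [f] at h3
      show p ∣ m + n
      by_cases h1 : (p, (1 : Fin 3)) ∈ A
      · rw [if_pos h1] at h3
        exact (Nat.dvd_add_right (hm p hpP (Or.inr ⟨h1, hi2⟩))).2 (Nat.modEq_zero_iff_dvd.1 h3)
      · rw [if_neg h1] at h3
        exact (hsecond p hpP h1).1 h3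

theorem rho_prod (P : Finset ℕ) (A : Finset (ℕ × Fin 3)) :
    ∏ p ∈ P, rho3 p (fib A p) =
      ((∏ p ∈ P.filter (fun p => (p, (0 : Fin 3)) ∈ A ∨
          ((p, (1 : Fin 3)) ∈ A ∧ (p, (2 : Fin 3)) ∈ A)), p : ℕ) : ℝ)⁻¹ *
        ((∏ p ∈ P.filter (fun p => (p, (1 : Fin 3)) ∈ A ∨ (p, (2 : Fin 3)) ∈ A), p : ℕ) : ℝ)⁻¹ := by
  simp only [rho3, mem_fib, Finset.prod_mul_distrib]
  rw [← Finset.prod_filter, ← Finset.prod_filter]
  push_cast
  rw [Finset.prod_inv_distrib, Finset.prod_inv_distrib]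

theorem count_pair (P : Finset ℕ) (hP : ∀ p ∈ P, p.Prime) (A : Finset (ℕ × Fin 3))
    (hA : A ⊆ P ×ˢ univ) (H₁ H₂ : ℕ) :
    |(∑ m ∈ Icc 1 H₁, ∑ n ∈ Icc 1 H₂, (if ∀ i ∈ A, i.1 ∣ form3 i.2 m n then (1 : ℝ) else 0)) -
      H₁ * H₂ * ∏ p ∈ P, rho3 p (fib A p)| ≤ H₁ + H₂ := by
  classical
  rw [rho_prod]
  set Q₁ := P.filter (fun p => (p, (0 : Fin 3)) ∈ A ∨
          ((p, (1 : Fin 3)) ∈ A ∧ (p, (2 : Fin 3)) ∈ A)) with hQ₁
  set Q₂ := P.filter (fun p => (p, (1 : Fin 3)) ∈ A ∨ (p, (2 : Fin 3)) ∈ A) with hQ₂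
  have hp1 : 0 < ∏ p ∈ Q₁, p :=
    Finset.prod_pos fun p hp => (hP p (Finset.mem_filter.1 hp).1).pos
  have hp2 : 0 < ∏ p ∈ Q₂, p :=
    Finset.prod_pos fun p hp => (hP p (Finset.mem_filter.1 hp).1).pos
  set q₁ := ∏ p ∈ Q₁, p with hq₁
  set q₂ := ∏ p ∈ Q₂, p with hq₂
  have hq1R : (1 : ℝ) ≤ q₁ := by exact_mod_cast hp1
  have hq2R : (1 : ℝ) ≤ q₂ := by exact_mod_cast hp2
  -- rows
  have hrow : ∀ m ∈ Icc 1 H₁,
      |(∑ n ∈ Icc 1 H₂, (if ∀ i ∈ A, i.1 ∣ form3 i.2 m n then (1 : ℝ) else 0)) -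
        (if q₁ ∣ m then (H₂ : ℝ) / q₂ else 0)| ≤ 1 := by
    intro m _
    by_cases hd : q₁ ∣ m
    · rw [if_pos hd]
      obtain ⟨r, hr⟩ := row_class P hP A hA m (by
        intro p hp hc
        exact (Finset.dvd_prod_of_mem (fun p => p) (Finset.mem_filter.2 ⟨hp, hc⟩)).trans hd)
      have e : ∑ n ∈ Icc 1 H₂, (if ∀ i ∈ A, i.1 ∣ form3 i.2 m n then (1 : ℝ) else 0) =
          (((Icc 1 H₂).filter (fun n => n ≡ r [MOD q₂])).card : ℝ) := by
        rw [Finset.sum_congr rfl (g := fun n => if n ≡ r [MOD q₂] then (1 : ℝ) else 0)]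
        · rw [Finset.sum_boole]
        · intro n _
          exact if_congr (hr n) rfl rfl
      rw [e]
      exact count_class H₂ q₂ r hp2
    · rw [if_neg hd, Finset.sum_eq_zero]
      · simp
      · intro n _
        rw [if_neg]
        intro hall
        apply hd
        have : ((q₁ : ℕ) : ℤ) ∣ (m : ℤ) := by
          apply prime_prod_dvd (fun p hp => hP p (Finset.mem_filter.1 hp).1)
          intro p hp
          rcases (Finset.mem_filter.1 hp).2 with h0 | ⟨h1, h2⟩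
          · exact_mod_cast hall _ h0
          · have a1 : p ∣ n := hall _ h1
            have a2 : p ∣ m + n := hall _ h2
            exact_mod_cast (Nat.dvd_add_left a1).1 a2
        exact_mod_cast this
  have hrow' : ∀ m ∈ Icc 1 H₁,
      |(∑ n ∈ Icc 1 H₂, (if ∀ i ∈ A, i.1 ∣ form3 i.2 m n then (1 : ℝ) else 0)) -
        (if q₁ ∣ m then (H₂ : ℝ) / q₂ else 0)| ≤ 1 := hrow
  have h1 : |∑ m ∈ Icc 1 H₁,
      ((∑ n ∈ Icc 1 H₂, (if ∀ i ∈ A, i.1 ∣ form3 i.2 m n then (1 : ℝ) else 0)) -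
        (if q₁ ∣ m then (H₂ : ℝ) / q₂ else 0))| ≤ H₁ := by
    calc _ ≤ ∑ m ∈ Icc 1 H₁, |(∑ n ∈ Icc 1 H₂,
          (if ∀ i ∈ A, i.1 ∣ form3 i.2 m n then (1 : ℝ) else 0)) -
          (if q₁ ∣ m then (H₂ : ℝ) / q₂ else 0)| := Finset.abs_sum_le_sum_abs _ _
      _ ≤ ∑ m ∈ Icc 1 H₁, (1 : ℝ) := Finset.sum_le_sum hrow'
      _ = H₁ := by simp
  rw [Finset.sum_sub_distrib] at h1
  have h2 : ∑ m ∈ Icc 1 H₁, (if q₁ ∣ m then (H₂ : ℝ) / q₂ else 0) =
      (((Icc 1 H₁).filter (fun m => q₁ ∣ m)).card : ℝ) * (H₂ / q₂) := by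
    rw [← Finset.sum_filter, Finset.sum_const, nsmul_eq_mul]
  rw [h2] at h1
  have h3 := count_dvd H₁ q₁ hp1
  have h4 : (0 : ℝ) ≤ H₂ / q₂ := by positivity
  have h5 : (H₂ : ℝ) / q₂ ≤ H₂ := div_le_self (by positivity) hq2R
  have h6 : |(((Icc 1 H₁).filter (fun m => q₁ ∣ m)).card : ℝ) * (H₂ / q₂) -
      H₁ * H₂ * ((q₁ : ℝ)⁻¹ * (q₂ : ℝ)⁻¹)| ≤ H₂ := by
    have e : (((Icc 1 H₁).filter (fun m => q₁ ∣ m)).card : ℝ) * (H₂ / q₂) -
      H₁ * H₂ * ((q₁ : ℝ)⁻¹ * (q₂ : ℝ)⁻¹) =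
      ((((Icc 1 H₁).filter (fun m => q₁ ∣ m)).card : ℝ) - H₁ / q₁) * (H₂ / q₂) := by
      field_simp
    rw [e, abs_mul, abs_of_nonneg h4]
    calc _ ≤ 1 * ((H₂ : ℝ) / q₂) := mul_le_mul_of_nonneg_right h3 h4
      _ ≤ H₂ := by linarith
  calc _ = |((∑ m ∈ Icc 1 H₁, ∑ n ∈ Icc 1 H₂,
        (if ∀ i ∈ A, i.1 ∣ form3 i.2 m n then (1 : ℝ) else 0)) -
        (((Icc 1 H₁).filter (fun m => q₁ ∣ m)).card : ℝ) * (H₂ / q₂)) +
        ((((Icc 1 H₁).filter (fun m => q₁ ∣ m)).card : ℝ) * (H₂ / q₂) -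
      H₁ * H₂ * ((q₁ : ℝ)⁻¹ * (q₂ : ℝ)⁻¹))| := by ring_nf
    _ ≤ H₁ + H₂ := (abs_add_le _ _).trans (add_le_add h1 h6)

/-! ### Euler products over subsets -/

theorem sum_powerset_prod (P : Finset ℕ) (g : ℕ → Finset (Fin 3) → ℝ) :
    ∑ A ∈ (P ×ˢ (univ : Finset (Fin 3))).powerset, ∏ p ∈ P, g p (fib A p) =
      ∏ p ∈ P, ∑ B : Finset (Fin 3), g p B := by
  classical
  rw [Finset.prod_sum]
  refine Finset.sum_bij (fun A _ => fun p _ => fib A p) ?_ ?_ ?_ ?_
  · intro A _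
    simp [Finset.mem_pi]
  · intro A hA A' hA' h
    ext ⟨p, i⟩
    have hsub := Finset.mem_powerset.1 hA
    have hsub' := Finset.mem_powerset.1 hA'
    have key : ∀ p ∈ P, fib A p = fib A' p := fun p hp => congrFun (congrFun h p) hp
    constructor
    · intro hi
      have hp : p ∈ P := (Finset.mem_product.1 (hsub hi)).1
      rw [← mem_fib, ← key p hp, mem_fib]
      exact hi
    · intro hi
      have hp : p ∈ P := (Finset.mem_product.1 (hsub' hi)).1
      rw [← mem_fib, key p hp, mem_fib]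
      exact hi
  · intro φ _
    refine ⟨(P ×ˢ univ).filter (fun x => ∃ h : x.1 ∈ P, x.2 ∈ φ x.1 h), ?_, ?_⟩
    · exact Finset.mem_powerset.2 (Finset.filter_subset _ _)
    · funext p hp
      ext i
      rw [mem_fib]
      simp [hp]
  · intro A _
    rw [← Finset.prod_attach P]

theorem prod_fib (P : Finset ℕ) (A : Finset (ℕ × Fin 3)) (hA : A ⊆ P ×ˢ univ)
    (F : ℕ × Fin 3 → ℝ) : ∏ i ∈ A, F i = ∏ p ∈ P, ∏ i ∈ fib A p, F (p, i) := by
  apply Finset.prod_finset_product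
  rintro ⟨p, i⟩
  constructor
  · intro h
    exact ⟨(Finset.mem_product.1 (hA h)).1, (mem_fib _ _ _).2 h⟩
  · intro h
    exact (mem_fib _ _ _).1 h.2

theorem sum_weights (P : Finset ℕ) (F : ℕ × Fin 3 → ℝ) :
    ∑ A ∈ (P ×ˢ (univ : Finset (Fin 3))).powerset,
      (∏ i ∈ A, F i) * ∏ p ∈ P, rho3 p (fib A p) =
      ∏ p ∈ P, (1 + (F (p, 0) + F (p, 1) + F (p, 2)) / p +
        (F (p, 0) * F (p, 1) + F (p, 0) * F (p, 2) + F (p, 1) * F (p, 2) +
          F (p, 0) * F (p, 1) * F (p, 2)) / (p : ℝ) ^ 2) := by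
  have h1 : ∑ A ∈ (P ×ˢ (univ : Finset (Fin 3))).powerset,
      (∏ i ∈ A, F i) * ∏ p ∈ P, rho3 p (fib A p) =
      ∑ A ∈ (P ×ˢ (univ : Finset (Fin 3))).powerset, ∏ p ∈ P,
        (fun p B => (∏ i ∈ B, F (p, i)) * rho3 p B) p (fib A p) := by
    apply Finset.sum_congr rfl
    intro A hA
    rw [prod_fib P A (Finset.mem_powerset.1 hA) F, ← Finset.prod_mul_distrib]
  rw [h1, sum_powerset_prod P (fun p B => (∏ i ∈ B, F (p, i)) * rho3 p B)]
  apply Finset.prod_congr rfl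
  intro p _
  have hu : (Finset.univ : Finset (Finset (Fin 3))) =
      {∅, {0}, {1}, {2}, {0, 1}, {0, 2}, {1, 2}, {0, 1, 2}} := by decide
  rw [hu]
  rw [Finset.sum_insert (by decide), Finset.sum_insert (by decide), Finset.sum_insert (by decide),
    Finset.sum_insert (by decide), Finset.sum_insert (by decide), Finset.sum_insert (by decide),
    Finset.sum_insert (by decide), Finset.sum_singleton]
  simp only [rho3]
  simp
  ring

/-- the three forms, weights -/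
theorem brun3 (P : Finset ℕ) (hP : ∀ p ∈ P, p.Prime) (c : Fin 3 → ℕ → ℝ)
    (hc : ∀ i p, 0 ≤ c i p ∧ c i p ≤ 1) (k : ℕ) (hk : Even k) (T : ℝ) (hT : 1 ≤ T) (H₁ H₂ : ℕ) :
    ∑ m ∈ Icc 1 H₁, ∑ n ∈ Icc 1 H₂, ∏ p ∈ P,
      ((if p ∣ m then 1 - c 0 p else 1) * (if p ∣ n then 1 - c 1 p else 1) *
        (if p ∣ m + n then 1 - c 2 p else 1)) ≤
    H₁ * H₂ * (∏ p ∈ P, (1 - (c 0 p + c 1 p + c 2 p) / p + 3 / (p : ℝ) ^ 2) +
      (∏ p ∈ P, (1 + 3 * T / p + 4 * T ^ 3 / (p : ℝ) ^ 2)) / T ^ k) +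
    (3 * (P.card : ℝ) + 1) ^ k * (H₁ + H₂ + 1) := by
  classical
  set I : Finset (ℕ × Fin 3) := P ×ˢ univ with hI
  -- weights
  have hterm : ∀ m n : ℕ, ∏ p ∈ P,
      ((if p ∣ m then 1 - c 0 p else 1) * (if p ∣ n then 1 - c 1 p else 1) *
        (if p ∣ m + n then 1 - c 2 p else 1)) =
      ∏ i ∈ I, (1 - (if i.1 ∣ form3 i.2 m n then c i.2 i.1 else 0)) := by
    intro m n
    rw [hI, Finset.prod_product]
    apply Finset.prod_congr rfl
    intro p _
    rw [Fin.prod_univ_three]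
    simp only [form3_zero, form3_one, form3_two]
    by_cases h0 : p ∣ m <;> by_cases h1 : p ∣ n <;> by_cases h2 : p ∣ m + n <;>
      simp only [h0, h1, h2, if_true, if_false, sub_zero]
  let N : Finset (ℕ × Fin 3) → ℝ := fun A =>
    ∑ m ∈ Icc 1 H₁, ∑ n ∈ Icc 1 H₂, (if ∀ i ∈ A, i.1 ∣ form3 i.2 m n then (1 : ℝ) else 0)
  let cA : Finset (ℕ × Fin 3) → ℝ := fun A => ∏ i ∈ A, c i.2 i.1
  let ρ : Finset (ℕ × Fin 3) → ℝ := fun A => ∏ p ∈ P, rho3 p (fib A p)
  have hcA0 : ∀ A, 0 ≤ cA A := fun A => Finset.prod_nonneg fun i _ => (hc _ _).1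
  have hcA1 : ∀ A, cA A ≤ 1 := fun A => Finset.prod_le_one (fun i _ => (hc _ _).1)
    (fun i _ => (hc _ _).2)
  have hρ0 : ∀ A, 0 ≤ ρ A := by
    intro A
    apply Finset.prod_nonneg
    intro p _
    unfold rho3
    apply mul_nonneg <;> split_ifs <;> positivity
  have step1 : ∑ m ∈ Icc 1 H₁, ∑ n ∈ Icc 1 H₂, ∏ p ∈ P,
      ((if p ∣ m then 1 - c 0 p else 1) * (if p ∣ n then 1 - c 1 p else 1) *
        (if p ∣ m + n then 1 - c 2 p else 1)) ≤
      ∑ A ∈ I.powerset, if A.card ≤ k then (-1 : ℝ) ^ A.card * cA A * N A else 0 := by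
    calc _ ≤ ∑ m ∈ Icc 1 H₁, ∑ n ∈ Icc 1 H₂, ∑ A ∈ I.powerset,
          (if A.card ≤ k then (-1 : ℝ) ^ A.card *
            ∏ i ∈ A, (if i.1 ∣ form3 i.2 m n then c i.2 i.1 else 0) else 0) := by
          apply Finset.sum_le_sum
          intro m _
          apply Finset.sum_le_sum
          intro n _
          rw [hterm m n]
          apply bonferroni_even _ _ _ k hk
          intro i _
          split_ifs
          · exact hc _ _
          · exact ⟨le_refl 0, zero_le_one⟩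
      _ = ∑ A ∈ I.powerset, ∑ m ∈ Icc 1 H₁, ∑ n ∈ Icc 1 H₂,
          (if A.card ≤ k then (-1 : ℝ) ^ A.card *
            ∏ i ∈ A, (if i.1 ∣ form3 i.2 m n then c i.2 i.1 else 0) else 0) := by
          rw [Finset.sum_comm' (s := I.powerset) (t := fun _ => Icc 1 H₁) (t' := Icc 1 H₁)
            (s' := fun _ => I.powerset) (by tauto)]
          apply Finset.sum_congr rfl
          intro m _
          rw [Finset.sum_comm]
      _ = ∑ A ∈ I.powerset, if A.card ≤ k then (-1 : ℝ) ^ A.card * cA A * N A else 0 := by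
          apply Finset.sum_congr rfl
          intro A _
          by_cases hAk : A.card ≤ k
          · simp only [if_pos hAk]
            simp only [N, Finset.mul_sum]
            apply Finset.sum_congr rfl
            intro m _
            apply Finset.sum_congr rfl
            intro n _
            rw [mul_assoc]
            congr 1
            by_cases hall : ∀ i ∈ A, i.1 ∣ form3 i.2 m n
            · rw [if_pos hall, mul_one]
              apply Finset.prod_congr rfl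
              intro i hi
              rw [if_pos (hall i hi)]
            · rw [if_neg hall, mul_zero]
              push Not at hall
              obtain ⟨i, hi, hni⟩ := hall
              exact Finset.prod_eq_zero hi (if_neg hni)
          · simp [hAk]
  have step2 : ∀ A ∈ I.powerset,
      (if A.card ≤ k then (-1 : ℝ) ^ A.card * cA A * N A else 0) ≤
      H₁ * H₂ * ((-1 : ℝ) ^ A.card * cA A * ρ A + T ^ A.card * cA A * ρ A / T ^ k) +
        (if A.card ≤ k then ((H₁ : ℝ) + H₂ + 1) else 0) := by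
    intro A hA
    have hN : |N A - H₁ * H₂ * ρ A| ≤ H₁ + H₂ :=
      count_pair P hP A (Finset.mem_powerset.1 hA) H₁ H₂
    have hHH : (0 : ℝ) ≤ H₁ * H₂ := by positivity
    have hTk : 0 < T ^ k := by positivity
    have hx : 0 ≤ T ^ A.card * cA A * ρ A / T ^ k := by
      have := hcA0 A
      have := hρ0 A
      positivity
    by_cases hAk : A.card ≤ k
    · rw [if_pos hAk, if_pos hAk]
      have e1 : (-1 : ℝ) ^ A.card * cA A * N A =
          H₁ * H₂ * ((-1 : ℝ) ^ A.card * cA A * ρ A) +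
            ((-1 : ℝ) ^ A.card * cA A) * (N A - H₁ * H₂ * ρ A) := by ring
      have e2 : ((-1 : ℝ) ^ A.card * cA A) * (N A - H₁ * H₂ * ρ A) ≤ H₁ + H₂ := by
        calc _ ≤ |((-1 : ℝ) ^ A.card * cA A) * (N A - H₁ * H₂ * ρ A)| := le_abs_self _
          _ = cA A * |N A - H₁ * H₂ * ρ A| := by
            rw [abs_mul, abs_mul, abs_pow, abs_neg, abs_one, one_pow, one_mul,
              abs_of_nonneg (hcA0 A)]
          _ ≤ 1 * ((H₁ : ℝ) + H₂) := mul_le_mul (hcA1 A) hN (abs_nonneg _) zero_le_one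
          _ = H₁ + H₂ := one_mul _
      rw [e1, mul_add]
      have := mul_nonneg hHH hx
      linarith
    · rw [if_neg hAk, if_neg hAk, add_zero]
      apply mul_nonneg hHH
      push Not at hAk
      have e3 : 1 ≤ T ^ A.card / T ^ k := by
        rw [le_div_iff₀ hTk, one_mul]
        exact pow_le_pow_right₀ hT hAk.le
      have e4 : 0 ≤ cA A * ρ A := mul_nonneg (hcA0 A) (hρ0 A)
      have e5 : T ^ A.card * cA A * ρ A / T ^ k = (T ^ A.card / T ^ k) * (cA A * ρ A) := by ring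
      rw [e5, mul_assoc]
      have e6 : -1 ≤ (-1 : ℝ) ^ A.card := by
        rcases neg_one_pow_eq_or ℝ A.card with h | h <;> rw [h] <;> norm_num
      nlinarith [mul_nonneg (sub_nonneg.2 e3) e4, mul_nonneg (by linarith : (0 : ℝ) ≤ (-1) ^ A.card + 1) e4]
  have step3 : ∑ A ∈ I.powerset, (-1 : ℝ) ^ A.card * cA A * ρ A =
      ∏ p ∈ P, (1 + ((-c 0 p) + (-c 1 p) + (-c 2 p)) / p +
        ((-c 0 p) * (-c 1 p) + (-c 0 p) * (-c 2 p) + (-c 1 p) * (-c 2 p) +
          (-c 0 p) * (-c 1 p) * (-c 2 p)) / (p : ℝ) ^ 2) := by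
    have := sum_weights P (fun i => -c i.2 i.1)
    rw [← this]
    apply Finset.sum_congr rfl
    intro A _
    rw [Finset.prod_neg]
  have step4 : ∑ A ∈ I.powerset, T ^ A.card * cA A * ρ A =
      ∏ p ∈ P, (1 + ((T * c 0 p) + (T * c 1 p) + (T * c 2 p)) / p +
        ((T * c 0 p) * (T * c 1 p) + (T * c 0 p) * (T * c 2 p) + (T * c 1 p) * (T * c 2 p) +
          (T * c 0 p) * (T * c 1 p) * (T * c 2 p)) / (p : ℝ) ^ 2) := by
    have := sum_weights P (fun i => T * c i.2 i.1)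
    rw [← this]
    apply Finset.sum_congr rfl
    intro A _
    rw [Finset.prod_mul_distrib, Finset.prod_const]
  have step5 : ∏ p ∈ P, (1 + ((-c 0 p) + (-c 1 p) + (-c 2 p)) / p +
        ((-c 0 p) * (-c 1 p) + (-c 0 p) * (-c 2 p) + (-c 1 p) * (-c 2 p) +
          (-c 0 p) * (-c 1 p) * (-c 2 p)) / (p : ℝ) ^ 2) ≤
      ∏ p ∈ P, (1 - (c 0 p + c 1 p + c 2 p) / p + 3 / (p : ℝ) ^ 2) := by
    apply Finset.prod_le_prod
    · intro p hp
      have hp2 : (2 : ℝ) ≤ p := by exact_mod_cast (hP p hp).two_le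
      obtain ⟨a0, a1⟩ := hc 0 p
      obtain ⟨b0, b1⟩ := hc 1 p
      obtain ⟨d0, d1⟩ := hc 2 p
      set a := c 0 p
      set b := c 1 p
      set d := c 2 p
      have hu : (p : ℝ)⁻¹ ≤ 1 / 2 := by
        rw [one_div]
        exact inv_anti₀ (by norm_num) hp2
      have hu0 : (0 : ℝ) ≤ (p : ℝ)⁻¹ := by positivity
      have e : 1 + (-a + -b + -d) / (p : ℝ) +
        (-a * -b + -a * -d + -b * -d + -a * -b * -d) / (p : ℝ) ^ 2 =
        1 - (a + b + d) * (p : ℝ)⁻¹ + (a * b + a * d + b * d - a * b * d) * ((p : ℝ)⁻¹) ^ 2 := by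
        rw [div_eq_mul_inv, div_eq_mul_inv, inv_pow]
        ring
      rw [e]
      set u := (p : ℝ)⁻¹
      -- multilinear in a, b, d
      have m1 : 0 ≤ (1 - a) := by linarith
      have m2 : 0 ≤ (1 - b) := by linarith
      have m3 : 0 ≤ (1 - d) := by linarith
      have w1 : 0 ≤ 1 - u := by linarith
      have w2 : 0 ≤ 1 - 2 * u := by linarith
      have key : 1 - (a + b + d) * u + (a * b + a * d + b * d - a * b * d) * u ^ 2 =
          (1 - a) * (1 - b) * (1 - d) +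
          (a * (1 - b) * (1 - d) + (1 - a) * b * (1 - d) + (1 - a) * (1 - b) * d) * (1 - u) +
          (a * b * (1 - d) + a * (1 - b) * d + (1 - a) * b * d) * (1 - u) ^ 2 +
          a * b * d * ((1 - u) * (1 - 2 * u)) := by ring
      rw [key]
      positivity
    · intro p hp
      have hp2 : (2 : ℝ) ≤ p := by exact_mod_cast (hP p hp).two_le
      obtain ⟨a0, a1⟩ := hc 0 p
      obtain ⟨b0, b1⟩ := hc 1 p
      obtain ⟨d0, d1⟩ := hc 2 p
      set a := c 0 p
      set b := c 1 p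
      set d := c 2 p
      have e1 : -a * -b + -a * -d + -b * -d + -a * -b * -d ≤ 3 := by
        have h1 : a * b ≤ 1 := mul_le_one₀ a1 b0 b1
        have h2 : a * d ≤ 1 := mul_le_one₀ a1 d0 d1
        have h3 : b * d ≤ 1 := mul_le_one₀ b1 d0 d1
        have h4 : 0 ≤ a * b * d := by positivity
        linarith
      have e2 : (-a * -b + -a * -d + -b * -d + -a * -b * -d) / (p : ℝ) ^ 2 ≤ 3 / (p : ℝ) ^ 2 := by
        gcongr
      have e3 : (-a + -b + -d) / (p : ℝ) = - ((a + b + d) / p) := by ring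
      rw [e3]
      linarith
  have step6 : ∏ p ∈ P, (1 + ((T * c 0 p) + (T * c 1 p) + (T * c 2 p)) / p +
        ((T * c 0 p) * (T * c 1 p) + (T * c 0 p) * (T * c 2 p) + (T * c 1 p) * (T * c 2 p) +
          (T * c 0 p) * (T * c 1 p) * (T * c 2 p)) / (p : ℝ) ^ 2) ≤
      ∏ p ∈ P, (1 + 3 * T / p + 4 * T ^ 3 / (p : ℝ) ^ 2) := by
    have hT0 : 0 ≤ T := by linarith
    apply Finset.prod_le_prod
    · intro p _
      have := (hc 0 p).1
      have := (hc 1 p).1
      have := (hc 2 p).1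
      positivity
    · intro p hp
      obtain ⟨a0, a1⟩ := hc 0 p
      obtain ⟨b0, b1⟩ := hc 1 p
      obtain ⟨d0, d1⟩ := hc 2 p
      set a := T * c 0 p with ha
      set b := T * c 1 p with hb
      set d := T * c 2 p with hd
      have a0' : 0 ≤ a := mul_nonneg hT0 a0
      have b0' : 0 ≤ b := mul_nonneg hT0 b0
      have d0' : 0 ≤ d := mul_nonneg hT0 d0
      have a1' : a ≤ T := by nlinarith
      have b1' : b ≤ T := by nlinarith
      have d1' : d ≤ T := by nlinarith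
      have h1 : a * b ≤ T * T := mul_le_mul a1' b1' b0' hT0
      have h2 : a * d ≤ T * T := mul_le_mul a1' d1' d0' hT0
      have h3 : b * d ≤ T * T := mul_le_mul b1' d1' d0' hT0
      have h4 : a * b * d ≤ T * T * T := mul_le_mul h1 d1' d0' (by positivity)
      have h5 : T * T ≤ T * T * T := by nlinarith [mul_nonneg hT0 hT0]
      have e1 : a * b + a * d + b * d + a * b * d ≤ 4 * T ^ 3 := by
        have : T ^ 3 = T * T * T := by ring
        rw [this]
        linarith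
      have e2 : a + b + d ≤ 3 * T := by linarith
      gcongr
  have hHH : (0 : ℝ) ≤ H₁ * H₂ := by positivity
  have hTk : 0 < T ^ k := by positivity
  calc _ ≤ ∑ A ∈ I.powerset, if A.card ≤ k then (-1 : ℝ) ^ A.card * cA A * N A else 0 := step1
    _ ≤ ∑ A ∈ I.powerset,
        (H₁ * H₂ * ((-1 : ℝ) ^ A.card * cA A * ρ A + T ^ A.card * cA A * ρ A / T ^ k) +
        (if A.card ≤ k then ((H₁ : ℝ) + H₂ + 1) else 0)) := Finset.sum_le_sum step2
    _ = H₁ * H₂ * (∑ A ∈ I.powerset, (-1 : ℝ) ^ A.card * cA A * ρ A +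
          (∑ A ∈ I.powerset, T ^ A.card * cA A * ρ A) / T ^ k) +
        ((I.powerset.filter (fun A => A.card ≤ k)).card : ℝ) * ((H₁ : ℝ) + H₂ + 1) := by
        rw [Finset.sum_add_distrib, ← Finset.mul_sum, Finset.sum_add_distrib, ← Finset.sum_div,
          ← Finset.sum_filter, Finset.sum_const, nsmul_eq_mul]
    _ ≤ _ := by
        rw [step3, step4]
        have hcard : ((I.powerset.filter (fun A => A.card ≤ k)).card : ℝ) ≤
            (3 * (P.card : ℝ) + 1) ^ k := by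
          have h := card_powerset_small I k
          have hIc : I.card = 3 * P.card := by
            rw [hI, Finset.card_product]
            simp [mul_comm]
          rw [hIc] at h
          exact_mod_cast h
        have h0 : (0 : ℝ) ≤ (H₁ : ℝ) + H₂ + 1 := by positivity
        gcongr

end Pool.Agent.Lib.helper94.ANT
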