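import Mathlib

/-!
Definitions for MP_923662_nt (sets in which `a + b` never divides `a * b`).
-/

namespace Pool.Agent.Lib.helper94.ANT

/-- `L t = ⌊exp (exp t)⌋` -/
noncomputable def L (t : ℕ) : ℕ := ⌊Real.exp (Real.exp t)⌋₊

/-- completely multiplicative function with prescribed values at primes -/
noncomputable def cm (w : ℕ → ℝ) (n : ℕ) : ℝ := (n.primeFactorsList.map w).prod

/-- number of prime factors (with multiplicity) in `(a, b]` -/
def Om (a b n : ℕ) : ℕ := (n.primeFactorsList.filter (fun p => a < p ∧ p ≤ b)).length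

/-- all prime factors are larger than `z` -/
def Rough (z n : ℕ) : Prop := ∀ p, p.Prime → p ∣ n → z < p

/-- numbers `2 u`, `u` without prime factors `≤ L (4 v)` and with exactly `45 v` prime factors in
`(L (4 v), L (64 v)]` -/
def E0 (v : ℕ) : Set ℕ :=
  {x | ∃ u, x = 2 * u ∧ 1 ≤ u ∧ Rough (L (4 * v)) u ∧ Om (L (4 * v)) (L (64 * v)) u = 45 * v}

/-- elements of `E0 v` that are typical with respect to the larger primes -/
def E (C₀ v : ℕ) : Set ℕ :=
  {x | x ∈ E0 v ∧ ∀ j : ℕ, (Om (L (64 * v)) (L (64 * v + j)) x : ℝ) ≤ 51 / 50 * j + C₀}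

/-- neighbours of `E C₀ v` of comparable size -/
def Nb (K C₀ v : ℕ) : Set ℕ :=
  {y | 1 ≤ y ∧ ∃ x ∈ E C₀ v, x ≠ y ∧ x + y ∣ x * y ∧ x ≤ K * y ∧ y ≤ K * x}

/-! ### API for `cm` -/

theorem cm_one (w : ℕ → ℝ) : cm w 1 = 1 := by simp [cm]

theorem cm_mul (w : ℕ → ℝ) {a b : ℕ} (ha : a ≠ 0) (hb : b ≠ 0) :
    cm w (a * b) = cm w a * cm w b := by
  unfold cm
  rw [((Nat.perm_primeFactorsList_mul ha hb).map w).prod_eq, List.map_append, List.prod_append]

theorem cm_prime (w : ℕ → ℝ) {p : ℕ} (hp : p.Prime) : cm w p = w p := by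
  simp [cm, Nat.primeFactorsList_prime hp]

theorem cm_nonneg {w : ℕ → ℝ} (hw : ∀ p, 0 ≤ w p) (n : ℕ) : 0 ≤ cm w n := by
  unfold cm
  apply List.prod_nonneg
  intro x hx
  obtain ⟨p, -, rfl⟩ := List.mem_map.1 hx
  exact hw p

theorem cm_mul_weights (w w' : ℕ → ℝ) (n : ℕ) :
    cm (fun p => w p * w' p) n = cm w n * cm w' n := by
  unfold cm
  exact List.prod_map_mul

end Pool.Agent.Lib.helper94.ANT
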