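import Pool.Agent.Lib.helper94.ANT.Edges

/-!
Covering the neighbourhood of `E` by groups of edges.
-/

namespace Pool.Agent.Lib.helper94.ANT

open Finset

open Classical in
/-- the pairs `(m, n)` of group `t` -/
noncomputable def G (t K : ℕ) : Finset (ℕ × ℕ) :=
  ((Icc 1 (L (t + 1))) ×ˢ (Icc 1 (L (t + 1)))).filter (fun q => L t < q.1 + q.2 ∧
    q.1 + q.2 ≤ L (t + 1) ∧ q.1 ≤ K * q.2 ∧ q.2 ≤ K * q.1)

theorem mem_G {t K : ℕ} {q : ℕ × ℕ} : q ∈ G t K ↔ 1 ≤ q.1 ∧ 1 ≤ q.2 ∧ L t < q.1 + q.2 ∧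
    q.1 + q.2 ≤ L (t + 1) ∧ q.1 ≤ K * q.2 ∧ q.2 ≤ K * q.1 := by
  unfold G
  rw [Finset.mem_filter, Finset.mem_product, Finset.mem_Icc, Finset.mem_Icc]
  constructor
  · rintro ⟨⟨⟨h1, h2⟩, h3, h4⟩, h5, h6, h7, h8⟩
    exact ⟨h1, h3, h5, h6, h7, h8⟩
  · rintro ⟨h1, h3, h5, h6, h7, h8⟩
    exact ⟨⟨⟨h1, by omega⟩, h3, by omega⟩, h5, h6, h7, h8⟩

open Classical in
/-- the neighbours `≤ X` coming from group `t` -/
noncomputable def R (C₀ v K t X : ℕ) : Finset ℕ :=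
  (Icc 1 X).filter (fun y => ∃ k, 1 ≤ k ∧ ∃ q ∈ G t K, y = k * q.2 * (q.1 + q.2) ∧
    k * q.1 * (q.1 + q.2) ∈ E C₀ v)

theorem R_subset (C₀ v K t X : ℕ) : R C₀ v K t X ⊆ Icc 1 X := by
  classical
  intro y hy
  rw [R, Finset.mem_filter] at hy
  exact hy.1

theorem exists_group {v d : ℕ} (hd : L (4 * v) < d) : ∃ t, 4 * v ≤ t ∧ L t < d ∧ d ≤ L (t + 1) := by
  -- `L` is unbounded
  have h1 : ∃ t, d ≤ L t := by
    refine ⟨d, ?_⟩
    unfold L
    apply Nat.le_floor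
    have h2 : (d : ℝ) ≤ Real.exp d := by
      have := Real.add_one_le_exp (d : ℝ)
      linarith
    have h3 : Real.exp (d : ℝ) ≤ Real.exp (Real.exp d) := Real.exp_le_exp.2 h2
    linarith
  classical
  have h2 := Nat.find_spec h1
  set T := Nat.find h1 with hT
  have h3 : 4 * v < T := by
    by_contra hcon
    push Not at hcon
    exact absurd (h2.trans (L_mono hcon)) (not_le.2 hd)
  refine ⟨T - 1, by omega, ?_, ?_⟩
  · by_contra hcon
    push Not at hcon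
    exact Nat.find_min h1 (m := T - 1) (by omega) hcon
  · rw [Nat.sub_add_cancel (by omega)]
    exact h2

/-- every neighbour is in some group -/
theorem Nb_cover {C₀ v K y X : ℕ} (hy : y ∈ Nb K C₀ v) (hX : y ≤ X) :
    ∃ t, 4 * v ≤ t ∧ L t < X ∧ y ∈ R C₀ v K t X := by
  classical
  obtain ⟨hy1, x, hx, hxy, hdvd, hxK, hyK⟩ := hy
  have hx1 : 1 ≤ x := E0_pos hx.1
  obtain ⟨k, m, n, hk, hm, hn, hmn, hxe, hye⟩ := edge_structure hx1 hy1 hxy hdvd
  have hd : L (4 * v) < m + n := by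
    apply E0_dvd hx.1 (by omega)
    rw [hxe]
    exact Dvd.intro_left _ rfl
  obtain ⟨t, ht1, ht2, ht3⟩ := exists_group hd
  have hdy : m + n ≤ y := by
    rw [hye]
    exact Nat.le_mul_of_pos_left _ (by positivity)
  refine ⟨t, ht1, by omega, ?_⟩
  unfold R
  rw [Finset.mem_filter, Finset.mem_Icc]
  refine ⟨⟨hy1, hX⟩, k, hk, (m, n), ?_, hye, ?_⟩
  · rw [mem_G]
    have hkd : 0 < k * (m + n) := by positivity
    refine ⟨hm, hn, ht2, ht3, ?_, ?_⟩
    · apply Nat.le_of_mul_le_mul_left _ hkd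
      calc k * (m + n) * m = x := by rw [hxe]; ring
        _ ≤ K * y := hxK
        _ = k * (m + n) * (K * n) := by rw [hye]; ring
    · apply Nat.le_of_mul_le_mul_left _ hkd
      calc k * (m + n) * n = y := by rw [hye]; ring
        _ ≤ K * x := hyK
        _ = k * (m + n) * (K * m) := by rw [hxe]; ring
  · rw [← hxe]
    exact hx

theorem sum_Nb_le {C₀ v K X : ℕ} (s : Finset ℕ) (hs : ∀ y ∈ s, y ∈ Nb K C₀ v ∧ y ≤ X)
    (T : ℕ) (hT : ∀ t, L t < X → t < T) :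
    ∑ y ∈ s, (1 : ℝ) / y ≤ ∑ t ∈ (range T).filter (fun t => 4 * v ≤ t ∧ L t < X),
      ∑ y ∈ R C₀ v K t X, (1 : ℝ) / y := by
  classical
  set I := (range T).filter (fun t => 4 * v ≤ t ∧ L t < X) with hI
  have h1 : ∀ y ∈ s, (1 : ℝ) / y ≤ ∑ t ∈ I, if y ∈ R C₀ v K t X then (1 : ℝ) / y else 0 := by
    intro y hy
    obtain ⟨t, ht1, ht2, ht3⟩ := Nb_cover (hs y hy).1 (hs y hy).2
    have h2 : t ∈ I := by
      rw [hI, Finset.mem_filter, Finset.mem_range]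
      exact ⟨hT t ht2, ht1, ht2⟩
    have h3 := Finset.single_le_sum (f := fun t => if y ∈ R C₀ v K t X then (1 : ℝ) / y else 0)
      (fun t _ => by positivity) h2
    simp only [if_pos ht3] at h3
    exact h3
  calc ∑ y ∈ s, (1 : ℝ) / y
      ≤ ∑ y ∈ s, ∑ t ∈ I, if y ∈ R C₀ v K t X then (1 : ℝ) / y else 0 := Finset.sum_le_sum h1
    _ = ∑ t ∈ I, ∑ y ∈ s, if y ∈ R C₀ v K t X then (1 : ℝ) / y else 0 := Finset.sum_comm
    _ ≤ ∑ t ∈ I, ∑ y ∈ R C₀ v K t X, (1 : ℝ) / y := by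
        apply Finset.sum_le_sum
        intro t _
        rw [← Finset.sum_filter]
        apply Finset.sum_le_sum_of_subset_of_nonneg
        · intro y hy
          exact (Finset.mem_filter.1 hy).2
        · intro y _ _
          positivity

/-- the basic estimate -/
theorem edge_sum {C₀ v K t X : ℕ} {u w : ℕ → ℝ} (hu : ∀ p, 0 ≤ u p) (hw : ∀ p, 0 ≤ w p)
    {A : ℝ} (hA : 0 ≤ A) (hAx : ∀ x ∈ E C₀ v, 1 ≤ A * cm u x) :
    ∑ y ∈ R C₀ v K t X, cm w y / y ≤ A * (∑ k ∈ Icc 1 X, cm (fun p => u p * w p) k / k) *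
      ∑ q ∈ G t K, cm u q.1 * cm w q.2 * cm (fun p => u p * w p) (q.1 + q.2) /
        (q.2 * (q.1 + q.2 : ℕ)) := by
  classical
  set φ : ℕ × (ℕ × ℕ) → ℕ := fun τ => τ.1 * τ.2.2 * (τ.2.1 + τ.2.2) with hφ
  set F : ℕ → ℝ := fun y => cm w y / y with hF
  have hF0 : ∀ y, 0 ≤ F y := fun y => div_nonneg (cm_nonneg hw y) (Nat.cast_nonneg y)
  set T : Finset (ℕ × (ℕ × ℕ)) := ((Icc 1 X) ×ˢ (G t K)).filter
    (fun τ => τ.1 * τ.2.1 * (τ.2.1 + τ.2.2) ∈ E C₀ v) with hTdef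
  have huw : ∀ p, 0 ≤ u p * w p := fun p => mul_nonneg (hu p) (hw p)
  -- `R` is contained in the image
  have h1 : R C₀ v K t X ⊆ T.image φ := by
    intro y hy
    unfold R at hy
    rw [Finset.mem_filter, Finset.mem_Icc] at hy
    obtain ⟨⟨hy1, hyX⟩, k, hk, q, hq, hyq, hE⟩ := hy
    rw [Finset.mem_image]
    refine ⟨(k, q), ?_, hyq.symm⟩
    rw [hTdef, Finset.mem_filter, Finset.mem_product, Finset.mem_Icc]
    refine ⟨⟨⟨hk, ?_⟩, hq⟩, hE⟩
    have h2 := mem_G.1 hq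
    have h3 : k ≤ y := by
      rw [hyq, mul_assoc]
      exact Nat.le_mul_of_pos_right _ (by have := h2.2.1; positivity)
    omega
  have h2 : ∑ y ∈ R C₀ v K t X, F y ≤ ∑ τ ∈ T, F (φ τ) := by
    calc ∑ y ∈ R C₀ v K t X, F y ≤ ∑ y ∈ T.image φ, F y :=
          Finset.sum_le_sum_of_subset_of_nonneg h1 (fun _ _ _ => hF0 _)
      _ ≤ ∑ y ∈ T.image φ, ∑ τ ∈ T.filter (fun τ => φ τ = y), F (φ τ) := by
          apply Finset.sum_le_sum
          intro y hy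
          obtain ⟨τ, hτ, hτy⟩ := Finset.mem_image.1 hy
          have h3 : τ ∈ T.filter (fun τ => φ τ = y) := Finset.mem_filter.2 ⟨hτ, hτy⟩
          calc F y = F (φ τ) := by rw [hτy]
            _ ≤ _ := Finset.single_le_sum (f := fun τ => F (φ τ)) (fun _ _ => hF0 _) h3
      _ = ∑ τ ∈ T, F (φ τ) := by
          apply Finset.sum_fiberwise_of_maps_to
          intro τ hτ
          exact Finset.mem_image_of_mem φ hτ
  refine h2.trans ?_
  -- pointwise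
  set a : ℕ → ℝ := fun k => cm (fun p => u p * w p) k / k with ha
  set b : ℕ × ℕ → ℝ := fun q => cm u q.1 * cm w q.2 * cm (fun p => u p * w p) (q.1 + q.2) /
        (q.2 * (q.1 + q.2 : ℕ)) with hb
  have ha0 : ∀ k, 0 ≤ a k := fun k => div_nonneg (cm_nonneg huw k) (Nat.cast_nonneg k)
  have hb0 : ∀ q, 0 ≤ b q := fun q => div_nonneg (mul_nonneg (mul_nonneg (cm_nonneg hu _)
    (cm_nonneg hw _)) (cm_nonneg huw _)) (by positivity)
  have h3 : ∀ τ ∈ T, F (φ τ) ≤ A * (a τ.1 * b τ.2) := by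
    rintro ⟨k, m, n⟩ hτ
    rw [hTdef, Finset.mem_filter, Finset.mem_product, Finset.mem_Icc] at hτ
    obtain ⟨⟨⟨hk, -⟩, hq⟩, hE⟩ := hτ
    have hq' := mem_G.1 hq
    simp only at hE hq' hk
    have hm1 := hq'.1
    have hn1 := hq'.2.1
    have hk0 : k ≠ 0 := by omega
    have hm0 : m ≠ 0 := by omega
    have hn0 : n ≠ 0 := by omega
    have hd0 : m + n ≠ 0 := by omega
    have h4 := hAx _ hE
    have h5 : cm u (k * m * (m + n)) = cm u k * cm u m * cm u (m + n) := by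
      rw [cm_mul _ (by positivity) hd0, cm_mul _ hk0 hm0]
    have h6 : cm w (k * n * (m + n)) = cm w k * cm w n * cm w (m + n) := by
      rw [cm_mul _ (by positivity) hd0, cm_mul _ hk0 hn0]
    have h7 : (0 : ℝ) < k * n * (m + n) := by positivity
    calc F (φ (k, m, n)) = cm w (k * n * (m + n)) / ((k * n * (m + n) : ℕ) : ℝ) := rfl
      _ ≤ (A * cm u (k * m * (m + n))) * (cm w (k * n * (m + n)) /
          ((k * n * (m + n) : ℕ) : ℝ)) :=
          le_mul_of_one_le_left (hF0 _) h4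
      _ = A * (a k * b (m, n)) := by
          simp only [ha, hb]
          rw [h5, h6, cm_mul_weights, cm_mul_weights]
          push_cast
          field_simp
  calc ∑ τ ∈ T, F (φ τ) ≤ ∑ τ ∈ T, A * (a τ.1 * b τ.2) := Finset.sum_le_sum h3
    _ ≤ ∑ τ ∈ (Icc 1 X) ×ˢ (G t K), A * (a τ.1 * b τ.2) := by
        apply Finset.sum_le_sum_of_subset_of_nonneg (Finset.filter_subset _ _)
        intro τ _ _
        exact mul_nonneg hA (mul_nonneg (ha0 _) (hb0 _))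
    _ = A * (∑ k ∈ Icc 1 X, a k) * ∑ q ∈ G t K, b q := by
        rw [← Finset.mul_sum, mul_assoc, Finset.sum_mul_sum, Finset.sum_product]

end Pool.Agent.Lib.helper94.ANT
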