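import Pool.Agent.Lib.helper94.ANT.Weights

/-!
Structure of the pairs `x, y` with `x + y ∣ x * y`.
-/

namespace Pool.Agent.Lib.helper94.ANT

open Finset

theorem edge_structure {x y : ℕ} (hx : 1 ≤ x) (hy : 1 ≤ y) (hxy : x ≠ y) (h : x + y ∣ x * y) :
    ∃ k m n, 1 ≤ k ∧ 1 ≤ m ∧ 1 ≤ n ∧ m ≠ n ∧ x = k * m * (m + n) ∧ y = k * n * (m + n) := by
  obtain ⟨g, m, n, hg, hcop, hxm, hyn⟩ := Nat.exists_coprime' (m := x) (n := y)
    (Nat.gcd_pos_of_pos_left y hx)
  have hm : 1 ≤ m := by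
    rcases Nat.eq_zero_or_pos m with rfl | h
    · rw [zero_mul] at hxm
      omega
    · exact h
  have hn : 1 ≤ n := by
    rcases Nat.eq_zero_or_pos n with rfl | h
    · rw [zero_mul] at hyn
      omega
    · exact h
  have h1 : (m + n) ∣ g * (m * n) := by
    rw [hxm, hyn] at h
    have h2 : g * (m + n) ∣ g * (g * (m * n)) := by
      convert h using 1 <;> ring
    exact Nat.dvd_of_mul_dvd_mul_left hg h2
  have h2 : Nat.Coprime (m + n) (m * n) := by
    apply Nat.Coprime.mul_right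
    · rw [Nat.coprime_self_add_left] 
      exact hcop.symm
    · rw [Nat.coprime_add_self_left]
      exact hcop
  obtain ⟨k, hk⟩ := h2.dvd_of_dvd_mul_right h1
  refine ⟨k, m, n, ?_, hm, hn, ?_, ?_, ?_⟩
  · rcases Nat.eq_zero_or_pos k with rfl | h
    · rw [mul_zero] at hk
      omega
    · exact h
  · rintro rfl
    exact hxy (hxm.trans hyn.symm)
  · rw [hxm, hk]
    ring
  · rw [hyn, hk]
    ring

theorem E0_pos {v x : ℕ} (h : x ∈ E0 v) : 1 ≤ x := by
  obtain ⟨u, rfl, hu, -, -⟩ := h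
  omega

/-- prime divisors of elements of `E0 v` -/
theorem E0_prime {v x p : ℕ} (h : x ∈ E0 v) (hp : p.Prime) (hpx : p ∣ x) :
    p = 2 ∨ L (4 * v) < p := by
  obtain ⟨u, rfl, hu, hr, -⟩ := h
  rcases (Nat.Prime.dvd_mul hp).1 hpx with h1 | h1
  · left
    exact (Nat.prime_dvd_prime_iff_eq hp Nat.prime_two).1 h1
  · right
    exact hr p hp h1

theorem E0_four {v x : ℕ} (h : x ∈ E0 v) : ¬ 4 ∣ x := by
  obtain ⟨u, rfl, hu, hr, -⟩ := h
  intro h4
  have h2 : 2 ∣ u := by omega
  have := hr 2 Nat.prime_two h2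
  have := two_le_L (4 * v)
  omega

/-- every divisor `≥ 3` of an element of `E0 v` is large -/
theorem E0_dvd {v x d : ℕ} (h : x ∈ E0 v) (hd : 3 ≤ d) (hdx : d ∣ x) : L (4 * v) < d := by
  -- find an odd prime factor
  have key : ∃ p, p.Prime ∧ p ∣ d ∧ p ≠ 2 := by
    by_contra hcon
    push Not at hcon
    have h1 : d = 2 ^ d.primeFactorsList.length := by
      apply Nat.eq_prime_pow_of_unique_prime_dvd (by omega)
      intro q hq hqd
      exact hcon q hq hqd
    rcases hl : d.primeFactorsList.length with _ | _ | l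
    · rw [hl] at h1
      omega
    · rw [hl] at h1
      omega
    · rw [hl] at h1
      apply E0_four h
      refine dvd_trans ?_ hdx
      rw [h1, pow_succ, pow_succ]
      exact ⟨2 ^ l, by ring⟩
  obtain ⟨p, hp, hpd, hp2⟩ := key
  rcases E0_prime h hp (hpd.trans hdx) with h1 | h1
  · exact absurd h1 hp2
  · exact lt_of_lt_of_le h1 (Nat.le_of_dvd (by omega) hpd)

/-- `Om` of `x ∈ E0 v` in the first range -/
theorem E0_Om {v x : ℕ} (h : x ∈ E0 v) : Om (L (4 * v)) (L (64 * v)) x = 45 * v := by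
  obtain ⟨u, rfl, hu, hr, ho⟩ := h
  rw [Om_mul (by norm_num) (by omega), ho]
  have : Om (L (4 * v)) (L (64 * v)) 2 = 0 := by
    unfold Om
    rw [Nat.primeFactorsList_prime Nat.prime_two]
    have := two_le_L (4 * v)
    rw [List.filter_cons_of_neg]
    · rfl
    · simp only [decide_eq_true_eq]
      omega
  rw [this, zero_add]

end Pool.Agent.Lib.helper94.ANT
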