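import Pool.Agent.Lib.helper94.ANT.Edges

/-!
The sets of integers with all prime factors in `(P, Q]` and exactly `r` prime factors.
-/

namespace Pool.Agent.Lib.helper94.ANT

open Finset

/-- comparison of sums along a covering map -/
theorem sum_le_sum_cover {α β : Type*} (s : Finset α) (T : Finset β) (φ : β → α)
    (g : α → ℝ) (h : β → ℝ) (hh : ∀ τ ∈ T, 0 ≤ h τ)
    (hc : ∀ x ∈ s, ∃ τ ∈ T, φ τ = x ∧ g x ≤ h τ) : ∑ x ∈ s, g x ≤ ∑ τ ∈ T, h τ := by
  classical
  calc ∑ x ∈ s, g x ≤ ∑ x ∈ s, ∑ τ ∈ T with φ τ = x, h τ := by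
        apply Finset.sum_le_sum
        intro x hx
        obtain ⟨τ, hτ, hφ, hg⟩ := hc x hx
        refine hg.trans ?_
        exact Finset.single_le_sum (f := h) (fun τ hτ => hh τ (Finset.mem_filter.1 hτ).1)
          (Finset.mem_filter.2 ⟨hτ, hφ⟩)
    _ = ∑ τ ∈ T with φ τ ∈ s, h τ := by
        rw [← Finset.sum_fiberwise_of_maps_to (s := T.filter (fun τ => φ τ ∈ s)) (t := s) (g := φ)
          (fun τ hτ => (Finset.mem_filter.1 hτ).2)]
        apply Finset.sum_congr rfl
        intro x hx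
        apply Finset.sum_congr _ (fun _ _ => rfl)
        ext τ
        simp only [Finset.mem_filter]
        constructor
        · rintro ⟨h1, h2⟩
          exact ⟨⟨h1, h2 ▸ hx⟩, h2⟩
        · rintro ⟨⟨h1, _⟩, h2⟩
          exact ⟨h1, h2⟩
    _ ≤ ∑ τ ∈ T, h τ := Finset.sum_le_sum_of_subset_of_nonneg (Finset.filter_subset _ _)
        (fun τ hτ _ => hh τ hτ)

/-- integers with exactly `r` prime factors, all in `(P, Q]` -/
def InA (P Q r a : ℕ) : Prop :=
  1 ≤ a ∧ (∀ p, p.Prime → p ∣ a → P < p ∧ p ≤ Q) ∧ a.primeFactorsList.length = r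

theorem InA.le {P Q r a : ℕ} (h : InA P Q r a) : a ≤ Q ^ r := by
  obtain ⟨h1, h2, h3⟩ := h
  rw [← h3]
  conv_lhs => rw [← Nat.prod_primeFactorsList (by omega : a ≠ 0)]
  apply List.prod_le_pow_card
  intro p hp
  exact (h2 p (Nat.prime_of_mem_primeFactorsList hp) (Nat.dvd_of_mem_primeFactorsList hp)).2

open Classical in
/-- the finite set of such integers -/
noncomputable def setA (P Q r : ℕ) : Finset ℕ := (Icc 1 (Q ^ r)).filter (InA P Q r)

theorem mem_setA {P Q r a : ℕ} : a ∈ setA P Q r ↔ InA P Q r a := by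
  classical
  rw [setA, Finset.mem_filter, Finset.mem_Icc]
  exact ⟨fun h => h.2, fun h => ⟨⟨h.1, h.le⟩, h⟩⟩

/-- sum of reciprocals -/
noncomputable def hA (P Q r : ℕ) : ℝ := ∑ a ∈ setA P Q r, (1 : ℝ) / a

theorem hA_zero (P Q : ℕ) : hA P Q 0 = 1 := by
  have : setA P Q 0 = {1} := by
    ext a
    rw [mem_setA, Finset.mem_singleton]
    constructor
    · rintro ⟨h1, _, h3⟩
      have h4 := Nat.prod_primeFactorsList (by omega : a ≠ 0)
      rw [List.length_eq_zero_iff.1 h3] at h4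
      simpa using h4.symm
    · rintro rfl
      refine ⟨le_refl _, ?_, by simp⟩
      intro p hp hp1
      exact absurd (Nat.dvd_one.1 hp1) hp.one_lt.ne'
  unfold hA
  rw [this]
  simp

theorem hA_nonneg (P Q r : ℕ) : 0 ≤ hA P Q r :=
  Finset.sum_nonneg (fun _ _ => by positivity)

theorem hA_succ {P Q : ℕ} (hPQ : P ≤ Q) (r : ℕ) :
    (S Q - S P) * hA P Q r ≤ (r + 1) * hA P Q (r + 1) := by
  classical
  -- primes in the range
  have h1 : S Q - S P = ∑ p ∈ (Nat.primesLE Q).filter (fun p => P < p), (1 : ℝ) / p := by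
    unfold S
    rw [← Finset.sum_filter_add_sum_filter_not (Nat.primesLE Q) (fun p => P < p)]
    have : (Nat.primesLE Q).filter (fun p => ¬ P < p) = Nat.primesLE P := by
      ext p
      rw [Finset.mem_filter, Nat.mem_primesLE, Nat.mem_primesLE]
      constructor
      · rintro ⟨⟨h1, h2⟩, h3⟩
        exact ⟨not_lt.1 h3, h2⟩
      · rintro ⟨h1, h2⟩
        exact ⟨⟨h1.trans hPQ, h2⟩, not_lt.2 h1⟩
    rw [this]
    ring
  rw [h1]
  unfold hA
  rw [Finset.sum_mul_sum, ← Finset.sum_product']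
  -- compare with pairs `(b, p)`
  set T := (setA P Q (r + 1)).sigma (fun b => b.primeFactors) with hT
  have h2 : ∑ x ∈ (Nat.primesLE Q).filter (fun p => P < p) ×ˢ setA P Q r,
      1 / (x.1 : ℝ) * (1 / (x.2 : ℝ)) ≤ ∑ τ ∈ T, (1 : ℝ) / (τ.1 : ℝ) := by
    apply sum_le_sum_cover _ _ (fun τ => (τ.2, τ.1 / τ.2))
    · intro τ _
      positivity
    · rintro ⟨p, a⟩ hx
      rw [Finset.mem_product, Finset.mem_filter, Nat.mem_primesLE, mem_setA] at hx
      obtain ⟨⟨⟨hpQ, hp⟩, hPp⟩, ha⟩ := hx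
      simp only at hpQ hp hPp ha
      have ha0 : a ≠ 0 := by have := ha.1; omega
      refine ⟨⟨p * a, p⟩, ?_, ?_, ?_⟩
      · rw [hT, Finset.mem_sigma, mem_setA, Nat.mem_primeFactors]
        refine ⟨⟨?_, ?_, ?_⟩, hp, dvd_mul_right _ _, Nat.mul_ne_zero hp.ne_zero ha0⟩
        · exact Nat.mul_pos hp.pos ha.1
        · intro q hq hqd
          rcases (Nat.Prime.dvd_mul hq).1 hqd with h | h
          · rw [(Nat.prime_dvd_prime_iff_eq hq hp).1 h]
            exact ⟨hPp, hpQ⟩
          · exact ha.2.1 q hq h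
        · rw [(Nat.perm_primeFactorsList_mul hp.ne_zero ha0).length_eq, List.length_append,
            Nat.primeFactorsList_prime hp, ha.2.2]
          simp
          omega
      · simp only [Prod.mk.injEq, true_and]
        exact Nat.mul_div_cancel_left a hp.pos
      · simp only
        push_cast
        have : (p : ℝ) ≠ 0 := by exact_mod_cast hp.ne_zero
        have : (a : ℝ) ≠ 0 := by exact_mod_cast ha0
        apply le_of_eq
        field_simp
  refine h2.trans ?_
  rw [hT, Finset.sum_sigma, Finset.mul_sum]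
  apply Finset.sum_le_sum
  intro b hb
  rw [mem_setA] at hb
  simp only [Finset.sum_const, nsmul_eq_mul]
  apply mul_le_mul_of_nonneg_right _ (by positivity)
  have h3 : b.primeFactors.card ≤ b.primeFactorsList.length := by
    unfold Nat.primeFactors
    exact List.toFinset_card_le _
  rw [hb.2.2] at h3
  exact_mod_cast h3

theorem hA_ge {P Q : ℕ} (hPQ : P ≤ Q) (r : ℕ) :
    (S Q - S P) ^ r / (r.factorial : ℝ) ≤ hA P Q r := by
  have h0 : 0 ≤ S Q - S P := sub_nonneg.2 (S_mono hPQ)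
  induction r with
  | zero => simp [hA_zero]
  | succ r ih =>
    have h1 := hA_succ hPQ r
    have h2 : (S Q - S P) * ((S Q - S P) ^ r / (r.factorial : ℝ)) ≤
        (S Q - S P) * hA P Q r := mul_le_mul_of_nonneg_left ih h0
    have h3 : (0 : ℝ) < r + 1 := by positivity
    rw [Nat.factorial_succ]
    push_cast
    rw [div_le_iff₀ (by positivity)]
    have h4 : (S Q - S P) ^ (r + 1) = (S Q - S P) * ((S Q - S P) ^ r / (r.factorial : ℝ)) *
        (r.factorial : ℝ) := by
      field_simp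
      ring
    rw [h4]
    calc (S Q - S P) * ((S Q - S P) ^ r / (r.factorial : ℝ)) * (r.factorial : ℝ)
        ≤ ((r + 1) * hA P Q (r + 1)) * (r.factorial : ℝ) :=
          mul_le_mul_of_nonneg_right (h2.trans h1) (by positivity)
      _ = _ := by ring

/-- decomposition into the smooth and the rough part -/
theorem exists_decomp (z : ℕ) : ∀ u : ℕ, 1 ≤ u → ∃ a c, u = a * c ∧ 1 ≤ a ∧ 1 ≤ c ∧
    (∀ p, p.Prime → p ∣ a → p ≤ z) ∧ Rough z c := by
  intro u
  induction u using Nat.strong_induction_on with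
  | _ u ih =>
    intro hu
    by_cases h1 : u = 1
    · subst h1
      refine ⟨1, 1, rfl, le_refl _, le_refl _, ?_, ?_⟩
      · intro p hp h
        exact absurd (Nat.dvd_one.1 h) hp.one_lt.ne'
      · intro p hp h
        exact absurd (Nat.dvd_one.1 h) hp.one_lt.ne'
    · obtain ⟨p, hp, hpu⟩ := Nat.exists_prime_and_dvd h1
      obtain ⟨w, hw⟩ := hpu
      have hw1 : 1 ≤ w := by
        rcases Nat.eq_zero_or_pos w with rfl | h
        · rw [mul_zero] at hw
          omega
        · exact h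
      have hwu : w < u := by
        rw [hw]
        exact lt_mul_of_one_lt_left (by omega) hp.one_lt
      obtain ⟨a, c, h2, ha, hc, h3, h4⟩ := ih w hwu hw1
      by_cases hpz : p ≤ z
      · refine ⟨p * a, c, by rw [hw, h2]; ring, Nat.mul_pos hp.pos ha, hc, ?_, h4⟩
        intro q hq hqd
        rcases (Nat.Prime.dvd_mul hq).1 hqd with h | h
        · rw [(Nat.prime_dvd_prime_iff_eq hq hp).1 h]
          exact hpz
        · exact h3 q hq h
      · refine ⟨a, p * c, by rw [hw, h2]; ring, ha, Nat.mul_pos hp.pos hc, h3, ?_⟩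
        intro q hq hqd
        rcases (Nat.Prime.dvd_mul hq).1 hqd with h | h
        · rw [(Nat.prime_dvd_prime_iff_eq hq hp).1 h]
          exact not_le.1 hpz
        · exact h4 q hq h

theorem Om_rough {P Q c : ℕ} (h : Rough Q c) : Om P Q c = 0 := by
  unfold Om
  rw [List.length_eq_zero_iff, List.filter_eq_nil_iff]
  intro p hp
  have := h p (Nat.prime_of_mem_primeFactorsList hp) (Nat.dvd_of_mem_primeFactorsList hp)
  simp only [decide_eq_true_eq, not_and, not_le]
  intro _
  exact this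

theorem Om_full {P Q a : ℕ} (h : ∀ p, p.Prime → p ∣ a → P < p ∧ p ≤ Q) :
    Om P Q a = a.primeFactorsList.length := by
  unfold Om
  congr 1
  rw [List.filter_eq_self]
  intro p hp
  simp only [decide_eq_true_eq]
  exact h p (Nat.prime_of_mem_primeFactorsList hp) (Nat.dvd_of_mem_primeFactorsList hp)

theorem Om_above {P Q a : ℕ} (h : ∀ p, p.Prime → p ∣ a → p ≤ P) : Om P Q a = 0 := by
  unfold Om
  rw [List.length_eq_zero_iff, List.filter_eq_nil_iff]
  intro p hp
  have := h p (Nat.prime_of_mem_primeFactorsList hp) (Nat.dvd_of_mem_primeFactorsList hp)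
  simp only [decide_eq_true_eq, not_and, not_le]
  intro h'
  omega

/-- parametrisation of `E0 v` -/
theorem mem_E0_iff {v x : ℕ} : x ∈ E0 v ↔ ∃ a c, x = 2 * (a * c) ∧
    InA (L (4 * v)) (L (64 * v)) (45 * v) a ∧ 1 ≤ c ∧ Rough (L (64 * v)) c := by
  have hPM : L (4 * v) ≤ L (64 * v) := L_mono (by omega)
  constructor
  · rintro ⟨u, rfl, hu, hr, ho⟩
    obtain ⟨a, c, h2, ha, hc, h3, h4⟩ := exists_decomp (L (64 * v)) u hu
    have h5 : ∀ p, p.Prime → p ∣ a → L (4 * v) < p ∧ p ≤ L (64 * v) := by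
      intro p hp hpa
      refine ⟨hr p hp ?_, h3 p hp hpa⟩
      rw [h2]
      exact Dvd.dvd.mul_right hpa c
    refine ⟨a, c, by rw [h2], ⟨ha, h5, ?_⟩, hc, h4⟩
    rw [h2, Om_mul (by omega) (by omega), Om_rough h4, Om_full h5] at ho
    omega
  · rintro ⟨a, c, rfl, ⟨ha, h5, h6⟩, hc, h4⟩
    refine ⟨a * c, rfl, Nat.mul_pos ha hc, ?_, ?_⟩
    · intro p hp hpd
      rcases (Nat.Prime.dvd_mul hp).1 hpd with h | h
      · exact (h5 p hp h).1
      · exact lt_of_le_of_lt hPM (h4 p hp h)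
    · rw [Om_mul (by omega) (by omega), Om_rough h4, Om_full h5, h6]
      omega

/-- uniqueness of the decomposition -/
theorem decomp_unique {z a c a' c' : ℕ} (ha : 1 ≤ a) (ha' : 1 ≤ a')
    (h1 : ∀ p, p.Prime → p ∣ a → p ≤ z) (h1' : ∀ p, p.Prime → p ∣ a' → p ≤ z)
    (h2 : Rough z c) (h2' : Rough z c') (h : a * c = a' * c') : a = a' ∧ c = c' := by
  have key : ∀ a c : ℕ, (∀ p, p.Prime → p ∣ a → p ≤ z) → Rough z c → Nat.Coprime a c := by
    intro a c h3 h4
    apply Nat.coprime_of_dvd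
    intro p hp hpa hpc
    exact absurd (h3 p hp hpa) (not_le.2 (h4 p hp hpc))
  have h3 : a ∣ a' := (key a c' h1 h2').dvd_of_dvd_mul_right (h ▸ dvd_mul_right a c)
  have h4 : a' ∣ a := (key a' c h1' h2).dvd_of_dvd_mul_right (h ▸ dvd_mul_right a' c')
  have h5 := Nat.dvd_antisymm h3 h4
  subst h5
  exact ⟨rfl, Nat.eq_of_mul_eq_mul_left (by omega) h⟩

end Pool.Agent.Lib.helper94.ANT
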