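import Pool.Agent.Lib.helper94.ANT.Brun
import Pool.Agent.Lib.helper94.ANT.Mertens

/-!
Sieve bound in boxes and dyadic decomposition.
-/

namespace Pool.Agent.Lib.helper94.ANT

open Finset

theorem sum_inv_sq_aux (n : ℕ) (hn : 1 ≤ n) :
    ∑ k ∈ Icc 2 n, (1 : ℝ) / (k : ℝ) ^ 2 ≤ 1 - 1 / n := by
  induction n, hn using Nat.le_induction with
  | base => simp
  | succ n hn ih =>
    rw [Finset.sum_Icc_succ_top (by omega)]
    have hn0 : (0 : ℝ) < n := by exact_mod_cast hn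
    have key : (1 : ℝ) / ((n + 1 : ℕ) : ℝ) ^ 2 ≤ 1 / n - 1 / ((n + 1 : ℕ) : ℝ) := by
      push_cast
      rw [div_sub_div _ _ hn0.ne' (by positivity), div_le_div_iff₀ (by positivity) (by positivity)]
      nlinarith
    linarith

theorem sum_inv_sq_primes (n : ℕ) : ∑ p ∈ Nat.primesLE n, (1 : ℝ) / (p : ℝ) ^ 2 ≤ 1 := by
  rcases Nat.eq_zero_or_pos n with rfl | hn
  · simp
  have h1 : ∑ p ∈ Nat.primesLE n, (1 : ℝ) / (p : ℝ) ^ 2 ≤ ∑ k ∈ Icc 2 n, (1 : ℝ) / (k : ℝ) ^ 2 := by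
    rw [Nat.primesLE_eq_filter_Icc_two]
    apply Finset.sum_le_sum_of_subset_of_nonneg (Finset.filter_subset _ _)
    intro k _ _
    positivity
  have h2 := sum_inv_sq_aux n hn
  have h3 : 0 ≤ (1 : ℝ) / n := by positivity
  linarith

theorem cm_le_prod {w : ℕ → ℝ} (hw : ∀ p, 0 ≤ w p ∧ w p ≤ 1) {P : Finset ℕ}
    (hP : ∀ p ∈ P, p.Prime) {m : ℕ} (hm : m ≠ 0) :
    cm w m ≤ ∏ p ∈ P, (if p ∣ m then w p else 1) := by
  unfold cm
  rw [Finset.prod_list_map_count]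
  have hsub : P.filter (fun p => p ∣ m) ⊆ m.primeFactorsList.toFinset := by
    intro p hp
    rw [Finset.mem_filter] at hp
    rw [List.mem_toFinset, Nat.mem_primeFactorsList hm]
    exact ⟨hP p hp.1, hp.2⟩
  rw [← Finset.prod_filter]
  calc ∏ p ∈ m.primeFactorsList.toFinset, w p ^ (m.primeFactorsList.count p)
      ≤ ∏ p ∈ m.primeFactorsList.toFinset, w p := by
        apply Finset.prod_le_prod
        · intro p _
          exact pow_nonneg (hw p).1 _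
        · intro p hp
          have h1 : m.primeFactorsList.count p ≠ 0 := by
            rw [List.mem_toFinset] at hp
            exact (List.count_pos_iff.2 hp).ne'
          exact pow_le_of_le_one (hw p).1 (hw p).2 h1
    _ ≤ ∏ p ∈ P.filter (fun p => p ∣ m), w p := by
        rw [← Finset.prod_sdiff hsub]
        apply mul_le_of_le_one_left
        · exact Finset.prod_nonneg fun p _ => (hw p).1
        · exact Finset.prod_le_one (fun p _ => (hw p).1) (fun p _ => (hw p).2)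

theorem cm_le_one {w : ℕ → ℝ} (hw : ∀ p, 0 ≤ w p ∧ w p ≤ 1) (m : ℕ) : cm w m ≤ 1 := by
  rcases Nat.eq_zero_or_pos m with rfl | hm
  · simp [cm]
  · have := cm_le_prod hw (P := ∅) (by simp) hm.ne'
    simpa using this

theorem triple_le {w₁ w₂ w₃ : ℕ → ℝ}
    (h₁ : ∀ p, 0 ≤ w₁ p ∧ w₁ p ≤ 1) (h₂ : ∀ p, 0 ≤ w₂ p ∧ w₂ p ≤ 1)
    (h₃ : ∀ p, 0 ≤ w₃ p ∧ w₃ p ≤ 1) {P : Finset ℕ}
    (hP : ∀ p ∈ P, p.Prime) {m n : ℕ} (hm : m ≠ 0) (hn : n ≠ 0) :
    cm w₁ m * cm w₂ n * cm w₃ (m + n) ≤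
      ∏ p ∈ P, ((if p ∣ m then w₁ p else 1) * (if p ∣ n then w₂ p else 1) *
        (if p ∣ m + n then w₃ p else 1)) := by
  rw [Finset.prod_mul_distrib, Finset.prod_mul_distrib]
  have a1 := cm_le_prod h₁ hP hm
  have a2 := cm_le_prod h₂ hP hn
  have a3 := cm_le_prod h₃ hP (m := m + n) (by omega)
  have b1 := cm_nonneg (fun p => (h₁ p).1) m
  have b2 := cm_nonneg (fun p => (h₂ p).1) n
  have b3 := cm_nonneg (fun p => (h₃ p).1) (m + n)
  exact mul_le_mul (mul_le_mul a1 a2 b2 (b1.trans a1)) a3 b3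
    (mul_nonneg (b1.trans a1) (b2.trans a2))


/-- the exponent occurring in the bounds -/
noncomputable def mE (w₁ w₂ w₃ : ℕ → ℝ) (t : ℕ) : ℝ :=
  ∑ p ∈ Nat.primesLE (L t), (3 - w₁ p - w₂ p - w₃ p) / p

theorem mE_diff {C : ℝ} (hC : ∀ t : ℕ, |∑ p ∈ Nat.primesLE (L t), (1 : ℝ) / p - t| ≤ C)
    {w₁ w₂ w₃ : ℕ → ℝ}
    (h₁ : ∀ p, 0 ≤ w₁ p ∧ w₁ p ≤ 1) (h₂ : ∀ p, 0 ≤ w₂ p ∧ w₂ p ≤ 1)
    (h₃ : ∀ p, 0 ≤ w₃ p ∧ w₃ p ≤ 1) (r s : ℕ) :
    mE w₁ w₂ w₃ (r + s) ≤ mE w₁ w₂ w₃ r + 3 * (s + 2 * C) := by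
  have hLmono : L r ≤ L (r + s) := by
    unfold L
    apply Nat.floor_mono
    apply Real.exp_le_exp.2
    apply Real.exp_le_exp.2
    push_cast
    have : (0 : ℝ) ≤ s := Nat.cast_nonneg s
    linarith
  have hsub : Nat.primesLE (L r) ⊆ Nat.primesLE (L (r + s)) := Nat.primesLE_mono hLmono
  have h4 : mE w₁ w₂ w₃ (r + s) - mE w₁ w₂ w₃ r =
      ∑ p ∈ Nat.primesLE (L (r + s)) \ Nat.primesLE (L r), (3 - w₁ p - w₂ p - w₃ p) / p := by
    unfold mE
    rw [← Finset.sum_sdiff hsub]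
    ring
  have h5 : ∑ p ∈ Nat.primesLE (L (r + s)), (1 : ℝ) / p - ∑ p ∈ Nat.primesLE (L r), (1 : ℝ) / p =
      ∑ p ∈ Nat.primesLE (L (r + s)) \ Nat.primesLE (L r), (1 : ℝ) / p := by
    rw [← Finset.sum_sdiff hsub]
    ring
  have h6 : ∑ p ∈ Nat.primesLE (L (r + s)) \ Nat.primesLE (L r), (3 - w₁ p - w₂ p - w₃ p) / p ≤
      3 * ∑ p ∈ Nat.primesLE (L (r + s)) \ Nat.primesLE (L r), (1 : ℝ) / p := by
    rw [Finset.mul_sum]
    apply Finset.sum_le_sum
    intro p _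
    rw [mul_one_div]
    apply div_le_div_of_nonneg_right _ (Nat.cast_nonneg p)
    linarith [(h₁ p).1, (h₂ p).1, (h₃ p).1]
  have h7 := hC (r + s)
  have h8 := hC r
  rw [abs_le] at h7 h8
  push_cast at h7
  linarith [h7.2, h8.1]

theorem mE_le {C : ℝ} (hC : ∀ t : ℕ, |∑ p ∈ Nat.primesLE (L t), (1 : ℝ) / p - t| ≤ C)
    {w₁ w₂ w₃ : ℕ → ℝ}
    (h₁ : ∀ p, 0 ≤ w₁ p ∧ w₁ p ≤ 1) (h₂ : ∀ p, 0 ≤ w₂ p ∧ w₂ p ≤ 1)
    (h₃ : ∀ p, 0 ≤ w₃ p ∧ w₃ p ≤ 1) (t : ℕ) :
    mE w₁ w₂ w₃ t ≤ 3 * (t + C) := by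
  have h6 : mE w₁ w₂ w₃ t ≤ 3 * ∑ p ∈ Nat.primesLE (L t), (1 : ℝ) / p := by
    unfold mE
    rw [Finset.mul_sum]
    apply Finset.sum_le_sum
    intro p _
    rw [mul_one_div]
    apply div_le_div_of_nonneg_right _ (Nat.cast_nonneg p)
    linarith [(h₁ p).1, (h₂ p).1, (h₃ p).1]
  have h7 := hC t
  rw [abs_le] at h7
  linarith [h7.2]

theorem four_le_exp_two : (4 : ℝ) ≤ Real.exp 2 := by
  have h5 : Real.exp 2 = Real.exp 1 * Real.exp 1 := by rw [← Real.exp_add]; norm_num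
  rw [h5]
  nlinarith [Real.exp_one_gt_d9]

theorem aux35 {x : ℝ} (hx : 0 ≤ x) : 35 * x ≤ 2450 + Real.exp x / 4 := by
  have hq := Real.quadratic_le_exp_of_nonneg hx
  nlinarith [sq_nonneg (x - 140)]

theorem aux_H {H₁ H₂ X : ℝ} (hX : 1 ≤ X) (h₁ : X ≤ H₁) (h₂ : X ≤ H₂) :
    (H₁ + H₂ + 1) * X ≤ 3 * (H₁ * H₂) := by
  have e1 : (H₁ : ℝ) * X ≤ H₁ * H₂ := mul_le_mul_of_nonneg_left h₂ (by linarith)
  have e2 : (H₂ : ℝ) * X ≤ H₂ * H₁ := mul_le_mul_of_nonneg_left h₁ (by linarith)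
  have e3 : X * 1 ≤ H₂ * H₁ := mul_le_mul h₂ (by linarith) (by norm_num) (by linarith)
  nlinarith

theorem brun_app {C : ℝ} (hC : ∀ t : ℕ, |∑ p ∈ Nat.primesLE (L t), (1 : ℝ) / p - t| ≤ C)
    {w₁ w₂ w₃ : ℕ → ℝ}
    (h₁ : ∀ p, 0 ≤ w₁ p ∧ w₁ p ≤ 1) (h₂ : ∀ p, 0 ≤ w₂ p ∧ w₂ p ≤ 1)
    (h₃ : ∀ p, 0 ≤ w₃ p ∧ w₃ p ≤ 1) (r k : ℕ) (hk : Even k) (H₁ H₂ : ℕ) :
    ∑ m ∈ Icc 1 H₁, ∑ n ∈ Icc 1 H₂, cm w₁ m * cm w₂ n * cm w₃ (m + n) ≤
      H₁ * H₂ * (Real.exp (- mE w₁ w₂ w₃ r + 3) + Real.exp (9 * (r + C) + 108) / 3 ^ k) +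
        (4 * (L r : ℝ)) ^ k * (H₁ + H₂ + 1) := by
  have hP : ∀ p ∈ Nat.primesLE (L r), p.Prime := fun p hp => Nat.prime_of_mem_primesLE hp
  have hb := brun3 (Nat.primesLE (L r)) hP
    (fun i p => if i = 0 then 1 - w₁ p else if i = 1 then 1 - w₂ p else 1 - w₃ p)
    (by
      intro i p
      split_ifs
      · constructor <;> linarith [(h₁ p).1, (h₁ p).2]
      · constructor <;> linarith [(h₂ p).1, (h₂ p).2]
      · constructor <;> linarith [(h₃ p).1, (h₃ p).2]) k hk 3 (by norm_num) H₁ H₂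
  simp only [Fin.isValue, ↓reduceIte, one_ne_zero, sub_sub_cancel, Fin.reduceEq] at hb
  have hleft : ∑ m ∈ Icc 1 H₁, ∑ n ∈ Icc 1 H₂, cm w₁ m * cm w₂ n * cm w₃ (m + n) ≤
      ∑ m ∈ Icc 1 H₁, ∑ n ∈ Icc 1 H₂, ∏ p ∈ Nat.primesLE (L r),
        ((if p ∣ m then w₁ p else 1) * (if p ∣ n then w₂ p else 1) *
        (if p ∣ m + n then w₃ p else 1)) := by
    apply Finset.sum_le_sum
    intro m hm
    apply Finset.sum_le_sum
    intro n hn
    rw [Finset.mem_Icc] at hm hn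
    exact triple_le h₁ h₂ h₃ hP (by omega) (by omega)
  have hsq := sum_inv_sq_primes (L r)
  have hT1 : ∏ p ∈ Nat.primesLE (L r), (1 - (1 - w₁ p + (1 - w₂ p) + (1 - w₃ p)) / (p : ℝ) +
      3 / (p : ℝ) ^ 2) ≤ Real.exp (- mE w₁ w₂ w₃ r + 3) := by
    calc ∏ p ∈ Nat.primesLE (L r), (1 - (1 - w₁ p + (1 - w₂ p) + (1 - w₃ p)) / (p : ℝ) +
      3 / (p : ℝ) ^ 2) ≤ ∏ p ∈ Nat.primesLE (L r),
        Real.exp (-((3 - w₁ p - w₂ p - w₃ p) / p) + 3 * (1 / (p : ℝ) ^ 2)) := by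
          apply Finset.prod_le_prod
          · intro p hp
            have hp2 : (2 : ℝ) ≤ p := by exact_mod_cast (hP p hp).two_le
            have hp0 : (0 : ℝ) < p := by linarith
            have e1 : 1 - (1 - w₁ p + (1 - w₂ p) + (1 - w₃ p)) / (p : ℝ) + 3 / (p : ℝ) ^ 2 =
                ((p : ℝ) ^ 2 - (3 - w₁ p - w₂ p - w₃ p) * p + 3) / (p : ℝ) ^ 2 := by
              field_simp
              ring
            rw [e1]
            apply div_nonneg _ (by positivity)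
            have := (h₁ p).1
            have := (h₂ p).1
            have := (h₃ p).1
            have e2 : (3 - w₁ p - w₂ p - w₃ p) * p ≤ 3 * p := by
              apply mul_le_mul_of_nonneg_right _ hp0.le
              linarith
            nlinarith [sq_nonneg ((p : ℝ) - 3 / 2)]
          · intro p _
            have := Real.add_one_le_exp (-((3 - w₁ p - w₂ p - w₃ p) / p) + 3 * (1 / (p : ℝ) ^ 2))
            refine le_trans (le_of_eq ?_) this
            ring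
      _ = Real.exp (∑ p ∈ Nat.primesLE (L r),
          (-((3 - w₁ p - w₂ p - w₃ p) / p) + 3 * (1 / (p : ℝ) ^ 2))) := (Real.exp_sum _ _).symm
      _ ≤ _ := by
          apply Real.exp_le_exp.2
          rw [Finset.sum_add_distrib, Finset.sum_neg_distrib, ← Finset.mul_sum]
          unfold mE
          linarith
  have hT2 : ∏ p ∈ Nat.primesLE (L r), (1 + 3 * 3 / (p : ℝ) + 4 * 3 ^ 3 / (p : ℝ) ^ 2) ≤
      Real.exp (9 * (r + C) + 108) := by
    calc ∏ p ∈ Nat.primesLE (L r), (1 + 3 * 3 / (p : ℝ) + 4 * 3 ^ 3 / (p : ℝ) ^ 2) ≤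
        ∏ p ∈ Nat.primesLE (L r), Real.exp (9 * (1 / (p : ℝ)) + 108 * (1 / (p : ℝ) ^ 2)) := by
          apply Finset.prod_le_prod
          · intro p _
            positivity
          · intro p _
            have := Real.add_one_le_exp (9 * (1 / (p : ℝ)) + 108 * (1 / (p : ℝ) ^ 2))
            refine le_trans (le_of_eq ?_) this
            ring
      _ = Real.exp (∑ p ∈ Nat.primesLE (L r), (9 * (1 / (p : ℝ)) + 108 * (1 / (p : ℝ) ^ 2))) :=
          (Real.exp_sum _ _).symm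
      _ ≤ _ := by
          apply Real.exp_le_exp.2
          rw [Finset.sum_add_distrib, ← Finset.mul_sum, ← Finset.mul_sum]
          have h7 := hC r
          rw [abs_le] at h7
          linarith [h7.2]
  have hcard : 3 * ((Nat.primesLE (L r)).card : ℝ) + 1 ≤ 4 * (L r : ℝ) := by
    have h1 : (Nat.primesLE (L r)).card ≤ L r := by
      rw [Nat.primesLE_eq_filter_Icc_one]
      refine (Finset.card_filter_le _ _).trans ?_
      simp
    have h2 := two_le_L r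
    have h3 : 3 * (Nat.primesLE (L r)).card + 1 ≤ 4 * L r := by omega
    exact_mod_cast h3
  refine hleft.trans (hb.trans ?_)
  gcongr

theorem box_bound : ∃ C : ℝ, 0 < C ∧ ∀ (t : ℕ) (w₁ w₂ w₃ : ℕ → ℝ),
    (∀ p, 0 ≤ w₁ p ∧ w₁ p ≤ 1) → (∀ p, 0 ≤ w₂ p ∧ w₂ p ≤ 1) → (∀ p, 0 ≤ w₃ p ∧ w₃ p ≤ 1) →
    ∀ H₁ H₂ : ℕ, Real.exp (Real.exp t / 2) ≤ H₁ → Real.exp (Real.exp t / 2) ≤ H₂ →
    ∑ m ∈ Icc 1 H₁, ∑ n ∈ Icc 1 H₂, cm w₁ m * cm w₂ n * cm w₃ (m + n) ≤
      C * H₁ * H₂ * (t + 1) ^ 3 *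
        Real.exp (-∑ p ∈ Nat.primesLE (L t), (3 - w₁ p - w₂ p - w₃ p) / p) := by
  obtain ⟨M, hM, hMt⟩ := mertens_L
  obtain ⟨c₀, hc₀⟩ := exists_nat_ge (6 * M + 54)
  have hc₀1 : 1 ≤ c₀ := by
    have : (0 : ℝ) < c₀ := by linarith
    exact_mod_cast this
  set D : ℝ := 192 + 24 * c₀ with hD
  have hDpos : 0 < D := by positivity
  set C₃ : ℝ := Real.exp (4 * c₀ + 3 * M + 2450) with hC₃
  refine ⟨D ^ 3 * Real.exp (6 * M + 3) + 1 + 3 * C₃ + D ^ 3 * Real.exp (3 * M), by positivity, ?_⟩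
  intro t w₁ w₂ w₃ h₁ h₂ h₃ H₁ H₂ hH₁ hH₂
  change _ ≤ _ * Real.exp (- mE w₁ w₂ w₃ t)
  have ht0 : (0 : ℝ) ≤ t := Nat.cast_nonneg t
  have hS := mE_le hMt h₁ h₂ h₃ t
  have hexpS : Real.exp (-(3 * (t + M))) ≤ Real.exp (- mE w₁ w₂ w₃ t) :=
    Real.exp_le_exp.2 (by linarith)
  have ht1 : (1 : ℝ) ≤ (t + 1 : ℝ) ^ 3 := by
    have : (1 : ℝ) ≤ t + 1 := by linarith
    exact one_le_pow₀ this
  -- the parameters
  set k : ℕ := 2 * (8 * t + c₀) with hk
  have hkR : (k : ℝ) = 16 * t + 2 * c₀ := by rw [hk]; push_cast; ring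
  have hkpos : (0 : ℝ) < k := by
    rw [hkR]
    have : (1 : ℝ) ≤ c₀ := by exact_mod_cast hc₀1
    linarith
  have hk1 : (1 : ℝ) ≤ k := by
    rw [hkR]
    have : (1 : ℝ) ≤ c₀ := by exact_mod_cast hc₀1
    linarith
  set s : ℕ := ⌈Real.log (4 * k)⌉₊ with hs
  have hs1 : 4 * (k : ℝ) ≤ Real.exp s := by
    have h := Nat.le_ceil (Real.log (4 * (k : ℝ)))
    have h' := Real.exp_le_exp.2 h
    rwa [Real.exp_log (by positivity)] at h'
  have hs2 : Real.exp s ≤ D * (t + 1) := by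
    have hlog0 : 0 ≤ Real.log (4 * (k : ℝ)) := Real.log_nonneg (by linarith)
    have h := Nat.ceil_lt_add_one hlog0
    have h' := Real.exp_le_exp.2 h.le
    rw [Real.exp_add, Real.exp_log (by positivity)] at h'
    have he := Real.exp_one_lt_d9
    have h3 : 4 * (k : ℝ) * Real.exp 1 ≤ 4 * k * 3 := by
      apply mul_le_mul_of_nonneg_left (by linarith) (by positivity)
    have h4 : 4 * (k : ℝ) * 3 ≤ D * (t + 1) := by
      rw [hkR, hD]
      have : (0 : ℝ) ≤ c₀ * t := by positivity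
      nlinarith
    linarith
  have hs3 : Real.exp (3 * s) ≤ D ^ 3 * (t + 1) ^ 3 := by
    have h := pow_le_pow_left₀ (Real.exp_pos _).le hs2 3
    rw [← Real.exp_nat_mul, mul_pow] at h
    exact_mod_cast h
  have hH₁0 : (0 : ℝ) < H₁ := lt_of_lt_of_le (Real.exp_pos _) hH₁
  have hH₂0 : (0 : ℝ) < H₂ := lt_of_lt_of_le (Real.exp_pos _) hH₂
  rcases Nat.lt_or_ge t s with hts | hts
  · -- small `t`
    have hle : ∑ m ∈ Icc 1 H₁, ∑ n ∈ Icc 1 H₂, cm w₁ m * cm w₂ n * cm w₃ (m + n) ≤ H₁ * H₂ := by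
      calc ∑ m ∈ Icc 1 H₁, ∑ n ∈ Icc 1 H₂, cm w₁ m * cm w₂ n * cm w₃ (m + n)
          ≤ ∑ m ∈ Icc 1 H₁, ∑ n ∈ Icc 1 H₂, (1 : ℝ) := by
            apply Finset.sum_le_sum
            intro m _
            apply Finset.sum_le_sum
            intro n _
            have a1 := cm_le_one h₁ m
            have a2 := cm_le_one h₂ n
            have a3 := cm_le_one h₃ (m + n)
            have b1 := cm_nonneg (fun p => (h₁ p).1) m
            have b2 := cm_nonneg (fun p => (h₂ p).1) n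
            have b3 := cm_nonneg (fun p => (h₃ p).1) (m + n)
            exact mul_le_one₀ (mul_le_one₀ a1 b2 a2) b3 a3
        _ = H₁ * H₂ := by simp
    have h5 : 1 ≤ D ^ 3 * (t + 1) ^ 3 * Real.exp (-(3 * t)) := by
      have h6 : Real.exp (3 * t) ≤ D ^ 3 * (t + 1) ^ 3 := by
        refine le_trans (Real.exp_le_exp.2 ?_) hs3
        have : (t : ℝ) ≤ s := by exact_mod_cast hts.le
        linarith
      rw [Real.exp_neg, ← div_eq_mul_inv, le_div_iff₀ (Real.exp_pos _)]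
      linarith
    have h6 : Real.exp (-(3 * (t : ℝ))) = Real.exp (3 * M) * Real.exp (-(3 * (t + M))) := by
      rw [← Real.exp_add]; congr 1; ring
    have h7 : 1 ≤ D ^ 3 * (t + 1) ^ 3 * (Real.exp (3 * M) * Real.exp (- mE w₁ w₂ w₃ t)) := by
      rw [h6] at h5
      refine h5.trans ?_
      gcongr
    calc ∑ m ∈ Icc 1 H₁, ∑ n ∈ Icc 1 H₂, cm w₁ m * cm w₂ n * cm w₃ (m + n)
        ≤ H₁ * H₂ * 1 := by linarith
      _ ≤ H₁ * H₂ * (D ^ 3 * (t + 1) ^ 3 * (Real.exp (3 * M) * Real.exp (- mE w₁ w₂ w₃ t))) := by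
          apply mul_le_mul_of_nonneg_left h7 (by positivity)
      _ = (D ^ 3 * Real.exp (3 * M)) * H₁ * H₂ * (t + 1) ^ 3 * Real.exp (- mE w₁ w₂ w₃ t) := by ring
      _ ≤ _ := by
          gcongr
          have : 0 ≤ D ^ 3 * Real.exp (6 * M + 3) + 1 + 3 * C₃ := by positivity
          linarith
  · -- large `t`
    obtain ⟨r, hr⟩ : ∃ r, t = r + s := ⟨t - s, by omega⟩
    have hrt : (t : ℝ) = r + s := by rw [hr]; push_cast; ring
    have hb := brun_app hMt h₁ h₂ h₃ r k (by rw [hk]; exact even_two_mul _) H₁ H₂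
    have hd := mE_diff hMt h₁ h₂ h₃ r s
    rw [← hr] at hd
    -- first term
    have hA : Real.exp (- mE w₁ w₂ w₃ r + 3) ≤
        D ^ 3 * Real.exp (6 * M + 3) * (t + 1) ^ 3 * Real.exp (- mE w₁ w₂ w₃ t) := by
      calc Real.exp (- mE w₁ w₂ w₃ r + 3) ≤
          Real.exp (3 * s + (6 * M + 3) + (- mE w₁ w₂ w₃ t)) := by
            apply Real.exp_le_exp.2
            linarith
        _ = Real.exp (3 * s) * Real.exp (6 * M + 3) * Real.exp (- mE w₁ w₂ w₃ t) := by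
            rw [Real.exp_add, Real.exp_add]
        _ ≤ (D ^ 3 * (t + 1) ^ 3) * Real.exp (6 * M + 3) * Real.exp (- mE w₁ w₂ w₃ t) := by
            gcongr
        _ = _ := by ring
    -- second term
    have hB : Real.exp (9 * (r + M) + 108) / 3 ^ k ≤ Real.exp (- mE w₁ w₂ w₃ t) := by
      refine le_trans ?_ hexpS
      have h3k : Real.exp k ≤ 3 ^ k := by
        have : Real.exp 1 ≤ 3 := by linarith [Real.exp_one_lt_d9]
        have h := pow_le_pow_left₀ (Real.exp_pos 1).le this k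
        rwa [← Real.exp_nat_mul, mul_one] at h
      rw [div_le_iff₀ (by positivity)]
      calc Real.exp (9 * (r + M) + 108) ≤ Real.exp (-(3 * (t + M)) + k) := by
            apply Real.exp_le_exp.2
            rw [hkR]
            have : (r : ℝ) ≤ t := by rw [hrt]; linarith [(Nat.cast_nonneg s : (0 : ℝ) ≤ s)]
            linarith
        _ = Real.exp (-(3 * (t + M))) * Real.exp k := Real.exp_add _ _
        _ ≤ _ := by gcongr
    -- third term
    have hC1 : (4 * (L r : ℝ)) ^ k ≤ 4 ^ k * Real.exp (Real.exp t / 4) := by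
      rw [mul_pow]
      apply mul_le_mul_of_nonneg_left _ (by positivity)
      have hL : (L r : ℝ) ≤ Real.exp (Real.exp r) := Nat.floor_le (Real.exp_pos _).le
      refine (pow_le_pow_left₀ (Nat.cast_nonneg _) hL k).trans ?_
      rw [← Real.exp_nat_mul]
      apply Real.exp_le_exp.2
      have h8 : Real.exp t = Real.exp r * Real.exp s := by rw [hrt, Real.exp_add]
      rw [h8]
      have := Real.exp_pos (r : ℝ)
      nlinarith
    have hC2 : (H₁ : ℝ) + H₂ + 1 ≤ 3 * (H₁ * H₂) * Real.exp (-(Real.exp t / 2)) := by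
      rw [Real.exp_neg, ← div_eq_mul_inv, le_div_iff₀ (Real.exp_pos _)]
      have hX1 : 1 ≤ Real.exp (Real.exp t / 2) := Real.one_le_exp (by positivity)
      exact aux_H hX1 hH₁ hH₂
    have hC3 : 4 ^ k * Real.exp (Real.exp t / 4) * Real.exp (-(Real.exp t / 2)) ≤
        C₃ * Real.exp (-(3 * (t + M))) := by
      have h4k : (4 : ℝ) ^ k ≤ Real.exp (2 * k) := by
        have h22 : (4 : ℝ) ≤ Real.exp 2 := four_le_exp_two
        have h := pow_le_pow_left₀ (by norm_num : (0 : ℝ) ≤ 4) h22 k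
        rw [← Real.exp_nat_mul] at h
        rwa [mul_comm (2 : ℝ) k]
      calc 4 ^ k * Real.exp (Real.exp t / 4) * Real.exp (-(Real.exp t / 2))
          ≤ Real.exp (2 * k) * Real.exp (Real.exp t / 4) * Real.exp (-(Real.exp t / 2)) := by gcongr
        _ = Real.exp (2 * k + Real.exp t / 4 + -(Real.exp t / 2)) := by
            rw [Real.exp_add, Real.exp_add]
        _ ≤ Real.exp ((4 * c₀ + 3 * M + 2450) + -(3 * (t + M))) := by
            apply Real.exp_le_exp.2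
            have hq := aux35 ht0
            rw [hkR]
            linarith
        _ = _ := by rw [Real.exp_add]
    have hCC : (4 * (L r : ℝ)) ^ k * (H₁ + H₂ + 1) ≤
        H₁ * H₂ * (3 * C₃ * Real.exp (- mE w₁ w₂ w₃ t)) := by
      calc (4 * (L r : ℝ)) ^ k * (H₁ + H₂ + 1)
          ≤ (4 ^ k * Real.exp (Real.exp t / 4)) *
            (3 * (H₁ * H₂) * Real.exp (-(Real.exp t / 2))) := by gcongr
        _ = 3 * (H₁ * H₂) *
            (4 ^ k * Real.exp (Real.exp t / 4) * Real.exp (-(Real.exp t / 2))) := by ring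
        _ ≤ 3 * (H₁ * H₂) * (C₃ * Real.exp (-(3 * (t + M)))) := by gcongr
        _ ≤ 3 * (H₁ * H₂) * (C₃ * Real.exp (- mE w₁ w₂ w₃ t)) := by gcongr
        _ = _ := by ring
    refine hb.trans ?_
    have hE := Real.exp_pos (- mE w₁ w₂ w₃ t)
    calc _ ≤ H₁ * H₂ * (D ^ 3 * Real.exp (6 * M + 3) * (t + 1) ^ 3 * Real.exp (- mE w₁ w₂ w₃ t) +
          Real.exp (- mE w₁ w₂ w₃ t)) + H₁ * H₂ * (3 * C₃ * Real.exp (- mE w₁ w₂ w₃ t)) := by
          gcongr
      _ ≤ H₁ * H₂ * (D ^ 3 * Real.exp (6 * M + 3) * (t + 1) ^ 3 * Real.exp (- mE w₁ w₂ w₃ t) +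
          (t + 1) ^ 3 * Real.exp (- mE w₁ w₂ w₃ t)) +
          H₁ * H₂ * (3 * C₃ * ((t + 1) ^ 3 * Real.exp (- mE w₁ w₂ w₃ t))) := by
          have e1 : Real.exp (- mE w₁ w₂ w₃ t) ≤ (t + 1) ^ 3 * Real.exp (- mE w₁ w₂ w₃ t) :=
            le_mul_of_one_le_left hE.le ht1
          have hHH : (0 : ℝ) ≤ H₁ * H₂ := by positivity
          exact add_le_add (mul_le_mul_of_nonneg_left (add_le_add le_rfl e1) hHH)
            (mul_le_mul_of_nonneg_left (mul_le_mul_of_nonneg_left e1 (by positivity)) hHH)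
      _ = (D ^ 3 * Real.exp (6 * M + 3) + 1 + 3 * C₃) * H₁ * H₂ * (t + 1) ^ 3 *
          Real.exp (- mE w₁ w₂ w₃ t) := by ring
      _ ≤ _ := by
          have h0 : 0 ≤ D ^ 3 * Real.exp (3 * M) := by positivity
          exact mul_le_mul_of_nonneg_right (mul_le_mul_of_nonneg_right
            (mul_le_mul_of_nonneg_right (mul_le_mul_of_nonneg_right (le_add_of_nonneg_right h0)
              hH₁0.le) hH₂0.le) (by positivity)) hE.le

/-- number of dyadic scales -/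
theorem log_L_le (t : ℕ) : ((Nat.log 2 (L (t + 1)) : ℕ) : ℝ) + 1 ≤ 5 * Real.exp t := by
  have h2 := two_le_L (t + 1)
  have h1 : (2 : ℝ) ^ (Nat.log 2 (L (t + 1))) ≤ Real.exp (Real.exp ((t + 1 : ℕ) : ℝ)) := by
    have h3 : 2 ^ (Nat.log 2 (L (t + 1))) ≤ L (t + 1) := Nat.pow_log_le_self 2 (by omega)
    have h4 : (L (t + 1) : ℝ) ≤ Real.exp (Real.exp ((t + 1 : ℕ) : ℝ)) :=
      Nat.floor_le (Real.exp_pos _).le
    have h5 : ((2 ^ (Nat.log 2 (L (t + 1))) : ℕ) : ℝ) ≤ L (t + 1) := by exact_mod_cast h3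
    push_cast at h5
    linarith
  have h6 := Real.log_le_log (by positivity) h1
  rw [Real.log_pow, Real.log_exp] at h6
  push_cast at h6
  rw [Real.exp_add] at h6
  have h7 := Real.log_two_gt_d9
  have h8 := Real.exp_one_lt_d9
  have h9 : 1 ≤ Real.exp t := Real.one_le_exp (Nat.cast_nonneg t)
  have h10 : ((Nat.log 2 (L (t + 1)) : ℕ) : ℝ) * 0.69 ≤
      ((Nat.log 2 (L (t + 1)) : ℕ) : ℝ) * Real.log 2 :=
    mul_le_mul_of_nonneg_left (by linarith) (Nat.cast_nonneg _)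
  have h11 : Real.exp t * Real.exp 1 ≤ Real.exp t * 2.72 :=
    mul_le_mul_of_nonneg_left (by linarith) (Real.exp_pos _).le
  linarith

theorem log_K_le {K : ℕ} (hK : 1 ≤ K) :
    2 * ((Nat.log 2 K : ℕ) : ℝ) + 3 ≤ 3 * (1 + Real.log K) := by
  have h1 : (2 : ℝ) ^ (Nat.log 2 K) ≤ K := by exact_mod_cast Nat.pow_log_le_self 2 (by omega)
  have h6 := Real.log_le_log (by positivity) h1
  rw [Real.log_pow] at h6
  have h7 := Real.log_two_gt_d9
  have h10 : ((Nat.log 2 K : ℕ) : ℝ) * 0.69 ≤ ((Nat.log 2 K : ℕ) : ℝ) * Real.log 2 :=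
    mul_le_mul_of_nonneg_left (by linarith) (Nat.cast_nonneg _)
  have h11 : (0 : ℝ) ≤ ((Nat.log 2 K : ℕ) : ℝ) := Nat.cast_nonneg _
  linarith

/-- the size condition in the box bound -/
theorem size_aux {t K x y : ℕ} (hK : Real.log (K + 1) ≤ Real.exp t / 8)
    (hL : L t < x + y) (hyx : y ≤ K * x) :
    Real.exp (Real.exp t / 2) ≤ x := by
  have h1 : Real.exp (Real.exp t) < ((x + y : ℕ) : ℝ) := (Nat.floor_lt (Real.exp_pos _).le).1 hL
  have h2 : ((x + y : ℕ) : ℝ) ≤ (K + 1) * x := by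
    have : x + y ≤ (K + 1) * x := by nlinarith
    exact_mod_cast this
  have h3 : ((K : ℝ) + 1) ≤ Real.exp (Real.exp t / 8) := by
    have := Real.exp_le_exp.2 hK
    rwa [Real.exp_log (by positivity)] at this
  have h4 : Real.exp (Real.exp t) = Real.exp (Real.exp t / 8) * Real.exp (Real.exp t * (7 / 8)) := by
    rw [← Real.exp_add]; congr 1; ring
  have h5 : Real.exp (Real.exp t / 8) * Real.exp (Real.exp t * (7 / 8)) ≤
      Real.exp (Real.exp t / 8) * x := by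
    rw [← h4]
    have : ((K : ℝ) + 1) * x ≤ Real.exp (Real.exp t / 8) * x :=
      mul_le_mul_of_nonneg_right h3 (Nat.cast_nonneg _)
    linarith
  have h6 := le_of_mul_le_mul_left h5 (Real.exp_pos _)
  refine le_trans (Real.exp_le_exp.2 ?_) h6
  have := Real.exp_pos (t : ℝ)
  linarith

theorem log_diff {K x y : ℕ} (hx : 1 ≤ x) (hy : 1 ≤ y) (hK : 1 ≤ K) (hyx : y ≤ K * x) :
    Nat.log 2 y ≤ Nat.log 2 x + (Nat.log 2 K + 1) := by
  have h1 : K * x < 2 ^ (Nat.log 2 K + 1) * 2 ^ (Nat.log 2 x + 1) := by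
    apply Nat.mul_lt_mul'' (Nat.lt_pow_succ_log_self (by norm_num) K)
      (Nat.lt_pow_succ_log_self (by norm_num) x)
  rw [← pow_add] at h1
  have h2 : y < 2 ^ (Nat.log 2 K + 1 + (Nat.log 2 x + 1)) := lt_of_le_of_lt hyx h1
  have h3 := Nat.log_lt_of_lt_pow (by omega) h2
  omega

/-- [G] dyadic decomposition. -/
theorem pair_bound : ∃ C : ℝ, 0 < C ∧ ∀ (t K : ℕ) (w₁ w₂ w₃ : ℕ → ℝ),
    (∀ p, 0 ≤ w₁ p ∧ w₁ p ≤ 1) → (∀ p, 0 ≤ w₂ p ∧ w₂ p ≤ 1) → (∀ p, 0 ≤ w₃ p ∧ w₃ p ≤ 1) →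
    1 ≤ K → Real.log (K + 1) ≤ Real.exp t / 8 →
    ∀ s : Finset (ℕ × ℕ), (∀ q ∈ s, 1 ≤ q.1 ∧ 1 ≤ q.2 ∧ L t < q.1 + q.2 ∧
      q.1 + q.2 ≤ L (t + 1) ∧ q.1 ≤ K * q.2 ∧ q.2 ≤ K * q.1) →
    ∑ q ∈ s, cm w₁ q.1 * cm w₂ q.2 * cm w₃ (q.1 + q.2) / (q.2 * (q.1 + q.2 : ℕ)) ≤
      C * (1 + Real.log K) * Real.exp t * (t + 1) ^ 3 *
        Real.exp (-∑ p ∈ Nat.primesLE (L t), (3 - w₁ p - w₂ p - w₃ p) / p) := by
  obtain ⟨C, hC, hbox⟩ := box_bound
  refine ⟨60 * C, by positivity, ?_⟩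
  intro t K w₁ w₂ w₃ h₁ h₂ h₃ hK hKt s hs
  set E : ℝ := Real.exp (-∑ p ∈ Nat.primesLE (L t), (3 - w₁ p - w₂ p - w₃ p) / p) with hE
  have hEpos : 0 < E := Real.exp_pos _
  set f : ℕ × ℕ → ℝ :=
    fun q => cm w₁ q.1 * cm w₂ q.2 * cm w₃ (q.1 + q.2) / (q.2 * (q.1 + q.2 : ℕ)) with hf
  set g : ℕ × ℕ → ℕ × ℕ :=
    fun q => (Nat.log 2 q.1, Nat.log 2 q.2 + (Nat.log 2 K + 1) - Nat.log 2 q.1) with hg
  set N := Nat.log 2 (L (t + 1)) with hN
  set J := Nat.log 2 K + 1 with hJ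
  set I : Finset (ℕ × ℕ) := range (N + 1) ×ˢ range (2 * J + 1) with hI
  have hmap : ∀ q ∈ s, g q ∈ I := by
    intro q hq
    obtain ⟨a1, a2, a3, a4, a5, a6⟩ := hs q hq
    rw [hI, Finset.mem_product, Finset.mem_range, Finset.mem_range]
    constructor
    · have : Nat.log 2 q.1 ≤ N := Nat.log_mono_right (by omega)
      simp only [hg]
      omega
    · have := log_diff a1 a2 hK a6
      simp only [hg]
      omega
  have hcmnn : ∀ m n : ℕ, 0 ≤ cm w₁ m * cm w₂ n * cm w₃ (m + n) := by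
    intro m n
    have b1 := cm_nonneg (fun p => (h₁ p).1) m
    have b2 := cm_nonneg (fun p => (h₂ p).1) n
    have b3 := cm_nonneg (fun p => (h₃ p).1) (m + n)
    positivity
  have hfiber : ∀ j ∈ I, ∑ q ∈ s with g q = j, f q ≤ 4 * C * (t + 1) ^ 3 * E := by
    intro j _
    rcases (s.filter (fun q => g q = j)).eq_empty_or_nonempty with hem | ⟨q₀, hq₀⟩
    · rw [hem, Finset.sum_empty]
      positivity
    · rw [Finset.mem_filter] at hq₀
      obtain ⟨hq₀s, hq₀j⟩ := hq₀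
      obtain ⟨a1, a2, a3, a4, a5, a6⟩ := hs q₀ hq₀s
      set a := Nat.log 2 q₀.1 with ha
      set b := Nat.log 2 q₀.2 with hb
      -- all members of the fibre have the same logs
      have hsame : ∀ q ∈ s, g q = j → Nat.log 2 q.1 = a ∧ Nat.log 2 q.2 = b := by
        intro q hq hqj
        obtain ⟨b1, b2, b3, b4, b5, b6⟩ := hs q hq
        have hd := log_diff b2 b1 hK b5
        have hd0 := log_diff a2 a1 hK a5
        rw [← hqj] at hq₀j
        simp only [hg, Prod.mk.injEq] at hq₀j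
        omega
      have hsz1 : Real.exp (Real.exp t / 2) ≤ ((2 ^ (a + 1) : ℕ) : ℝ) := by
        refine (size_aux hKt a3 a6).trans ?_
        exact_mod_cast (Nat.lt_pow_succ_log_self (by norm_num) q₀.1).le
      have hsz2 : Real.exp (Real.exp t / 2) ≤ ((2 ^ (b + 1) : ℕ) : ℝ) := by
        refine (size_aux hKt (x := q₀.2) (y := q₀.1) (by omega) a5).trans ?_
        exact_mod_cast (Nat.lt_pow_succ_log_self (by norm_num) q₀.2).le
      have hbx := hbox t w₁ w₂ w₃ h₁ h₂ h₃ (2 ^ (a + 1)) (2 ^ (b + 1)) hsz1 hsz2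
      rw [← hE] at hbx
      have hstep : ∑ q ∈ s with g q = j, f q ≤
          (1 / (2 ^ a * 2 ^ b : ℝ)) * ∑ m ∈ Icc 1 (2 ^ (a + 1)), ∑ n ∈ Icc 1 (2 ^ (b + 1)),
            cm w₁ m * cm w₂ n * cm w₃ (m + n) := by
        rw [← Finset.sum_product', Finset.mul_sum]
        calc ∑ q ∈ s with g q = j, f q
            ≤ ∑ q ∈ s with g q = j,
              (1 / (2 ^ a * 2 ^ b : ℝ)) * (cm w₁ q.1 * cm w₂ q.2 * cm w₃ (q.1 + q.2)) := by
              apply Finset.sum_le_sum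
              intro q hq
              rw [Finset.mem_filter] at hq
              obtain ⟨c1, c2⟩ := hsame q hq.1 hq.2
              obtain ⟨b1, b2, b3, b4, b5, b6⟩ := hs q hq.1
              have d1 : 2 ^ a ≤ q.1 := by rw [← c1]; exact Nat.pow_log_le_self 2 (by omega)
              have d2 : 2 ^ b ≤ q.2 := by rw [← c2]; exact Nat.pow_log_le_self 2 (by omega)
              have d3 : (2 ^ a * 2 ^ b : ℝ) ≤ q.2 * (q.1 + q.2 : ℕ) := by
                have : 2 ^ a * 2 ^ b ≤ q.2 * (q.1 + q.2) := by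
                  rw [mul_comm]
                  exact Nat.mul_le_mul d2 (by omega)
                exact_mod_cast this
              rw [hf]
              dsimp only
              rw [one_div, ← div_eq_inv_mul]
              exact div_le_div_of_nonneg_left (hcmnn _ _) (by positivity) d3
          _ ≤ _ := by
              apply Finset.sum_le_sum_of_subset_of_nonneg
              · intro q hq
                rw [Finset.mem_filter] at hq
                obtain ⟨c1, c2⟩ := hsame q hq.1 hq.2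
                obtain ⟨b1, b2, b3, b4, b5, b6⟩ := hs q hq.1
                rw [Finset.mem_product, Finset.mem_Icc, Finset.mem_Icc]
                have e1 := (Nat.lt_pow_succ_log_self (by norm_num : 1 < 2) q.1).le
                have e2 := (Nat.lt_pow_succ_log_self (by norm_num : 1 < 2) q.2).le
                rw [c1] at e1
                rw [c2] at e2
                exact ⟨⟨b1, e1⟩, ⟨b2, e2⟩⟩
              · intro q _ _
                exact mul_nonneg (by positivity) (hcmnn _ _)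
      refine hstep.trans ?_
      refine (mul_le_mul_of_nonneg_left hbx (by positivity)).trans (le_of_eq ?_)
      push_cast
      field_simp
      ring
  have htot : ∑ q ∈ s, f q ≤ (I.card : ℝ) * (4 * C * (t + 1) ^ 3 * E) := by
    rw [← Finset.sum_fiberwise_of_maps_to hmap]
    refine (Finset.sum_le_sum hfiber).trans (le_of_eq ?_)
    rw [Finset.sum_const, nsmul_eq_mul]
  have hIcard : (I.card : ℝ) ≤ 15 * Real.exp t * (1 + Real.log K) := by
    rw [hI, Finset.card_product, Finset.card_range, Finset.card_range]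
    push_cast
    have e1 := log_L_le t
    have e2 := log_K_le hK
    rw [← hN] at e1
    have e3 : 2 * (J : ℝ) + 1 ≤ 3 * (1 + Real.log K) := by
      rw [hJ]; push_cast; linarith
    calc ((N : ℝ) + 1) * (2 * (J : ℝ) + 1) ≤ (5 * Real.exp t) * (3 * (1 + Real.log K)) :=
          mul_le_mul e1 e3 (by positivity) (by positivity)
      _ = _ := by ring
  calc ∑ q ∈ s, f q ≤ (I.card : ℝ) * (4 * C * (t + 1) ^ 3 * E) := htot
    _ ≤ (15 * Real.exp t * (1 + Real.log K)) * (4 * C * (t + 1) ^ 3 * E) :=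
        mul_le_mul_of_nonneg_right hIcard (by positivity)
    _ = _ := by ring

end Pool.Agent.Lib.helper94.ANT
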