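import Pool.Agent.Lib.helper94.ANT.EdgeSum
import Pool.Agent.Lib.helper94.ANT.LogSum
import Pool.Agent.Lib.helper94.ANT.Pair

/-!
Upper bounds for the neighbourhood of `E`.
-/

namespace Pool.Agent.Lib.helper94.ANT

open Finset

theorem log_two_bounds : 0.6931 < Real.log 2 ∧ Real.log 2 < 0.6931472 := by
  have h1 := Real.log_two_gt_d9
  have h2 := Real.log_two_lt_d9
  constructor <;> linarith

theorem K_bounds {v t K : ℕ} (hv : 2 ≤ v) (ht : 4 * v ≤ t) (hK1 : 1 ≤ K)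
    (hK : (K : ℝ) ≤ Real.exp (8 * v) + 1) :
    Real.log (K + 1) ≤ Real.exp t / 8 ∧ 1 + Real.log K ≤ 11 * (v + 1) ∧ 0 ≤ Real.log K := by
  have hK1' : (1 : ℝ) ≤ K := by exact_mod_cast hK1
  have hv' : (2 : ℝ) ≤ v := by exact_mod_cast hv
  have ht' : (4 : ℝ) * v ≤ t := by exact_mod_cast ht
  have h1 : (K : ℝ) + 1 ≤ Real.exp (8 * v + 2) := by
    rw [Real.exp_add]
    have h2 : (1 : ℝ) ≤ Real.exp (8 * v) := Real.one_le_exp (by positivity)
    have h3 : (3 : ℝ) ≤ Real.exp 2 := by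
      have := Real.add_one_le_exp (2 : ℝ)
      linarith
    nlinarith
  have h2 : Real.log (K + 1) ≤ 8 * v + 2 := by
    rw [← Real.log_exp (8 * v + 2)]
    exact Real.log_le_log (by linarith) h1
  have h3 : Real.log K ≤ Real.log (K + 1) := Real.log_le_log (by linarith) (by linarith)
  refine ⟨?_, ?_, Real.log_nonneg hK1'⟩
  · have h4 : Real.exp (4 * v) ≤ Real.exp t := Real.exp_le_exp.2 ht'
    have h5 : 8 * (8 * (v : ℝ) + 2) ≤ Real.exp (4 * v) := by
      have h6 : Real.exp (4 * (v : ℝ)) = Real.exp v ^ 4 := by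
        rw [← Real.exp_nat_mul]
        norm_num
      have h7 : 1 + (v : ℝ) ≤ Real.exp v := by
        have := Real.add_one_le_exp (v : ℝ)
        linarith
      rw [h6]
      have h8 : (1 + (v : ℝ)) ^ 4 ≤ Real.exp v ^ 4 := pow_le_pow_left₀ (by positivity) h7 4
      have h9 : 7 ≤ Real.exp 2 := by
        have h10 : Real.exp 2 = Real.exp 1 ^ 2 := by
          rw [← Real.exp_nat_mul]
          norm_num
        rw [h10]
        have := Real.exp_one_gt_d9
        nlinarith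
      have h11 : 7 * (v - 1 : ℝ) ≤ Real.exp v := by
        have h12 : Real.exp v = Real.exp 2 * Real.exp (v - 2) := by
          rw [← Real.exp_add]
          ring_nf
        have h13 := Real.add_one_le_exp ((v : ℝ) - 2)
        rw [h12]
        nlinarith
      have h14 : (7 * (v - 1 : ℝ)) ^ 4 ≤ Real.exp v ^ 4 :=
        pow_le_pow_left₀ (by nlinarith) h11 4
      nlinarith [mul_nonneg (sub_nonneg.2 hv') (sub_nonneg.2 hv'),
        mul_nonneg (mul_nonneg (sub_nonneg.2 hv') (sub_nonneg.2 hv')) (sub_nonneg.2 hv'),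
        mul_nonneg (mul_nonneg (sub_nonneg.2 hv') (sub_nonneg.2 hv'))
          (mul_nonneg (sub_nonneg.2 hv') (sub_nonneg.2 hv'))]
    linarith
  · linarith

theorem S_eq_L (C₁ : ℝ) (h : ∀ t : ℕ, |∑ p ∈ Nat.primesLE (L t), (1 : ℝ) / p - t| ≤ C₁) (t : ℕ) :
    (t : ℝ) - C₁ ≤ S (L t) ∧ S (L t) ≤ t + C₁ := by
  have h1 := abs_le.1 (h t)
  unfold S
  constructor <;> linarith

/-- groups `t < 64 v` -/
theorem regimeA (C₀ : ℕ) : ∃ C : ℝ, 0 < C ∧ ∀ v : ℕ, 2 ≤ v → ∀ K : ℕ, 1 ≤ K →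
    (K : ℝ) ≤ Real.exp (8 * v) + 1 → ∀ X : ℕ, L (64 * v) ≤ X → ∀ t : ℕ, 4 * v ≤ t → t < 64 * v →
    ∑ y ∈ R C₀ v K t X, (1 : ℝ) / y ≤ C * (v + 1) ^ 4 * Real.exp (-(6.66 * v)) * Real.log X := by
  obtain ⟨C₁, hC₁, hM⟩ := mertens_L
  obtain ⟨C₂, hC₂, hlog⟩ := logsum_le
  obtain ⟨C₃, hC₃, hpair⟩ := pair_bound
  refine ⟨C₂ * C₃ * 11 * 64 ^ 3 * Real.exp (6 * C₁ + 3 / 2), by positivity, ?_⟩
  intro v hv K hK1 hK X hX t ht1 ht2
  have hP2 := two_le_L (4 * v)
  have hPt : L (4 * v) ≤ L t := L_mono ht1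
  have hPM : L (4 * v) ≤ L (64 * v) := L_mono (by omega)
  have hX2 : 2 ≤ X := (two_le_L _).trans hX
  have hSP := S_eq_L C₁ hM (4 * v)
  have hSM := S_eq_L C₁ hM (64 * v)
  have hSt := S_eq_L C₁ hM t
  push_cast at hSP hSM
  obtain ⟨hK3, hK4, hK5⟩ := K_bounds hv ht1 hK1 hK
  set u := wx (L (4 * v)) (L (64 * v)) with hu
  have hu0 : ∀ p, 0 ≤ u p := fun p => (wx_bounds _ _ p).1
  have hu1 : ∀ p, u p ≤ 1 := fun p => (wx_bounds _ _ p).2
  -- the edge sum
  have h1 := edge_sum (C₀ := C₀) (v := v) (K := K) (t := t) (X := X) (u := u) (w := fun _ => 1)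
    hu0 (fun _ => zero_le_one) (A := 2 ^ (45 * v)) (by positivity) (by
      intro x hx
      rw [hu, cm_wx (fun p hp hpx => E0_prime hx.1 hp hpx) hP2, E0_Om hx.1, ← mul_pow]
      norm_num)
  simp only [cm_const_one, mul_one] at h1
  refine h1.trans ?_
  -- the sum over `k`
  have h2 := hlog (fun p => u p) (fun p => ⟨hu0 p, (hu1 p).trans (by norm_num)⟩) X hX2
  have h3 : ∑ p ∈ Nat.primesLE X, (1 - u p) / (p : ℝ) =
      1 * (S (L (4 * v)) - 1 / 2) + 1 / 2 * (S (L (64 * v)) - S (L (4 * v))) := by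
    rw [← sum_piecewise' hP2 hPM hX]
    apply Finset.sum_congr rfl
    intro p _
    congr 1
    simp only [hu, wx]
    split_ifs <;> norm_num
  rw [h3] at h2
  -- the sum over pairs
  have h4 := hpair t K u (fun _ => 1) (fun p => u p) (fun p => ⟨hu0 p, hu1 p⟩)
    (fun _ => ⟨zero_le_one, le_refl _⟩) (fun p => ⟨hu0 p, hu1 p⟩) hK1 hK3 (G t K)
    (fun q hq => mem_G.1 hq)
  simp only [cm_const_one, mul_one] at h4
  have h5 : ∑ p ∈ Nat.primesLE (L t), (3 - u p - 1 - u p) / (p : ℝ) =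
      2 * (S (L (4 * v)) - 1 / 2) + 1 * (S (L t) - S (L (4 * v))) := by
    rw [← sum_piecewise' hP2 hPt (le_refl (L t))]
    apply Finset.sum_congr rfl
    intro p hp
    rw [Nat.mem_primesLE] at hp
    congr 1
    have h6 : p ≤ L (64 * v) := hp.1.trans (L_mono ht2.le)
    simp only [hu, wx, if_pos h6, if_pos hp.1]
    split_ifs <;> norm_num
  rw [h5] at h4
  -- combine
  have hlogX : 0 ≤ Real.log X := Real.log_natCast_nonneg X
  have hk0 : 0 ≤ ∑ k ∈ Icc 1 X, cm (fun p => u p) k / (k : ℝ) :=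
    Finset.sum_nonneg (fun k _ => div_nonneg (cm_nonneg hu0 k) (Nat.cast_nonneg k))
  have h7 : (2 : ℝ) ^ (45 * v) * (∑ k ∈ Icc 1 X, cm (fun p => u p) k / (k : ℝ)) *
      ∑ q ∈ G t K, cm u q.1 * cm (fun p => u p) (q.1 + q.2) / (q.2 * (q.1 + q.2 : ℕ)) ≤
      2 ^ (45 * v) * (C₂ * Real.log X * Real.exp (-(1 * (S (L (4 * v)) - 1 / 2) +
        1 / 2 * (S (L (64 * v)) - S (L (4 * v)))))) *
      (C₃ * (1 + Real.log K) * Real.exp t * (t + 1) ^ 3 *
        Real.exp (-(2 * (S (L (4 * v)) - 1 / 2) + 1 * (S (L t) - S (L (4 * v)))))) := by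
    apply mul_le_mul
    · exact mul_le_mul_of_nonneg_left h2 (by positivity)
    · exact h4
    · apply Finset.sum_nonneg
      intro q _
      exact div_nonneg (mul_nonneg (cm_nonneg hu0 _) (cm_nonneg hu0 _)) (by positivity)
    · positivity
  refine h7.trans ?_
  have h8 : (2 : ℝ) ^ (45 * v) = Real.exp (45 * v * Real.log 2) := by
    rw [show (45 : ℝ) * v * Real.log 2 = ((45 * v : ℕ) : ℝ) * Real.log 2 by push_cast; ring,
      Real.exp_nat_mul, Real.exp_log (by norm_num)]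
  have h9 : ((t : ℝ) + 1) ^ 3 ≤ 64 ^ 3 * (v + 1) ^ 3 := by
    rw [← mul_pow]
    apply pow_le_pow_left₀ (by positivity)
    have : (t : ℝ) ≤ 64 * v := by exact_mod_cast ht2.le
    linarith
  have h10 : Real.exp (45 * v * Real.log 2) * Real.exp (-(1 * (S (L (4 * v)) - 1 / 2) +
        1 / 2 * (S (L (64 * v)) - S (L (4 * v))))) * Real.exp t *
        Real.exp (-(2 * (S (L (4 * v)) - 1 / 2) + 1 * (S (L t) - S (L (4 * v))))) ≤
      Real.exp (-(6.66 * v)) * Real.exp (6 * C₁ + 3 / 2) := by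
    rw [← Real.exp_add, ← Real.exp_add, ← Real.exp_add, ← Real.exp_add]
    apply Real.exp_le_exp.2
    have h11 : (v : ℝ) * Real.log 2 ≤ v * 0.6931472 :=
      mul_le_mul_of_nonneg_left log_two_bounds.2.le (Nat.cast_nonneg v)
    have hv0 : (0 : ℝ) ≤ v := Nat.cast_nonneg v
    linarith [hSP.1, hSP.2, hSM.1, hSM.2, hSt.1, hSt.2]
  calc (2 : ℝ) ^ (45 * v) * (C₂ * Real.log X * Real.exp (-(1 * (S (L (4 * v)) - 1 / 2) +
        1 / 2 * (S (L (64 * v)) - S (L (4 * v)))))) *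
      (C₃ * (1 + Real.log K) * Real.exp t * (t + 1) ^ 3 *
        Real.exp (-(2 * (S (L (4 * v)) - 1 / 2) + 1 * (S (L t) - S (L (4 * v))))))
      = (C₂ * C₃ * Real.log X * (1 + Real.log K) * (t + 1) ^ 3) *
        (Real.exp (45 * v * Real.log 2) * Real.exp (-(1 * (S (L (4 * v)) - 1 / 2) +
        1 / 2 * (S (L (64 * v)) - S (L (4 * v))))) * Real.exp t *
        Real.exp (-(2 * (S (L (4 * v)) - 1 / 2) + 1 * (S (L t) - S (L (4 * v)))))) := by
        rw [h8]; ring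
    _ ≤ (C₂ * C₃ * Real.log X * (11 * (v + 1)) * (64 ^ 3 * (v + 1) ^ 3)) *
        (Real.exp (-(6.66 * v)) * Real.exp (6 * C₁ + 3 / 2)) := by
        apply mul_le_mul
        · apply mul_le_mul
          · exact mul_le_mul_of_nonneg_left hK4 (by positivity)
          · exact h9
          · positivity
          · positivity
        · exact h10
        · positivity
        · positivity
    _ = _ := by ring

/-- groups `t = 64 v + j` -/
theorem regimeB (C₀ : ℕ) : ∃ C : ℝ, 0 < C ∧ ∀ v : ℕ, 2 ≤ v → ∀ K : ℕ, 1 ≤ K →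
    (K : ℝ) ≤ Real.exp (8 * v) + 1 → ∀ X j : ℕ, L (64 * v + j) ≤ X →
    ∑ y ∈ R C₀ v K (64 * v + j) X, (1 : ℝ) / y ≤
      C * (v + 1) ^ 4 * Real.exp (-(6.66 * v)) * Real.log X *
        ((j + 1 : ℝ) ^ 3 * Real.exp (-(0.004 * j))) := by
  obtain ⟨C₁, hC₁, hM⟩ := mertens_L
  obtain ⟨C₂, hC₂, hlog⟩ := logsum_le
  obtain ⟨C₃, hC₃, hpair⟩ := pair_bound
  refine ⟨C₂ * C₃ * 11 * 64 ^ 3 * Real.exp (8 * C₁ + 3 / 2 + C₀) + C₂ * Real.exp C₁,
    by positivity, ?_⟩
  intro v hv K hK1 hK X j hX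
  set t := 64 * v + j with ht
  have ht1 : 4 * v ≤ t := by omega
  have hP2 := two_le_L (4 * v)
  have hPt : L (4 * v) ≤ L t := L_mono ht1
  have hX2 : 2 ≤ X := (two_le_L _).trans hX
  have hSP := S_eq_L C₁ hM (4 * v)
  have hSt := S_eq_L C₁ hM t
  have htr : (t : ℝ) = 64 * v + j := by rw [ht]; push_cast; ring
  push_cast at hSP
  rw [htr] at hSt
  obtain ⟨hK3, hK4, hK5⟩ := K_bounds hv ht1 hK1 hK
  have hv0 : (0 : ℝ) ≤ v := Nat.cast_nonneg v
  have hj0 : (0 : ℝ) ≤ j := Nat.cast_nonneg j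
  set P := L (4 * v) with hP
  set Q := L t with hQ
  have hu0 : ∀ p, 0 ≤ wx P Q p := fun p => (wx_bounds _ _ p).1
  have hu1 : ∀ p, wx P Q p ≤ 1 := fun p => (wx_bounds _ _ p).2
  have hw0 : ∀ p, 0 ≤ wy P Q p := fun p => (wy_bounds _ _ p).1
  have hlogX : 0 ≤ Real.log X := Real.log_natCast_nonneg X
  have hl2 := log_two_bounds
  -- exponents
  set A : ℝ := Real.exp ((45 * v + 51 / 50 * j + C₀) * Real.log 2) with hA
  set e₂ : ℝ := 15 * v + j / 4 with he₂
  set e₁ : ℝ := (45 * v + 51 / 50 * j) * Real.log 2 - 81.2 * v - 1.22 * j with he₁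
  set b : ℝ := Real.exp ((e₂ - e₁) / 3) with hb
  have hb0 : 0 < b := Real.exp_pos _
  -- pointwise inequality
  have h0 : ∀ y ∈ R C₀ v K t X, (1 : ℝ) / y ≤ b ^ 2 * (cm (wy P Q) y / y) +
      b⁻¹ * (cm (wz P Q) y / y) := by
    intro y _
    have hg : 0 < cm (wg P Q) y := cm_pos (fun p => wg_pos P Q p) y
    have h1 := cm_wg_sq P Q y
    have h2 := cm_wg_mul_wz P Q y
    have h3 : cm (wz P Q) y = (cm (wg P Q) y)⁻¹ := by
      field_simp
      linarith
    rw [← h1, h3]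
    have h4 : (1 : ℝ) ≤ b ^ 2 * cm (wg P Q) y ^ 2 + b⁻¹ * (cm (wg P Q) y)⁻¹ := by
      rw [← mul_pow, ← mul_inv]
      set z := b * cm (wg P Q) y with hz
      have hz0 : 0 < z := by positivity
      rcases le_total 1 z with h5 | h5
      · have : 1 ≤ z ^ 2 := one_le_pow₀ h5
        have : 0 < z⁻¹ := by positivity
        linarith
      · have : 1 ≤ z⁻¹ := (one_le_inv₀ hz0).2 h5
        have : 0 ≤ z ^ 2 := by positivity
        linarith
    have h6 : b ^ 2 * (cm (wg P Q) y ^ 2 / (y : ℝ)) + b⁻¹ * ((cm (wg P Q) y)⁻¹ / (y : ℝ)) =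
        (b ^ 2 * cm (wg P Q) y ^ 2 + b⁻¹ * (cm (wg P Q) y)⁻¹) / (y : ℝ) := by ring
    rw [h6]
    exact div_le_div_of_nonneg_right h4 (Nat.cast_nonneg y)
  -- the first sum
  have h1 := edge_sum (C₀ := C₀) (v := v) (K := K) (t := t) (X := X) (u := wx P Q) (w := wy P Q)
    hu0 hw0 (A := A) (Real.exp_pos _).le (by
      intro x hx
      rw [cm_wx (fun p hp hpx => E0_prime hx.1 hp hpx) hP2]
      have h5 : Om P Q x = 45 * v + Om (L (64 * v)) Q x := by
        rw [Om_split (b := L (64 * v)) (L_mono (by omega)) (L_mono (by omega)), E0_Om hx.1]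
      have h6 := hx.2 j
      have h7 : (Om P Q x : ℝ) ≤ 45 * v + 51 / 50 * j + C₀ := by
        rw [h5]
        push_cast
        linarith
      have h8 : (1 / 2 : ℝ) ^ Om P Q x = Real.exp (-((Om P Q x : ℝ) * Real.log 2)) := by
        rw [Real.exp_neg, Real.exp_nat_mul, Real.exp_log (by norm_num)]
        rw [one_div, inv_pow]
      rw [h8, hA, ← Real.exp_add]
      apply Real.one_le_exp
      have := mul_le_mul_of_nonneg_right h7 (show (0 : ℝ) ≤ Real.log 2 by linarith)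
      linarith)
  have h2 := hlog (fun p => wx P Q p * wy P Q p)
    (fun p => ⟨(wxy_bounds P Q p).1, (wxy_bounds P Q p).2.trans (by norm_num)⟩) X hX2
  have h3 : ∑ p ∈ Nat.primesLE X, (1 - wx P Q p * wy P Q p) / (p : ℝ) =
      1 * (S P - 1 / 2) + 17 / 25 * (S Q - S P) := by
    rw [← sum_piecewise' hP2 hPt hX]
    apply Finset.sum_congr rfl
    intro p _
    congr 1
    simp only [wx, wy]
    split_ifs <;> norm_num
  rw [h3] at h2
  have h4 := hpair t K (wx P Q) (wy P Q) (fun p => wx P Q p * wy P Q p)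
    (fun p => ⟨hu0 p, hu1 p⟩) (fun p => wy_bounds P Q p) (fun p => wxy_bounds P Q p) hK1 hK3
    (G t K) (fun q hq => mem_G.1 hq)
  have h5 : ∑ p ∈ Nat.primesLE Q, (3 - wx P Q p - wy P Q p - wx P Q p * wy P Q p) / (p : ℝ) =
      2 * (S P - 1 / 2) + 77 / 50 * (S Q - S P) := by
    rw [← sum_piecewise' hP2 hPt (le_refl Q)]
    apply Finset.sum_congr rfl
    intro p _
    congr 1
    simp only [wx, wy]
    split_ifs <;> norm_num
  rw [← hQ, h5] at h4
  have hk0 : 0 ≤ ∑ k ∈ Icc 1 X, cm (fun p => wx P Q p * wy P Q p) k / (k : ℝ) :=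
    Finset.sum_nonneg (fun k _ => div_nonneg (cm_nonneg (fun p => (wxy_bounds P Q p).1) k)
      (Nat.cast_nonneg k))
  have hlogK : 0 ≤ 1 + Real.log K := by linarith
  have h7 : ∑ y ∈ R C₀ v K t X, cm (wy P Q) y / y ≤
      A * (C₂ * Real.log X * Real.exp (-(1 * (S P - 1 / 2) + 17 / 25 * (S Q - S P)))) *
      (C₃ * (1 + Real.log K) * Real.exp t * (t + 1) ^ 3 *
        Real.exp (-(2 * (S P - 1 / 2) + 77 / 50 * (S Q - S P)))) := by
    refine h1.trans ?_
    apply mul_le_mul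
    · exact mul_le_mul_of_nonneg_left h2 (Real.exp_pos _).le
    · exact h4
    · apply Finset.sum_nonneg
      intro q _
      exact div_nonneg (mul_nonneg (mul_nonneg (cm_nonneg hu0 _) (cm_nonneg hw0 _))
        (cm_nonneg (fun p => (wxy_bounds P Q p).1) _)) (by positivity)
    · positivity
  -- the second sum
  have h8 : ∑ y ∈ R C₀ v K t X, cm (wz P Q) y / y ≤
      C₂ * Real.log X * Real.exp (1 / 4 * (S Q - S P)) := by
    have h9 := hlog (wz P Q) (fun p => wz_bounds P Q p) X hX2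
    have h10 : ∑ p ∈ Nat.primesLE X, (1 - wz P Q p) / (p : ℝ) =
        0 * S P + (-(1 / 4)) * (S Q - S P) := by
      rw [← sum_piecewise hPt hX]
      apply Finset.sum_congr rfl
      intro p _
      congr 1
      simp only [wz]
      split_ifs <;> norm_num
    rw [h10] at h9
    have h11 : -(0 * S P + (-(1 / 4)) * (S Q - S P)) = 1 / 4 * (S Q - S P) := by ring
    rw [h11] at h9
    refine le_trans ?_ h9
    apply Finset.sum_le_sum_of_subset_of_nonneg
    · exact R_subset _ _ _ _ _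
    · intro y _ _
      exact div_nonneg (cm_nonneg (fun p => (wz_bounds P Q p).1) y) (Nat.cast_nonneg y)
  -- combine
  have h12 : ∑ y ∈ R C₀ v K t X, (1 : ℝ) / y ≤
      b ^ 2 * ∑ y ∈ R C₀ v K t X, cm (wy P Q) y / y +
      b⁻¹ * ∑ y ∈ R C₀ v K t X, cm (wz P Q) y / y := by
    rw [Finset.mul_sum, Finset.mul_sum, ← Finset.sum_add_distrib]
    exact Finset.sum_le_sum h0
  have hb2 : b ^ 2 = Real.exp (2 * ((e₂ - e₁) / 3)) := by
    rw [hb, ← Real.exp_nat_mul]
    norm_num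
  have hbi : b⁻¹ = Real.exp (-((e₂ - e₁) / 3)) := by
    rw [hb, Real.exp_neg]
  have hmain : (e₁ + 2 * e₂) / 3 ≤ -(6.66 * v) - 0.004 * j := by
    rw [he₁, he₂]
    have h13 : (v : ℝ) * Real.log 2 ≤ v * 0.6931472 := mul_le_mul_of_nonneg_left hl2.2.le hv0
    have h14 : (j : ℝ) * Real.log 2 ≤ j * 0.6931472 := mul_le_mul_of_nonneg_left hl2.2.le hj0
    linarith
  have h15 : b ^ 2 * (A * Real.exp (-(1 * (S P - 1 / 2) + 17 / 25 * (S Q - S P))) * Real.exp t *
        Real.exp (-(2 * (S P - 1 / 2) + 77 / 50 * (S Q - S P)))) ≤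
      Real.exp (8 * C₁ + 3 / 2 + C₀) * Real.exp (-(6.66 * v) - 0.004 * j) := by
    rw [hb2, hA, htr, ← Real.exp_add, ← Real.exp_add, ← Real.exp_add, ← Real.exp_add,
      ← Real.exp_add]
    apply Real.exp_le_exp.2
    have hC0 : (C₀ : ℝ) * Real.log 2 ≤ C₀ := by
      have : (0 : ℝ) ≤ C₀ := Nat.cast_nonneg _
      nlinarith
    have h16 : 2 * ((e₂ - e₁) / 3) + e₁ = (e₁ + 2 * e₂) / 3 := by ring
    have h17 : (45 * (v : ℝ) + 51 / 50 * j + C₀) * Real.log 2 -
        (1 * (S P - 1 / 2) + 17 / 25 * (S Q - S P)) + (64 * v + j) -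
        (2 * (S P - 1 / 2) + 77 / 50 * (S Q - S P)) ≤ e₁ + (8 * C₁ + 3 / 2 + C₀) := by
      rw [he₁]
      nlinarith [hSP.1, hSP.2, hSt.1, hSt.2]
    linarith
  have h18 : b⁻¹ * Real.exp (1 / 4 * (S Q - S P)) ≤
      Real.exp C₁ * Real.exp (-(6.66 * v) - 0.004 * j) := by
    rw [hbi, ← Real.exp_add, ← Real.exp_add]
    apply Real.exp_le_exp.2
    have h19 : -((e₂ - e₁) / 3) + e₂ = (e₁ + 2 * e₂) / 3 := by ring
    have h20 : 1 / 4 * (S Q - S P) ≤ e₂ + C₁ := by
      rw [he₂]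
      linarith [hSP.1, hSt.2]
    linarith
  have h21 : ((t : ℝ) + 1) ^ 3 ≤ 64 ^ 3 * (v + 1) ^ 3 * (j + 1) ^ 3 := by
    rw [← mul_pow, ← mul_pow]
    apply pow_le_pow_left₀ (by positivity)
    rw [htr]
    nlinarith [mul_nonneg hv0 hj0]
  have hj3 : (1 : ℝ) ≤ (j + 1 : ℝ) ^ 3 := one_le_pow₀ (by linarith)
  have hv3 : (1 : ℝ) ≤ (v + 1 : ℝ) ^ 4 := one_le_pow₀ (by linarith)
  have h22 : Real.exp (-(6.66 * v) - 0.004 * j) =
      Real.exp (-(6.66 * (v : ℝ))) * Real.exp (-(0.004 * (j : ℝ))) := by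
    rw [← Real.exp_add]
    ring_nf
  calc ∑ y ∈ R C₀ v K t X, (1 : ℝ) / y
      ≤ b ^ 2 * (A * (C₂ * Real.log X * Real.exp (-(1 * (S P - 1 / 2) +
          17 / 25 * (S Q - S P)))) * (C₃ * (1 + Real.log K) * Real.exp t * (t + 1) ^ 3 *
          Real.exp (-(2 * (S P - 1 / 2) + 77 / 50 * (S Q - S P))))) +
        b⁻¹ * (C₂ * Real.log X * Real.exp (1 / 4 * (S Q - S P))) := by
        refine h12.trans (add_le_add ?_ ?_)
        · exact mul_le_mul_of_nonneg_left h7 (by positivity)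
        · exact mul_le_mul_of_nonneg_left h8 (by positivity)
    _ = (C₂ * C₃ * Real.log X * (1 + Real.log K) * (t + 1) ^ 3) *
        (b ^ 2 * (A * Real.exp (-(1 * (S P - 1 / 2) + 17 / 25 * (S Q - S P))) * Real.exp t *
        Real.exp (-(2 * (S P - 1 / 2) + 77 / 50 * (S Q - S P))))) +
        C₂ * Real.log X * (b⁻¹ * Real.exp (1 / 4 * (S Q - S P))) := by ring
    _ ≤ (C₂ * C₃ * Real.log X * (11 * (v + 1)) * (64 ^ 3 * (v + 1) ^ 3 * (j + 1) ^ 3)) *
        (Real.exp (8 * C₁ + 3 / 2 + C₀) * Real.exp (-(6.66 * v) - 0.004 * j)) +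
        C₂ * Real.log X * (Real.exp C₁ * Real.exp (-(6.66 * v) - 0.004 * j)) := by
        apply add_le_add
        · apply mul_le_mul
          · apply mul_le_mul
            · exact mul_le_mul_of_nonneg_left hK4 (by positivity)
            · exact h21
            · positivity
            · positivity
          · exact h15
          · positivity
          · positivity
        · exact mul_le_mul_of_nonneg_left h18 (by positivity)
    _ ≤ (C₂ * C₃ * Real.log X * (11 * (v + 1)) * (64 ^ 3 * (v + 1) ^ 3 * (j + 1) ^ 3)) *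
        (Real.exp (8 * C₁ + 3 / 2 + C₀) * Real.exp (-(6.66 * v) - 0.004 * j)) +
        C₂ * Real.log X * (Real.exp C₁ * Real.exp (-(6.66 * v) - 0.004 * j)) *
          ((v + 1) ^ 4 * (j + 1) ^ 3) := by
        apply add_le_add (le_refl _)
        apply le_mul_of_one_le_right (by positivity)
        exact one_le_mul_of_one_le_of_one_le hv3 hj3
    _ = _ := by
        rw [h22]
        ring

/-- [R] upper bound for the logarithmic density of the neighbours. -/
theorem Nb_upper' (C₀ : ℕ) : ∃ C : ℝ, 0 < C ∧ ∀ v : ℕ, 2 ≤ v → ∀ K : ℕ, 1 ≤ K →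
    (K : ℝ) ≤ Real.exp (8 * v) + 1 → ∀ X : ℕ, L (64 * v) ≤ X →
    ∀ s : Finset ℕ, (∀ y ∈ s, y ∈ Nb K C₀ v ∧ y ≤ X) →
    ∑ y ∈ s, (1 : ℝ) / y ≤ C * (v + 1) ^ 5 * Real.exp (-(6.66 * v)) * Real.log X := by
  obtain ⟨CA, hCA, hA⟩ := regimeA C₀
  obtain ⟨CB, hCB, hB⟩ := regimeB C₀
  -- the series
  have hsum : Summable (fun j : ℕ => ((j : ℝ) + 1) ^ 3 * Real.exp (-(0.004 * j))) := by
    have h := Real.summable_pow_mul_exp_neg_nat_mul 3 (show (0 : ℝ) < 0.004 by norm_num)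
    have h2 := ((summable_nat_add_iff 1).2 h).mul_left (Real.exp 0.004)
    refine h2.congr (fun j => ?_)
    push_cast
    rw [show -(0.004 * (j : ℝ)) = 0.004 + -0.004 * ((j : ℝ) + 1) by ring, Real.exp_add]
    ring
  set Z₀ := ∑' j : ℕ, ((j : ℝ) + 1) ^ 3 * Real.exp (-(0.004 * j)) with hZ
  have hZ0 : 0 ≤ Z₀ := tsum_nonneg (fun j => by positivity)
  refine ⟨CA * 64 + CB * Z₀, by positivity, ?_⟩
  intro v hv K hK1 hK X hX s hs
  have hlogX : 0 ≤ Real.log X := Real.log_natCast_nonneg X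
  have hv0 : (0 : ℝ) ≤ v := Nat.cast_nonneg v
  -- bound for `t`
  have hT : ∀ t, L t < X → t < X := by
    intro t ht
    have h1 : t ≤ L t := by
      unfold L
      apply Nat.le_floor
      have h2 : (t : ℝ) ≤ Real.exp t := by
        have := Real.add_one_le_exp (t : ℝ)
        linarith
      have h3 : Real.exp (t : ℝ) ≤ Real.exp (Real.exp t) := Real.exp_le_exp.2 h2
      linarith
    omega
  refine (sum_Nb_le s hs X hT).trans ?_
  set I := (range X).filter (fun t => 4 * v ≤ t ∧ L t < X) with hI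
  rw [← Finset.sum_filter_add_sum_filter_not I (fun t => t < 64 * v)]
  have h1 : ∑ t ∈ I with t < 64 * v, ∑ y ∈ R C₀ v K t X, (1 : ℝ) / y ≤
      CA * 64 * (v + 1) ^ 5 * Real.exp (-(6.66 * v)) * Real.log X := by
    calc ∑ t ∈ I with t < 64 * v, ∑ y ∈ R C₀ v K t X, (1 : ℝ) / y
        ≤ ∑ t ∈ I with t < 64 * v, CA * (v + 1) ^ 4 * Real.exp (-(6.66 * v)) * Real.log X := by
          apply Finset.sum_le_sum
          intro t ht
          rw [Finset.mem_filter, hI, Finset.mem_filter] at ht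
          exact hA v hv K hK1 hK X hX t ht.1.2.1 ht.2
      _ = ((I.filter (fun t => t < 64 * v)).card : ℝ) *
          (CA * (v + 1) ^ 4 * Real.exp (-(6.66 * v)) * Real.log X) := by
          rw [Finset.sum_const, nsmul_eq_mul]
      _ ≤ (64 * (v + 1)) * (CA * (v + 1) ^ 4 * Real.exp (-(6.66 * v)) * Real.log X) := by
          apply mul_le_mul_of_nonneg_right _ (by positivity)
          have h2 : (I.filter (fun t => t < 64 * v)) ⊆ range (64 * v) := by
            intro t ht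
            exact Finset.mem_range.2 (Finset.mem_filter.1 ht).2
          have h3 := Finset.card_le_card h2
          rw [Finset.card_range] at h3
          have h4 : ((I.filter (fun t => t < 64 * v)).card : ℝ) ≤ 64 * v := by exact_mod_cast h3
          linarith
      _ = _ := by ring
  have h2 : ∑ t ∈ I with ¬ t < 64 * v, ∑ y ∈ R C₀ v K t X, (1 : ℝ) / y ≤
      CB * Z₀ * (v + 1) ^ 5 * Real.exp (-(6.66 * v)) * Real.log X := by
    calc ∑ t ∈ I with ¬ t < 64 * v, ∑ y ∈ R C₀ v K t X, (1 : ℝ) / y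
        ≤ ∑ t ∈ I with ¬ t < 64 * v, CB * (v + 1) ^ 4 * Real.exp (-(6.66 * v)) * Real.log X *
          ((((t - 64 * v : ℕ) : ℝ) + 1) ^ 3 * Real.exp (-(0.004 * ((t - 64 * v : ℕ) : ℝ)))) := by
          apply Finset.sum_le_sum
          intro t ht
          rw [Finset.mem_filter, hI, Finset.mem_filter] at ht
          have h3 : t = 64 * v + (t - 64 * v) := by omega
          have h4 := hB v hv K hK1 hK X (t - 64 * v) (by rw [← h3]; exact ht.1.2.2.le)
          rw [← h3] at h4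
          exact h4
      _ = CB * (v + 1) ^ 4 * Real.exp (-(6.66 * v)) * Real.log X *
          ∑ t ∈ I with ¬ t < 64 * v,
          ((((t - 64 * v : ℕ) : ℝ) + 1) ^ 3 * Real.exp (-(0.004 * ((t - 64 * v : ℕ) : ℝ)))) := by
          rw [Finset.mul_sum]
      _ ≤ CB * (v + 1) ^ 4 * Real.exp (-(6.66 * v)) * Real.log X * Z₀ := by
          apply mul_le_mul_of_nonneg_left _ (by positivity)
          have h5 : ∑ t ∈ I with ¬ t < 64 * v,
              ((((t - 64 * v : ℕ) : ℝ) + 1) ^ 3 *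
                Real.exp (-(0.004 * ((t - 64 * v : ℕ) : ℝ)))) =
              ∑ j ∈ (I.filter (fun t => ¬ t < 64 * v)).image (fun t => t - 64 * v),
              (((j : ℝ) + 1) ^ 3 * Real.exp (-(0.004 * (j : ℝ)))) := by
            rw [Finset.sum_image]
            intro a ha b hb hab
            rw [Finset.mem_coe, Finset.mem_filter] at ha hb
            simp only at hab
            omega
          rw [h5]
          exact hsum.sum_le_tsum _ (fun j _ => by positivity)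
      _ ≤ CB * (v + 1) ^ 5 * Real.exp (-(6.66 * v)) * Real.log X * Z₀ := by
          have h6 : ((v : ℝ) + 1) ^ 4 ≤ (v + 1) ^ 5 :=
            pow_le_pow_right₀ (by linarith) (by norm_num)
          gcongr
      _ = _ := by ring
  calc _ ≤ CA * 64 * (v + 1) ^ 5 * Real.exp (-(6.66 * v)) * Real.log X +
      CB * Z₀ * (v + 1) ^ 5 * Real.exp (-(6.66 * v)) * Real.log X := add_le_add h1 h2
    _ = _ := by ring

end Pool.Agent.Lib.helper94.ANT
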