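import Pool.Agent.Lib.helper94.ANT.Mertens

/-!
Weights for MP_923662_nt.
-/

namespace Pool.Agent.Lib.helper94.ANT

open Finset

/-- sum of `1/p` over primes `p ≤ x` -/
noncomputable def S (x : ℕ) : ℝ := ∑ p ∈ Nat.primesLE x, (1 : ℝ) / p

theorem L_mono : Monotone L := by
  intro s t h
  unfold L
  apply Nat.floor_mono
  apply Real.exp_le_exp.2
  apply Real.exp_le_exp.2
  exact_mod_cast h

theorem primesLE_subset {a b : ℕ} (h : a ≤ b) : Nat.primesLE a ⊆ Nat.primesLE b := by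
  intro p hp
  rw [Nat.mem_primesLE] at hp ⊢
  exact ⟨hp.1.trans h, hp.2⟩

theorem S_mono {a b : ℕ} (h : a ≤ b) : S a ≤ S b := by
  unfold S
  exact Finset.sum_le_sum_of_subset_of_nonneg (primesLE_subset h) (fun _ _ _ => by positivity)

/-- piecewise constant weights -/
theorem sum_piecewise {P Q N : ℕ} (hPQ : P ≤ Q) (hQN : Q ≤ N) (a b : ℝ) :
    ∑ p ∈ Nat.primesLE N, (if p ≤ P then a else if p ≤ Q then b else 0) / (p : ℝ) =
      a * S P + b * (S Q - S P) := by
  have h1 : ∀ M ≤ N, ∑ p ∈ Nat.primesLE N, (if p ≤ M then (1 : ℝ) else 0) / (p : ℝ) = S M := by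
    intro M hM
    unfold S
    rw [← Finset.sum_subset (primesLE_subset hM)]
    · apply Finset.sum_congr rfl
      intro p hp
      rw [Nat.mem_primesLE] at hp
      rw [if_pos hp.1]
    · intro p hp hp'
      rw [Nat.mem_primesLE] at hp hp'
      rw [if_neg (fun h => hp' ⟨h, hp.2⟩), zero_div]
  rw [← h1 P (hPQ.trans hQN), ← h1 Q hQN, ← Finset.sum_sub_distrib, Finset.mul_sum,
    Finset.mul_sum, ← Finset.sum_add_distrib]
  apply Finset.sum_congr rfl
  intro p _
  by_cases hp : p ≤ P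
  · rw [if_pos hp, if_pos hp, if_pos (hp.trans hPQ)]
    ring
  · rw [if_neg hp, if_neg hp]
    by_cases hq : p ≤ Q
    · rw [if_pos hq, if_pos hq]
      ring
    · rw [if_neg hq, if_neg hq]
      ring

/-- the same with an exception at `2` -/
theorem sum_piecewise' {P Q N : ℕ} (hP : 2 ≤ P) (hPQ : P ≤ Q) (hQN : Q ≤ N) (a b : ℝ) :
    ∑ p ∈ Nat.primesLE N, (if p ≤ P then (if p = 2 then 0 else a) else
      if p ≤ Q then b else 0) / (p : ℝ) = a * (S P - 1 / 2) + b * (S Q - S P) := by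
  have h2 : 2 ∈ Nat.primesLE N := by
    rw [Nat.mem_primesLE]
    exact ⟨hP.trans (hPQ.trans hQN), Nat.prime_two⟩
  have h := sum_piecewise hPQ hQN a b
  rw [← Finset.add_sum_erase _ _ h2] at h ⊢
  rw [if_pos hP] at h
  rw [if_pos hP, if_pos rfl]
  have h3 : ∑ p ∈ (Nat.primesLE N).erase 2, (if p ≤ P then (if p = 2 then 0 else a) else
      if p ≤ Q then b else 0) / (p : ℝ) =
      ∑ p ∈ (Nat.primesLE N).erase 2, (if p ≤ P then a else if p ≤ Q then b else 0) / (p : ℝ) := by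
    apply Finset.sum_congr rfl
    intro p hp
    rw [if_neg (Finset.ne_of_mem_erase hp)]
  rw [h3]
  push_cast at h ⊢
  linarith

theorem cm_congr {w w' : ℕ → ℝ} {n : ℕ} (h : ∀ p, p.Prime → p ∣ n → w p = w' p) :
    cm w n = cm w' n := by
  unfold cm
  congr 1
  apply List.map_congr_left
  intro p hp
  exact h p (Nat.prime_of_mem_primeFactorsList hp) (Nat.dvd_of_mem_primeFactorsList hp)

theorem cm_range (a b : ℕ) (c : ℝ) (n : ℕ) :
    cm (fun p => if a < p ∧ p ≤ b then c else 1) n = c ^ Om a b n := by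
  unfold cm Om
  induction n.primeFactorsList with
  | nil => simp
  | cons p l ih =>
    rw [List.map_cons, List.prod_cons, ih, List.filter_cons]
    by_cases hp : a < p ∧ p ≤ b
    · simp [hp, pow_succ, mul_comm]
    · simp [hp]

theorem Om_mul {a b m n : ℕ} (hm : m ≠ 0) (hn : n ≠ 0) : Om a b (m * n) = Om a b m + Om a b n := by
  unfold Om
  rw [((Nat.perm_primeFactorsList_mul hm hn).filter _).length_eq, List.filter_append,
    List.length_append]

theorem Om_split {a b c n : ℕ} (hab : a ≤ b) (hbc : b ≤ c) :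
    Om a c n = Om a b n + Om b c n := by
  unfold Om
  rw [← List.countP_eq_length_filter, ← List.countP_eq_length_filter,
    ← List.countP_eq_length_filter]
  induction n.primeFactorsList with
  | nil => simp
  | cons p l ih =>
    rw [List.countP_cons, List.countP_cons, List.countP_cons, ih]
    simp only [decide_eq_true_eq]
    split_ifs <;> omega

/-- weight for the elements of `E` -/
noncomputable def wx (P Q : ℕ) (p : ℕ) : ℝ :=
  if p ≤ P then (if p = 2 then 1 else 0) else if p ≤ Q then 1 / 2 else 1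

/-- weight for the neighbours -/
noncomputable def wy (P Q : ℕ) (p : ℕ) : ℝ := if p ≤ P then 1 else if p ≤ Q then 16 / 25 else 1

/-- square root of `wy` -/
noncomputable def wg (P Q : ℕ) (p : ℕ) : ℝ := if p ≤ P then 1 else if p ≤ Q then 4 / 5 else 1

/-- inverse of `wg` -/
noncomputable def wz (P Q : ℕ) (p : ℕ) : ℝ := if p ≤ P then 1 else if p ≤ Q then 5 / 4 else 1

theorem wx_bounds (P Q p : ℕ) : 0 ≤ wx P Q p ∧ wx P Q p ≤ 1 := by
  unfold wx
  split_ifs <;> norm_num

theorem wy_bounds (P Q p : ℕ) : 0 ≤ wy P Q p ∧ wy P Q p ≤ 1 := by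
  unfold wy
  split_ifs <;> norm_num

theorem wg_pos (P Q p : ℕ) : 0 < wg P Q p := by
  unfold wg
  split_ifs <;> norm_num

theorem wz_bounds (P Q p : ℕ) : 0 ≤ wz P Q p ∧ wz P Q p ≤ 5 / 4 := by
  unfold wz
  split_ifs <;> norm_num

theorem wxy_bounds (P Q p : ℕ) : 0 ≤ wx P Q p * wy P Q p ∧ wx P Q p * wy P Q p ≤ 1 := by
  have h1 := wx_bounds P Q p
  have h2 := wy_bounds P Q p
  exact ⟨mul_nonneg h1.1 h2.1, mul_le_one₀ h1.2 h2.1 h2.2⟩

theorem cm_pos {w : ℕ → ℝ} (hw : ∀ p, 0 < w p) (n : ℕ) : 0 < cm w n := by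
  unfold cm
  apply List.prod_pos
  intro x hx
  obtain ⟨p, -, rfl⟩ := List.mem_map.1 hx
  exact hw p

theorem cm_const_one (n : ℕ) : cm (fun _ => 1) n = 1 := by
  unfold cm
  simp

theorem cm_wg_sq (P Q n : ℕ) : cm (wg P Q) n ^ 2 = cm (wy P Q) n := by
  rw [sq, ← cm_mul_weights]
  apply cm_congr
  intro p _ _
  unfold wg wy
  split_ifs <;> norm_num

theorem cm_wg_mul_wz (P Q n : ℕ) : cm (wg P Q) n * cm (wz P Q) n = 1 := by
  rw [← cm_mul_weights, ← cm_const_one n]
  apply cm_congr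
  intro p _ _
  unfold wg wz
  split_ifs <;> norm_num

/-- for numbers whose odd prime factors exceed `P` -/
theorem cm_wx {P Q n : ℕ} (hn : ∀ p, p.Prime → p ∣ n → p = 2 ∨ P < p) (hP : 2 ≤ P) :
    cm (wx P Q) n = (1 / 2) ^ Om P Q n := by
  rw [← cm_range]
  apply cm_congr
  intro p hp hpn
  unfold wx
  rcases hn p hp hpn with rfl | h
  · rw [if_pos hP, if_pos rfl, if_neg (fun h => absurd hP (not_le.2 h.1))]
  · rw [if_neg (not_le.2 h)]
    by_cases hQ : p ≤ Q
    · rw [if_pos hQ, if_pos ⟨h, hQ⟩]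
    · rw [if_neg hQ, if_neg (fun h' => hQ h'.2)]

end Pool.Agent.Lib.helper94.ANT
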